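import Pool.Agent.Lib.PC37.Dist

set_option autoImplicit false

open Set Filter Topology

namespace Pool.Agent.Lib.PC37

open Pool.Agent.Lib.MP_deb346_gt

variable {X : Type} [MetricSpace X] [Nonempty X] {i : X → ℝ × ℝ}

lemma aff_smul {α : ℝ} (hα : α ≠ 0) (v : Fin 3 → ℝ) : aff (α • v) = aff v := by
  simp only [aff, Pi.smul_apply, smul_eq_mul, mul_div_mul_left _ _ hα]

lemma aff_hom (P : ℝ × ℝ) : aff (hom P) = P := by simp [aff, hom]

lemma smul_hom_aff {v : Fin 3 → ℝ} (hv : v 2 ≠ 0) : v 2 • hom (aff v) = v := by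
  ext j; fin_cases j
  · simp only [hom, aff]; simp; field_simp
  · simp only [hom, aff]; simp; field_simp
  · simp [hom]

lemma continuous_hom : Continuous hom := by
  unfold hom; fun_prop

lemma tendsto_aff {ι : Type*} {l : Filter ι} {f : ι → Fin 3 → ℝ} {v : Fin 3 → ℝ}
    (hf : Tendsto f l (𝓝 v)) (hv : v 2 ≠ 0) : Tendsto (fun t => aff (f t)) l (𝓝 (aff v)) :=
  ((((continuous_apply 0).tendsto v).comp hf).div (((continuous_apply 2).tendsto v).comp hf)
    hv).prodMk_nhds ((((continuous_apply 1).tendsto v).comp hf).div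
      (((continuous_apply 2).tendsto v).comp hf) hv)

lemma tendsto_invFun (hi : IsOpenEmbedding i) {p : ℝ × ℝ} (hp : p ∈ range i) :
    Tendsto (Function.invFun i) (𝓝 p) (𝓝 (Function.invFun i p)) := by
  rw [hi.isInducing.tendsto_nhds_iff, Function.invFun_eq hp]
  refine tendsto_id.congr' ?_
  filter_upwards [hi.isOpen_range.mem_nhds hp] with q hq
  exact (Function.invFun_eq hq).symm

lemma reach_of_complete [CompleteSpace X] (hi : IsOpenEmbedding i) (x0 : X) (Z : Fin 3 → ℝ)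
    (hz : ∀ s ∈ Icc (0 : ℝ) 1, (1 - s) • hom (i x0) + s • Z ≠ 0)
    (D : (Fin 3 → ℝ) → (Fin 3 → ℝ) → ℝ)
    (hD : ∀ x y : X, ∀ α β : ℝ, 0 < α → 0 < β → dist x y = D (α • hom (i x)) (β • hom (i y)))
    (hc : ∀ s ∈ Icc (0 : ℝ) 1, Tendsto (fun p : ℝ × ℝ =>
      D ((1 - p.1) • hom (i x0) + p.1 • Z) ((1 - p.2) • hom (i x0) + p.2 • Z)) (𝓝 (s, s)) (𝓝 0)) :
    ∃ (x : X) (α : ℝ), 0 < α ∧ Z = α • hom (i x) := by
  set z : ℝ → Fin 3 → ℝ := fun s => (1 - s) • hom (i x0) + s • Z with hzd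
  have zc : Continuous z := by simp only [hzd]; fun_prop
  have z2 : Continuous fun s => z s 2 := (continuous_apply 2).comp zc
  set S : Set ℝ := {s | 0 < z s 2 ∧ aff (z s) ∈ range i} with hS
  have hopen : IsOpen S := isOpen_iff_mem_nhds.2 fun s hs =>
    ((z2.tendsto s).eventually (lt_mem_nhds hs.1)).and
      ((tendsto_aff (zc.tendsto s) hs.1.ne').eventually (hi.isOpen_range.mem_nhds hs.2))
  have rep : ∀ s ∈ S, z s = z s 2 • hom (i (Function.invFun i (aff (z s)))) := fun s hs => by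
    rw [Function.invFun_eq hs.2, smul_hom_aff hs.1.ne']
  have key := isPreconnected_Icc.subset_of_closure_inter_subset (s := Icc (0 : ℝ) 1) hopen
    ⟨0, ⟨le_rfl, zero_le_one⟩, by
      have : z 0 = hom (i x0) := by simp [hzd]
      simp only [hS, mem_ofPred_eq, this, aff_hom]
      exact ⟨by simp [hom], mem_range_self _⟩⟩
    (fun s hs => ?_) ⟨zero_le_one, le_rfl⟩
  · have e := rep 1 key
    have e1 : z 1 = Z := by simp [hzd]
    exact ⟨_, _, key.1, e1.symm.trans e⟩
  have : (𝓝[S] s).NeBot := mem_closure_iff_nhdsWithin_neBot.1 hs.1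
  have hcau : Cauchy ((𝓝[S] s).map fun t => Function.invFun i (aff (z t))) := by
    rw [cauchy_map_iff', tendsto_uniformity_iff_dist_tendsto_zero]
    have t1 : Tendsto (fun p : ℝ × ℝ => p) (𝓝[S] s ×ˢ 𝓝[S] s) (𝓝 (s, s)) := by
      rw [nhds_prod_eq]; exact prod_mono nhdsWithin_le_nhds nhdsWithin_le_nhds
    refine ((hc s hs.2).comp t1).congr' ?_
    filter_upwards [tendsto_fst.eventually (eventually_mem_nhdsWithin (s := S) (a := s)),
      tendsto_snd.eventually (eventually_mem_nhdsWithin (s := S) (a := s))] with p a1 a2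
    rw [hD _ _ _ _ a1.1 a2.1, ← rep _ a1, ← rep _ a2]
    rfl
  obtain ⟨x, hx⟩ := CompleteSpace.complete hcau
  have t2 : Tendsto (fun t => Function.invFun i (aff (z t))) (𝓝[S] s) (𝓝 x) := hx
  have t3 := ((z2.tendsto s).mono_left (nhdsWithin_le_nhds (s := S))).smul
    (((continuous_hom.comp hi.continuous).tendsto x).comp t2)
  have e : z s = z s 2 • hom (i x) := tendsto_nhds_unique
    ((zc.tendsto s).mono_left (nhdsWithin_le_nhds (s := S))) (t3.congr' (by
      filter_upwards [eventually_mem_nhdsWithin (s := S) (a := s)] with t ht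
      exact (rep t ht).symm))
  have nn : 0 ≤ z s 2 := ge_of_tendsto ((z2.tendsto s).mono_left (nhdsWithin_le_nhds (s := S)))
    ((eventually_mem_nhdsWithin (s := S) (a := s)).mono fun t ht => ht.1.le)
  have ne : z s 2 ≠ 0 := fun h0 => hz s hs.2 (by
    rw [h0, zero_smul] at e; exact e)
  refine ⟨lt_of_le_of_ne nn ne.symm, ?_⟩
  rw [e, aff_smul ne, aff_hom]
  exact mem_range_self _

lemma onto_of_complete [CompleteSpace X] (hi : IsOpenEmbedding i)
    (T : (Fin 3 → ℝ) ≃ₗ[ℝ] (Fin 3 → ℝ)) (c : ℝ) (δ : ℝ × ℝ → ℝ × ℝ → ℝ) {W : Set (ℝ × ℝ)}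
    (hW : Convex ℝ W) (hδ : ∀ p ∈ W, Tendsto (fun q : (ℝ × ℝ) × (ℝ × ℝ) => δ q.1 q.2)
      (𝓝 (p, p)) (𝓝 0)) (h1 : ∀ x, T (hom (i x)) 2 ≠ 0 ∧ aff (T (hom (i x))) ∈ W)
    (h2 : ∀ x y, dist x y = c * δ (aff (T (hom (i x)))) (aff (T (hom (i y))))) :
    range (fun x => aff (T (hom (i x)))) = W := by
  refine Subset.antisymm (range_subset_iff.2 fun x => (h1 x).2) fun y hy => ?_
  obtain ⟨x0⟩ := ‹Nonempty X›
  have m0 := (h1 x0).1
  set m := T (hom (i x0)) 2
  have hT : ∀ s : ℝ, T ((1 - s) • hom (i x0) + s • T.symm (m • hom y)) =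
      m • hom ((1 - s) • aff (T (hom (i x0))) + s • y) := fun s => by
    rw [map_add, map_smul, map_smul, T.apply_symm_apply]
    have e0 : T (hom (i x0)) = m • hom (aff (T (hom (i x0)))) := (smul_hom_aff m0).symm
    generalize aff (T (hom (i x0))) = p0 at e0 ⊢
    rw [e0]
    ext j; fin_cases j <;> simp [hom] <;> ring
  obtain ⟨x, α, α0, e⟩ := reach_of_complete hi x0 (T.symm (m • hom y))
    (fun s _ h0 => by
      have := hT s
      rw [h0, map_zero] at this
      exact smul_ne_zero m0 (hom_ne _) this.symm)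
    (fun v w => c * δ (aff (T v)) (aff (T w)))
    (fun x y α β hα hβ => by
      rw [map_smul, map_smul, aff_smul hα.ne', aff_smul hβ.ne', h2])
    (fun s hs => by
      simp only [hT, aff_smul m0, aff_hom]
      have cc : Continuous fun p : ℝ × ℝ => (((1 - p.1) • aff (T (hom (i x0))) + p.1 • y,
        (1 - p.2) • aff (T (hom (i x0))) + p.2 • y) : (ℝ × ℝ) × (ℝ × ℝ)) := by fun_prop
      have := ((hδ _ (hW (h1 x0).2 hy (sub_nonneg.2 hs.2) hs.1 (by ring))).comp
        (cc.tendsto (s, s))).const_mul c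
      simpa using this)
  refine ⟨x, ?_⟩
  have e2 := congrArg (fun v => aff (T v)) e
  simp only [T.apply_symm_apply, map_smul, aff_smul m0, aff_smul α0.ne', aff_hom] at e2
  exact e2.symm

lemma sph_smul {α β : ℝ} (hα : 0 < α) (hβ : 0 < β) (v w : Fin 3 → ℝ) :
    sph (α • v) (β • w) = sph v w := by
  simp only [sph, smul_dotProduct, dotProduct_smul, smul_eq_mul]
  rw [show α * (α * v ⬝ᵥ v) * (β * (β * w ⬝ᵥ w)) = (α * β) ^ 2 * (v ⬝ᵥ v * w ⬝ᵥ w) by ring,
    Real.sqrt_mul (sq_nonneg _), Real.sqrt_sq (by positivity),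
    show β * (α * v ⬝ᵥ w) = α * β * v ⬝ᵥ w by ring, mul_div_mul_left _ _ (by positivity)]

lemma tendsto_cosq {ι : Type*} {l : Filter ι} {f g : ι → Fin 3 → ℝ} {v w : Fin 3 → ℝ}
    (hf : Tendsto f l (𝓝 v)) (hg : Tendsto g l (𝓝 w)) (hv : v ≠ 0) (hw : w ≠ 0)
    {φ : ℝ → ℝ} (hφ : Continuous φ) :
    Tendsto (fun t => Real.arccos (φ (f t ⬝ᵥ g t) / √((f t ⬝ᵥ f t) * (g t ⬝ᵥ g t)))) l
      (𝓝 (Real.arccos (φ (v ⬝ᵥ w) / √((v ⬝ᵥ v) * (w ⬝ᵥ w))))) := by
  have c1 : Continuous fun q : (Fin 3 → ℝ) × (Fin 3 → ℝ) => φ (q.1 ⬝ᵥ q.2) :=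
    hφ.comp (continuous_fst.dotProduct continuous_snd)
  have c2 : Continuous fun q : (Fin 3 → ℝ) × (Fin 3 → ℝ) => √((q.1 ⬝ᵥ q.1) * (q.2 ⬝ᵥ q.2)) :=
    ((continuous_fst.dotProduct continuous_fst).mul
      (continuous_snd.dotProduct continuous_snd)).sqrt
  have hp : √((v ⬝ᵥ v) * (w ⬝ᵥ w)) ≠ 0 := by
    rw [dot_eq, dot_eq]
    exact (Real.sqrt_pos.2 (mul_pos (Bk_one_pos hv) (Bk_one_pos hw))).ne'
  exact (Real.continuous_arccos.tendsto _).comp
    (((c1.tendsto (v, w)).comp (hf.prodMk_nhds hg)).div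
      ((c2.tendsto (v, w)).comp (hf.prodMk_nhds hg)) hp)

lemma convex_disc : Convex ℝ disc := fun p hp q hq a b ha hb hab => by
  simp only [disc, mem_ofPred_eq, Prod.fst_add, Prod.snd_add, Prod.smul_fst, Prod.smul_snd,
    smul_eq_mul] at hp hq ⊢
  obtain rfl : b = 1 - a := by linarith
  have h1 : (a * p.1 + (1 - a) * q.1) ^ 2 + (a * p.2 + (1 - a) * q.2) ^ 2 ≤
      a * (p.1 ^ 2 + p.2 ^ 2) + (1 - a) * (q.1 ^ 2 + q.2 ^ 2) := by
    nlinarith [mul_nonneg (mul_nonneg ha hb) (sq_nonneg (p.1 - q.1)),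
      mul_nonneg (mul_nonneg ha hb) (sq_nonneg (p.2 - q.2))]
  rcases le_total (p.1 ^ 2 + p.2 ^ 2) (q.1 ^ 2 + q.2 ^ 2) with h | h <;> nlinarith

lemma tendsto_klein {p : ℝ × ℝ} (hp : p ∈ disc) :
    Tendsto (fun q : (ℝ × ℝ) × (ℝ × ℝ) => klein q.1 q.2) (𝓝 (p, p)) (𝓝 0) := by
  have h0 : 0 < 1 - (p.1 ^ 2 + p.2 ^ 2) := sub_pos.2 hp
  have c1 : ContinuousAt Real.arcosh 1 := by
    unfold Real.arcosh
    exact ContinuousAt.log (by fun_prop) (by simp)
  have c2 : Tendsto (fun q : (ℝ × ℝ) × (ℝ × ℝ) => (1 - (q.1.1 * q.2.1 + q.1.2 * q.2.2)) /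
      √((1 - (q.1.1 ^ 2 + q.1.2 ^ 2)) * (1 - (q.2.1 ^ 2 + q.2.2 ^ 2)))) (𝓝 (p, p)) (𝓝 1) := by
    have c3 : ContinuousAt (fun q : (ℝ × ℝ) × (ℝ × ℝ) => (1 - (q.1.1 * q.2.1 + q.1.2 * q.2.2)) /
        √((1 - (q.1.1 ^ 2 + q.1.2 ^ 2)) * (1 - (q.2.1 ^ 2 + q.2.2 ^ 2)))) (p, p) :=
      ContinuousAt.div (by fun_prop) (by fun_prop) (Real.sqrt_pos.2 (mul_pos h0 h0)).ne'
    have := c3.tendsto
    simp only at this
    rwa [Real.sqrt_mul_self h0.le, ← sq, ← sq, div_self h0.ne'] at this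
  have := c1.tendsto.comp c2
  rwa [Real.arcosh_zero] at this

theorem affine_case (hi : IsOpenEmbedding i) (hconv : Convex ℝ (range i))
    (hadd : ∀ x y z, dist x y + dist y z = dist x z ↔ i y ∈ segment ℝ (i x) (i z))
    (hell : CirclesOnConics fun x => hom (i x)) :
    ∃ (T : (Fin 3 → ℝ) ≃ₗ[ℝ] (Fin 3 → ℝ)) (c : ℝ), 0 < c ∧
      (EuclideanModel (fun x => T (hom (i x))) c ∨ KleinModel (fun x => T (hom (i x))) c ∨
        SphericalPiece (fun x => T (hom (i x))) c) := by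
  obtain ⟨ε, ε0, hε⟩ := hell
  set j := Function.invFun i with hj
  have ji : ∀ x, j (i x) = x := Function.leftInverse_invFun hi.injective
  have ij : ∀ p ∈ range i, i (j p) = p := fun p hp => Function.invFun_eq hp
  have hL : Loc (range i) (fun p q => dist (j p) (j q)) ε :=
    { isOpen := hi.isOpen_range
      convex := hconv
      symm := fun _ _ _ _ => dist_comm _ _
      pos := fun p hp q hq hne => dist_pos.2 fun h => hne (by rw [← ij p hp, h, ij q hq])
      tri := fun _ _ _ _ _ _ => dist_triangle _ _ _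
      cont := fun p hp => (((tendsto_invFun hi hp.1).comp (continuous_fst.tendsto p)).dist
        ((tendsto_invFun hi hp.2).comp (continuous_snd.tendsto p))).mono_left nhdsWithin_le_nhds
      add := fun p hp q hq y hy => (hadd _ _ _).2 (by
        rw [ij p hp, ij q hq, ij y (hconv.segment_subset hp hq hy)]; exact hy)
      eps := ε0
      conic := fun F hF a h1 h2 => by
        obtain ⟨Q, hQ, hq⟩ := hε (j F) a h1 h2
        obtain ⟨k, hk, e⟩ := conic_coeffs hQ
        refine ⟨k, hk, fun P hP h3 => ?_⟩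
        rw [← e, ← ij P hP]
        exact hq _ h3 }
  obtain ⟨T, κ, c, hκ, c0, hs'⟩ := model hi.isOpen_range hconv (range_nonempty i)
    fun P hP => ⟨_, ε, hP, hL⟩
  have hs : Spd (range i) (fun p q => dist (j p) (j q)) T κ c := hs'
  clear hs'
  refine ⟨T, c, c0, ?_⟩
  rcases hκ with rfl | rfl | rfl
  · have h2 : ∀ x y, dist x y = c * sph (T (hom (i x))) (T (hom (i y))) := fun x y => by
      have := Spd.sph hs hL (mem_range_self x) (mem_range_self y)
      rwa [ji, ji] at this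
    refine Or.inr (Or.inr ⟨h2, fun hcomp => ?_⟩)
    obtain ⟨x0⟩ := ‹Nonempty X›
    have hz : ∀ s : ℝ, (1 - s) • hom (i x0) + s • (![1, 0, 0] : Fin 3 → ℝ) ≠ 0 := fun s h0 => by
      have a0 := congrFun h0 0
      have a2 := congrFun h0 2
      simp [hom] at a0 a2
      rw [a2] at a0
      linarith
    obtain ⟨x, α, α0, e⟩ := reach_of_complete hi x0 ![1, 0, 0] (fun s _ => hz s)
      (fun v w => c * sph (T v) (T w))
      (fun x y α β hα hβ => by rw [map_smul, map_smul, sph_smul hα hβ, h2])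
      (fun s _ => by
        have cT : Continuous T := T.toLinearMap.continuous_of_finiteDimensional
        have cz : Continuous fun s : ℝ => T ((1 - s) • hom (i x0) + s • (![1, 0, 0] : Fin 3 → ℝ)) :=
          cT.comp (by fun_prop)
        have nz := T.map_ne_zero_iff.2 (hz s)
        have := (tendsto_cosq ((cz.comp continuous_fst).tendsto (s, s))
          ((cz.comp continuous_snd).tendsto (s, s)) nz nz continuous_id).const_mul c
        have e0 := sph_self nz
        simp only [sph] at e0 ⊢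
        simp only [Function.comp, id, e0, mul_zero] at this
        exact this)
    have := congrFun e 2
    simp [hom] at this
    linarith
  · have h1 : ∀ x, T (hom (i x)) 2 ≠ 0 := fun x =>
      (Spd.euc hs hL (mem_range_self x) (mem_range_self x)).1
    have h2 : ∀ x y, dist x y = c * euc (aff (T (hom (i x)))) (aff (T (hom (i y)))) :=
      fun x y => by
        have := (Spd.euc hs hL (mem_range_self x) (mem_range_self y)).2
        rwa [ji, ji] at this
    refine Or.inl ⟨h1, h2, fun hcomp => onto_of_complete hi T c euc convex_univ (fun p _ => ?_)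
      (fun x => ⟨h1 x, mem_univ _⟩) h2⟩
    have cc : Continuous fun q : (ℝ × ℝ) × (ℝ × ℝ) => euc q.1 q.2 := by unfold euc; fun_prop
    simpa [euc] using cc.tendsto (p, p)
  · have h1 : ∀ x, T (hom (i x)) 2 ≠ 0 ∧ aff (T (hom (i x))) ∈ disc := fun x =>
      (Spd.klein hs hL (mem_range_self x) (mem_range_self x)).1
    have h2 : ∀ x y, dist x y = c * klein (aff (T (hom (i x)))) (aff (T (hom (i y)))) :=
      fun x y => by
        have := (Spd.klein hs hL (mem_range_self x) (mem_range_self y)).2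
        rwa [ji, ji] at this
    exact Or.inr (Or.inl ⟨h1, h2, fun hcomp => onto_of_complete hi T c klein convex_disc
      (fun p hp => tendsto_klein hp) h1 h2⟩)

end Pool.Agent.Lib.PC37
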