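import Pool.Agent.Lib.PC37.Hom

set_option autoImplicit false

open Set Filter Topology

namespace Pool.Agent.Lib.PC37

/-- complex value of a linear form at `(1, z)` -/
noncomputable def lc (p : ℝ × ℝ) (z : ℂ) : ℂ := p.1 + p.2 * z

/-- complex value of a quadratic form at `(1, z)` -/
noncomputable def qc (S : ℝ × ℝ × ℝ) (z : ℂ) : ℂ := S.1 + 2 * S.2.1 * z + S.2.2 * z ^ 2

lemma lc_real (p : ℝ × ℝ) (x : ℝ) : lc p x = (dp p (1, x) : ℝ) := by simp [lc, dp]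

lemma qc_real (S : ℝ × ℝ × ℝ) (x : ℝ) : qc S x = (bf S (1, x) (1, x) : ℝ) := by
  simp only [qc, bf]; push_cast; ring

lemma ext_real {f g : ℂ → ℂ} (hf : Differentiable ℂ f) (hg : Differentiable ℂ g)
    (h : ∀ x : ℝ, f x = g x) (z : ℂ) : f z = g z := by
  have h1 : ∃ᶠ w in 𝓝[≠] (0 : ℂ), f w = g w := by
    have t : Tendsto (fun x : ℝ => (x : ℂ)) (𝓝[≠] 0) (𝓝[≠] 0) := by
      refine tendsto_nhdsWithin_iff.2 ⟨?_, ?_⟩
      · simpa using (Complex.continuous_ofReal.tendsto 0).mono_left nhdsWithin_le_nhds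
      · filter_upwards [self_mem_nhdsWithin] with x hx
        simpa using hx
    exact t.frequently (Eventually.of_forall h).frequently
  exact congrFun (AnalyticOnNhd.eq_of_frequently_eq (fun w _ => hf.analyticAt w)
    (fun w _ => hg.analyticAt w) h1) z

lemma diff_lc (p : ℝ × ℝ) : Differentiable ℂ (lc p) := by unfold lc; fun_prop

lemma diff_qc (S : ℝ × ℝ × ℝ) : Differentiable ℂ (qc S) := by unfold qc; fun_prop

lemma lc_zero {p : ℝ × ℝ} {μ : ℂ} (hμ : μ.im ≠ 0) (h : lc p μ = 0) : p = 0 := by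
  have h1 := congrArg Complex.im h
  have h2 := congrArg Complex.re h
  simp [lc, hμ] at h1 h2
  simp only [h1, zero_mul, add_zero] at h2
  exact Prod.ext h2 h1

lemma qc_prop {A D : ℝ × ℝ × ℝ} {μ : ℂ} (hμ : μ.im ≠ 0) (h3 : A.2.2 ≠ 0) (hA : qc A μ = 0)
    (hD : qc D μ = 0) : D = (D.2.2 / A.2.2) • A := by
  have h := lc_zero (p := (A.2.2 * D.1 - D.2.2 * A.1, 2 * (A.2.2 * D.2.1 - D.2.2 * A.2.1))) hμ (by
    simp only [lc, qc] at *
    push_cast
    linear_combination (A.2.2 : ℂ) * hD - (D.2.2 : ℂ) * hA)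
  simp only [Prod.mk_eq_zero] at h
  refine Prod.ext ?_ (Prod.ext ?_ ?_) <;>
    simp only [Prod.smul_fst, Prod.smul_snd, smul_eq_mul] <;> field_simp <;> linarith [h.1, h.2]

lemma PD.exists_root {A : ℝ × ℝ × ℝ} (h : PD A) : ∃ μ : ℂ, μ.im ≠ 0 ∧ qc A μ = 0 := by
  obtain ⟨h1, h2, h3⟩ := h.facts
  have s0 := Real.sqrt_pos.2 h3
  have s2 := Real.sq_sqrt h3.le
  refine ⟨⟨-A.2.1 / A.2.2, √(A.1 * A.2.2 - A.2.1 ^ 2) / A.2.2⟩, (div_pos s0 h2).ne', ?_⟩
  apply Complex.ext <;> simp [qc, pow_two] <;> field_simp <;> nlinarith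

/-- symmetric product of two linear forms -/
noncomputable def sp (p b : ℝ × ℝ) : ℝ × ℝ × ℝ := (p.1 * b.1, (p.1 * b.2 + p.2 * b.1) / 2, p.2 * b.2)

lemma bf_sp (p b u : ℝ × ℝ) : bf (sp p b) u u = dp p u * dp b u := by
  simp only [bf, sp, dp]; ring

lemma bf_add (S T : ℝ × ℝ × ℝ) (u v : ℝ × ℝ) : bf (S + T) u v = bf S u v + bf T u v := by
  simp only [bf, Prod.fst_add, Prod.snd_add]; ring

lemma bf_zero_of {S : ℝ × ℝ × ℝ} (h : ∀ x : ℝ, bf S (1, x) (1, x) = 0) : S = 0 := by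
  have h0 := h 0
  have h1 := h 1
  have h2 := h (-1)
  simp only [bf] at h0 h1 h2
  exact Prod.ext (by simp only [Prod.fst_zero]; linarith)
    (Prod.ext (by simp only [Prod.snd_zero, Prod.fst_zero]; linarith)
      (by simp only [Prod.snd_zero]; linarith))

lemma prop_of_sq {A G D D' : ℝ × ℝ × ℝ} {l p p' : ℝ × ℝ} {c : ℝ} (hA : PD A) (hc : 0 < c)
    (hl : l ≠ 0)
    (E1 : ∀ u, u ≠ 0 → bf D' u u ^ 2 * bf A u u * c = 4 * dp l u ^ 2 * dp p u ^ 2 * bf G u u)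
    (E2 : ∀ u, u ≠ 0 → 4 * dp p' u ^ 2 * bf G u u * bf A u u * c = dp l u ^ 2 * bf D u u ^ 2)
    (hne : ¬(p = 0 ∧ p' = 0 ∧ D = 0 ∧ D' = 0)) : ∃ k : ℝ, G = k • A := by
  obtain ⟨μ, hμ, hAμ⟩ := hA.exists_root
  have a3 := hA.facts.2.1.ne'
  have n1 : ∀ x : ℝ, ((1, x) : ℝ × ℝ) ≠ 0 := fun x => by simp
  have lμ : lc l μ ≠ 0 := fun h => hl (lc_zero hμ h)
  have c0 : (c : ℂ) ≠ 0 := by exact_mod_cast hc.ne'
  by_contra hcon
  have gμ : qc G μ ≠ 0 := fun h => hcon ⟨_, qc_prop hμ a3 hAμ h⟩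
  have dl := diff_lc
  have dq := diff_qc
  have F2 := ext_real (f := fun z => 4 * lc p' z ^ 2 * qc G z * qc A z * c)
    (g := fun z => lc l z ^ 2 * qc D z ^ 2) (by fun_prop) (by fun_prop) (fun x => by
      simp only [lc_real, qc_real]; exact_mod_cast E2 _ (n1 x)) μ
  simp only [hAμ, mul_zero, zero_mul] at F2
  have Dμ : qc D μ = 0 := by simpa [lμ] using F2.symm
  obtain ⟨k, hk⟩ : ∃ k : ℝ, D = k • A := ⟨_, qc_prop hμ a3 hAμ Dμ⟩
  have E3 : ∀ u, u ≠ 0 → 4 * dp p' u ^ 2 * bf G u u * c = dp l u ^ 2 * k ^ 2 * bf A u u :=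
    fun u hu => by
      have := E2 u hu
      rw [hk, bf_smul] at this
      apply mul_right_cancel₀ (hA u hu).ne'
      linear_combination this
  have F3 := ext_real (f := fun z => 4 * lc p' z ^ 2 * qc G z * c)
    (g := fun z => lc l z ^ 2 * k ^ 2 * qc A z) (by fun_prop) (by fun_prop) (fun x => by
      simp only [lc_real, qc_real]; exact_mod_cast E3 _ (n1 x)) μ
  have p'0 : p' = 0 := lc_zero hμ (by simpa [hAμ, gμ, c0] using F3)
  have F1 := ext_real (f := fun z => qc D' z ^ 2 * qc A z * c)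
    (g := fun z => 4 * lc l z ^ 2 * lc p z ^ 2 * qc G z) (by fun_prop) (by fun_prop) (fun x => by
      simp only [lc_real, qc_real]; exact_mod_cast E1 _ (n1 x)) μ
  have p0 : p = 0 := lc_zero hμ (by simpa [hAμ, gμ, lμ] using F1)
  have k0 : k = 0 := by
    have h1 := E3 l hl
    have h2 : 0 < dp l l := by simpa [dp, pow_two] using sq_pos_of_ne hl
    have h3 := hA l hl
    rw [p'0] at h1
    have h4 : dp l l ^ 2 * k ^ 2 * bf A l l = 0 := by rw [← h1]; simp [dp]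
    simpa [h2.ne', h3.ne'] using h4
  refine hne ⟨p0, p'0, by rw [hk, k0, zero_smul], bf_zero_of fun x => ?_⟩
  have h1 := E1 _ (n1 x)
  have h2 : bf D' (1, x) (1, x) ^ 2 * bf A (1, x) (1, x) * c = 0 := by rw [h1, p0]; simp [dp]
  simpa [(hA _ (n1 x)).ne', hc.ne'] using h2

/-- the tangents from the centre are the isotropic lines -/
lemma prop_of_rel {A S s s' : ℝ × ℝ × ℝ} {b p p' w : ℝ × ℝ} (hA : PD A) (hS : PD S) (hw : w ≠ 0)
    (hroot : ∀ u : ℝ × ℝ, u ≠ 0 → ∃ t : ℝ, 0 < t ∧ t ^ 2 * bf S u u + 2 * t * dp b u = 1)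
    (rel : ∀ u : ℝ × ℝ, u ≠ 0 → ∀ t : ℝ, 0 < t → t ^ 2 * bf S u u + 2 * t * dp b u = 1 →
      t ^ 2 * bf s' u u + 2 * t * dp p' u =
        bf A u w / √(bf A u u * bf A w w) * (t ^ 2 * bf s u u + 2 * t * dp p u))
    (hne : ¬(p = 0 ∧ p' = 0 ∧ s = 0 ∧ s' = 0)) : ∃ k : ℝ, 0 < k ∧ S + sp b b = k • A := by
  have aw := hA w hw
  have key : ∀ u : ℝ × ℝ, u ≠ 0 → ∃ α γ : ℝ, α ^ 2 = bf (S + sp b b) u u ∧
      γ ^ 2 * (bf A u u * bf A w w) = dp (av A w) u ^ 2 ∧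
      bf (s' + (2 : ℝ) • sp p' b) u u = 2 * γ * dp p u * α ∧
      2 * dp p' u * α = γ * bf (s + (2 : ℝ) • sp p b) u u := fun u hu => by
    have au := hA u hu
    have su := hS u hu
    obtain ⟨t, t0, ht⟩ := hroot u hu
    obtain ⟨t', t0', ht'⟩ := hroot (-u) (neg_ne_zero.2 hu)
    have r1 := rel u hu t t0 ht
    have r2 := rel (-u) (neg_ne_zero.2 hu) t' t0' ht'
    simp only [bf_neg_left, bf_neg_right, dp_neg_right, neg_neg, neg_div] at ht' r2
    set γ := bf A u w / √(bf A u u * bf A w w) with hγ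
    have hprod : t * t' * bf S u u = 1 := by
      apply mul_left_cancel₀ (add_pos t0 t0').ne'
      linear_combination t' * ht + t * ht'
    have hβ : 2 * dp b u = t⁻¹ - t'⁻¹ := by
      field_simp
      linear_combination t' * ht - t * hprod
    have hσ : bf S u u = t⁻¹ * t'⁻¹ := by field_simp; linarith
    have q1 : bf s' u u + 2 * t⁻¹ * dp p' u = γ * (bf s u u + 2 * t⁻¹ * dp p u) := by
      field_simp
      apply mul_left_cancel₀ t0.ne'
      linear_combination r1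
    have q2 : bf s' u u - 2 * t'⁻¹ * dp p' u = -γ * (bf s u u - 2 * t'⁻¹ * dp p u) := by
      field_simp
      apply mul_left_cancel₀ t0'.ne'
      linear_combination r2
    refine ⟨(t⁻¹ + t'⁻¹) / 2, γ, ?_, ?_, ?_, ?_⟩
    · rw [bf_add, bf_sp, hσ]
      linear_combination (-(2 * dp b u + (t⁻¹ - t'⁻¹)) / 4) * hβ
    · rw [dp_av, bf_comm A w u, hγ, div_pow, Real.sq_sqrt (by positivity)]
      field_simp
    · rw [bf_add, bf_smul, bf_sp]
      linear_combination (q1 + q2) / 2 + dp p' u * hβ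
    · rw [bf_add, bf_smul, bf_sp]
      linear_combination (q1 - q2) / 2 - γ * dp p u * hβ
  obtain ⟨k, hk⟩ := prop_of_sq (A := A) (G := S + sp b b) (D := s + (2 : ℝ) • sp p b)
    (D' := s' + (2 : ℝ) • sp p' b) (l := av A w) (p := p) (p' := p') hA aw
    (dp_ne (v := w) (by rw [dp_av]; exact aw))
    (fun u hu => by
      obtain ⟨α, γ, h1, h2, h3, -⟩ := key u hu
      rw [h3, ← h1, ← h2]; ring)
    (fun u hu => by
      obtain ⟨α, γ, h1, h2, -, h4⟩ := key u hu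
      rw [← h1, ← h2]
      linear_combination (bf A u u * bf A w w) * (2 * dp p' u * α +
        γ * bf (s + (2 : ℝ) • sp p b) u u) * h4)
    (fun ⟨h1, h2, h3, h4⟩ => by
      have z : sp 0 b = 0 := by simp [sp]
      rw [h1, z, smul_zero, add_zero] at h3
      rw [h2, z, smul_zero, add_zero] at h4
      exact hne ⟨h1, h2, h3, h4⟩)
  refine ⟨k, ?_, hk⟩
  have h1 := congrArg (fun T => bf T w w) hk
  simp only [bf_add, bf_sp, bf_smul] at h1
  have h2 : 0 < k * bf A w w := by nlinarith [hS w hw, mul_self_nonneg (dp b w)]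
  exact (pos_iff_pos_of_mul_pos h2).2 aw

end Pool.Agent.Lib.PC37
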