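import Pool.Agent.Lib.PC37.Circle

set_option autoImplicit false

open Set Filter Topology

namespace Pool.Agent.Lib.PC37

variable {U V : Set (ℝ × ℝ)} {d : ℝ × ℝ → ℝ × ℝ → ℝ} {ε ρ : ℝ}

/-- matrix times vector -/
def av (S : ℝ × ℝ × ℝ) (u : ℝ × ℝ) : ℝ × ℝ :=
  (S.1 * u.1 + S.2.1 * u.2, S.2.1 * u.1 + S.2.2 * u.2)

lemma dp_av (S : ℝ × ℝ × ℝ) (u z : ℝ × ℝ) : dp (av S u) z = bf S u z := by
  simp only [dp, av, bf]; ring

lemma continuous_bf (u z : ℝ × ℝ) : Continuous fun S : ℝ × ℝ × ℝ => bf S u z := by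
  unfold bf; fun_prop

/-- the conformal structure at `P` -/
def Conf (U : Set (ℝ × ℝ)) (d : ℝ × ℝ → ℝ × ℝ → ℝ) (V : Set (ℝ × ℝ)) (P : ℝ × ℝ)
    (A : ℝ × ℝ × ℝ) : Prop :=
  PD A ∧ A.1 + A.2.2 = 1 ∧ ∀ u : ℝ × ℝ, u ≠ 0 → ∀ z, DescD U d V P u z ↔ bf A u z < 0

lemma Conf.unique {P : ℝ × ℝ} {A A' : ℝ × ℝ × ℝ} (h : Conf U d V P A) (h' : Conf U d V P A') :
    A = A' := by
  have key : ∀ u : ℝ × ℝ, u ≠ 0 →
      (av A u).1 * (av A' u).2 - (av A u).2 * (av A' u).1 = 0 := fun u hu => by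
    obtain ⟨c, -, e⟩ := half_le (n := av A u) (n' := av A' u)
      (dp_ne (v := u) (by rw [dp_av]; exact h.1 u hu)) fun z hz => by
        rw [dp_av] at hz ⊢
        exact ((h'.2.2 u hu z).1 ((h.2.2 u hu z).2 hz)).le
    rw [e]; simp only [Prod.smul_fst, Prod.smul_snd, smul_eq_mul]; ring
  have k1 := key (1, 0) (by simp)
  have k2 := key (0, 1) (by simp)
  have k3 := key (1, 1) (by simp)
  simp only [av, mul_one, mul_zero, add_zero, zero_add] at k1 k2 k3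
  have t1 := h.2.1
  have t2 := h'.2.1
  have p1 := h.1.facts.1
  have e1 : A.1 = A'.1 := by
    linear_combination k3 - k1 - k2 - A.1 * t2 + A'.1 * t1
  have e3 : A.2.2 = A'.2.2 := by linarith
  have e2 : A.2.1 = A'.2.1 := by
    apply mul_left_cancel₀ p1.ne'
    linear_combination (-1 : ℝ) * k1 + A.2.1 * e1
  exact Prod.ext e1 (Prod.ext e2 e3)

lemma Good.conf_of_limit (h : Good U d ε V ρ) {P : ℝ × ℝ} (hP : P ∈ V) {A : ℝ × ℝ × ℝ}
    (hpsd : ∀ u, 0 ≤ bf A u u) (htr : A.1 + A.2.2 = 1)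
    (hD : ∀ u : ℝ × ℝ, u ≠ 0 → ∀ z, DescD U d V P u z → bf A u z ≤ 0) : Conf U d V P A := by
  have hpd : PD A := by
    intro w hw
    by_contra hcon
    have h0 : bf A w w = 0 := le_antisymm (not_lt.1 hcon) (hpsd w)
    have hz : ∀ z, bf A w z = 0 := fun z => by
      by_contra hne
      have hzz := hpsd z
      have hp : 0 < bf A z z + 1 := by linarith
      have h1 := hpsd (w + (-(bf A w z) / (bf A z z + 1)) • z)
      simp only [bf_add_left, bf_add_right, bf_smul_left, bf_smul_right, bf_comm A z w, h0] at h1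
      set m := bf A w z
      have e : 0 + -m / (bf A z z + 1) * m + -m / (bf A z z + 1) *
          (m + -m / (bf A z z + 1) * bf A z z) =
          -(m ^ 2 * (bf A z z + 2) / (bf A z z + 1) ^ 2) := by field_simp; ring
      rw [e] at h1
      have : 0 < m ^ 2 * (bf A z z + 2) / (bf A z z + 1) ^ 2 := by positivity
      linarith
    obtain ⟨w', hw'⟩ : ∃ w', 0 < bf A w' w' := by
      by_cases h1 : 0 < A.1
      · exact ⟨(1, 0), by simpa [bf] using h1⟩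
      · exact ⟨(0, 1), by simp only [bf]; linarith⟩
    obtain ⟨n, hn, hiff⟩ := h.descD_half hP hw
    have d0 : DescD U d V P w (-w) := (hiff _).2 (by rw [dp_neg_right]; linarith)
    have tu : Tendsto (fun s : ℝ => w + s • w') (𝓝[>] 0) (𝓝 w) := by
      have hc : Continuous fun s : ℝ => w + s • w' := by fun_prop
      have := hc.tendsto 0
      simp only [zero_smul, add_zero] at this
      exact this.mono_left nhdsWithin_le_nhds
    obtain ⟨s, ⟨s1, s2⟩, s3⟩ := (((h.descD_open hP d0 tendsto_const_nhds tu).and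
      (tu.eventually_ne hw)).and self_mem_nhdsWithin).exists
    have s0 : 0 < s := s3
    obtain ⟨n', -, hiff'⟩ := h.descD_half hP s2
    have a1 := (hiff' _).1 s1
    rw [dp_neg_right] at a1
    set θ := dp n' w / (|dp n' w'| + 1) with hθ
    have θ0 : 0 < θ := div_pos (by linarith) (by positivity)
    have a2 : dp n' (-w + θ • w') < 0 := by
      rw [dp_add_right, dp_neg_right, dp_smul_right]
      have b1 : θ * dp n' w' ≤ θ * |dp n' w'| := mul_le_mul_of_nonneg_left (le_abs_self _) θ0.le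
      have b2 : θ * (|dp n' w'| + 1) = dp n' w := by rw [hθ]; field_simp
      linarith
    have a3 := hD _ s2 _ ((hiff' _).2 a2)
    simp only [bf_add_left, bf_add_right, bf_smul_left, bf_smul_right, bf_neg_right, hz,
      bf_comm A w' w] at a3
    have : 0 < θ * (s * bf A w' w') := by positivity
    linarith
  refine ⟨hpd, htr, fun u hu z => ?_⟩
  obtain ⟨n, hn, hiff⟩ := h.descD_half hP hu
  obtain ⟨c, hc, e⟩ := half_le (n := n) (n' := av A u) (dp_ne hn) fun z hz => by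
    rw [dp_av]; exact hD u hu z ((hiff z).2 hz)
  have hc0 : 0 < c := by
    have h1 := hpd u hu
    rw [← dp_av, e, dp_smul_left] at h1
    exact (pos_iff_pos_of_mul_pos h1).2 hn
  rw [hiff, ← dp_av, e, dp_smul_left]
  constructor
  · exact fun h1 => mul_neg_of_pos_of_neg hc0 h1
  · intro h1
    by_contra hcon
    have := mul_nonneg hc (not_lt.1 hcon)
    linarith

lemma Good.ultra_conf (h : Good U d ε V ρ) {P : ℝ × ℝ} (hP : P ∈ V) {ι : Type*} {l : Filter ι}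
    {B : ι → ℝ × ℝ × ℝ} (hB : ∀ᶠ i in l, PD (B i) ∧ (B i).1 + (B i).2.2 = 1)
    (hD : ∀ u : ℝ × ℝ, u ≠ 0 → ∀ z, DescD U d V P u z → ∀ᶠ i in l, bf (B i) u z < 0)
    (𝒰 : Ultrafilter ι) (hle : (𝒰 : Filter ι) ≤ l) :
    ∃ A, Conf U d V P A ∧ Tendsto B 𝒰 (𝓝 A) := by
  obtain ⟨A, -, hlim⟩ := (isCompact_Icc (a := ((0, -1, 0) : ℝ × ℝ × ℝ))
    (b := (1, 1, 1))).ultrafilter_le_nhds' (𝒰.map B) (by
      rw [Ultrafilter.mem_map]
      refine hle (hB.mono fun i hi => ?_)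
      obtain ⟨f1, f2, f3⟩ := hi.1.facts
      have t := hi.2
      simp only [mem_Icc, Prod.le_def]
      refine ⟨⟨f1.le, ?_, f2.le⟩, by linarith, ?_, by linarith⟩ <;> nlinarith)
  have tB : Tendsto B 𝒰 (𝓝 A) := hlim
  refine ⟨A, h.conf_of_limit hP (fun u => ?_) ?_ fun u hu z hz => ?_, tB⟩
  · exact ge_of_tendsto (((continuous_bf u u).tendsto A).comp tB)
      ((hB.filter_mono hle).mono fun i hi => hi.1.nonneg u)
  · have t1 : Tendsto (fun i => (B i).1 + (B i).2.2) 𝒰 (𝓝 (A.1 + A.2.2)) :=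
      ((by fun_prop : Continuous fun S : ℝ × ℝ × ℝ => S.1 + S.2.2).tendsto A).comp tB
    exact tendsto_nhds_unique t1
      (tendsto_const_nhds.congr' ((hB.filter_mono hle).mono fun i hi => hi.2.symm))
  · exact le_of_tendsto (((continuous_bf u z).tendsto A).comp tB)
      (((hD u hu z hz).filter_mono hle).mono fun i hi => hi.le)

lemma Good.tendsto_conf (h : Good U d ε V ρ) {P : ℝ × ℝ} (hP : P ∈ V) {ι : Type*} {l : Filter ι}
    {B : ι → ℝ × ℝ × ℝ} (hB : ∀ᶠ i in l, PD (B i) ∧ (B i).1 + (B i).2.2 = 1)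
    (hD : ∀ u : ℝ × ℝ, u ≠ 0 → ∀ z, DescD U d V P u z → ∀ᶠ i in l, bf (B i) u z < 0)
    {A : ℝ × ℝ × ℝ} (hA : Conf U d V P A) : Tendsto B l (𝓝 A) := by
  rw [tendsto_iff_ultrafilter]
  intro 𝒰 hle
  obtain ⟨A', h1, h2⟩ := h.ultra_conf hP hB hD 𝒰 hle
  rwa [hA.unique h1]

/-- the filter of small circles centred near `P` -/
def cf (P : ℝ × ℝ) : Filter ((ℝ × ℝ) × ℝ) := 𝓝 P ×ˢ 𝓝[>] 0

instance (P : ℝ × ℝ) : (cf P).NeBot := by unfold cf; infer_instance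

lemma Good.ev_valid (h : Good U d ε V ρ) {P : ℝ × ℝ} (hP : P ∈ V) :
    ∀ᶠ p in cf P, p.1 ∈ V ∧ 0 < p.2 ∧ p.2 ≤ ρ := by
  have e1 : ∀ᶠ p in cf P, p.1 ∈ V := tendsto_fst.eventually (h.openV.mem_nhds hP)
  have e2 : ∀ᶠ p in cf P, 0 < p.2 := tendsto_snd.eventually self_mem_nhdsWithin
  have e3 : ∀ᶠ p in cf P, p.2 ≤ ρ := tendsto_snd.eventually
    (nhdsWithin_le_nhds (Iic_mem_nhds h.rpos))
  exact e1.and (e2.and e3)

lemma Good.normal_ev (h : Good U d ε V ρ) {P : ℝ × ℝ} (hP : P ∈ V)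
    {S : (ℝ × ℝ) × ℝ → ℝ × ℝ × ℝ} {b : (ℝ × ℝ) × ℝ → ℝ × ℝ}
    (hS : ∀ p : (ℝ × ℝ) × ℝ, p.1 ∈ V → 0 < p.2 → p.2 ≤ ρ → Circ U d p.1 p.2 (S p) (b p))
    {u z : ℝ × ℝ} (hu : u ≠ 0) (hD : DescD U d V P u z) :
    ∀ᶠ p in cf P, ∀ t : ℝ, 0 < t → t ^ 2 * bf (S p) u u + 2 * t * dp (b p) u = 1 →
      t * bf (S p) u z + dp (b p) z < 0 := by
  have hPU := h.sub hP
  have e1 := (h.descD_open hP hD tendsto_id tendsto_const_nhds).and (h.openV.mem_nhds hP)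
  obtain ⟨δ, hδ, hb⟩ := Metric.eventually_nhds_iff_ball.1 e1
  have hun : 0 < ‖u‖ := norm_pos_iff.2 hu
  set t0 := δ / (2 * ‖u‖) / 2 with ht0
  have t0pos : 0 < t0 := by positivity
  have hin : ∀ F ∈ Metric.ball P (δ / 2), ∀ t, 0 ≤ t → t ≤ t0 → F + t • u ∈ Metric.ball P δ := by
    intro F hF t h1 h2
    rw [Metric.mem_ball] at hF ⊢
    have a1 := dist_triangle (F + t • u) F P
    have a2 : dist (F + t • u) F = t * ‖u‖ := by
      rw [dist_eq_norm, add_sub_cancel_left, norm_smul, Real.norm_eq_abs, abs_of_nonneg h1]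
    have a3 : t * ‖u‖ ≤ t0 * ‖u‖ := mul_le_mul_of_nonneg_right h2 hun.le
    have a4 : t0 * ‖u‖ = δ / 4 := by rw [ht0]; field_simp; ring
    linarith
  have hP0 : P + t0 • u ∈ U :=
    h.sub (hb _ (hin P (Metric.mem_ball_self (by linarith)) t0 t0pos.le le_rfl)).2
  have hpos : 0 < d P (P + t0 • u) := by
    have := h.ray_lt (x := P) hu le_rfl t0pos hPU hP0
    rwa [zero_smul, add_zero, h.self hPU] at this
  have tF : Tendsto (fun p : (ℝ × ℝ) × ℝ => p.1) (cf P) (𝓝 P) := tendsto_fst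
  have tr : Tendsto (fun p : (ℝ × ℝ) × ℝ => p.2) (cf P) (𝓝 0) :=
    tendsto_snd.mono_right nhdsWithin_le_nhds
  have e2 := tr.eventually_lt (h.tendsto hPU hP0 tF (tF.add_const _)) hpos
  filter_upwards [h.ev_valid hP, e2, tF.eventually (Metric.ball_mem_nhds P (half_pos hδ))]
    with p hv h2 h3 t ht hq
  have hc := hS p hv.1 hv.2.1 hv.2.2
  have hq' : bf (S p) (t • u) (t • u) + 2 * dp (b p) (t • u) = 1 := by
    rw [bf_smul_left, bf_smul_right, dp_smul_right]; linear_combination hq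
  obtain ⟨m1, m2⟩ := (hc.eq _).2 hq'
  have htt : t ≤ t0 := by
    by_contra hcon
    have := h.ray_le t0pos.le (not_le.1 hcon).le (h.sub hv.1) m1
    linarith
  obtain ⟨n1, n2⟩ := hb _ (hin p.1 h3 t ht.le htt)
  have n3 := (h.descD_iff n2 hu ht (by simpa using hv.1)).1 n1
  rw [add_sub_cancel_right, hc.desc_iff hq', bf_smul_left] at n3
  exact n3

lemma Good.shape_ev (h : Good U d ε V ρ) {P : ℝ × ℝ} (hP : P ∈ V)
    {S : (ℝ × ℝ) × ℝ → ℝ × ℝ × ℝ} {b : (ℝ × ℝ) × ℝ → ℝ × ℝ}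
    (hS : ∀ p : (ℝ × ℝ) × ℝ, p.1 ∈ V → 0 < p.2 → p.2 ≤ ρ → Circ U d p.1 p.2 (S p) (b p))
    {u z : ℝ × ℝ} (hu : u ≠ 0) (hD : DescD U d V P u z) :
    ∀ᶠ p in cf P, ∃ t t' : ℝ, 0 < t ∧ 0 < t' ∧ t ^ 2 * bf (S p) u u + 2 * t * dp (b p) u = 1 ∧
      t' ^ 2 * bf (S p) u u - 2 * t' * dp (b p) u = 1 ∧
      t * bf (S p) u z + dp (b p) z < 0 ∧ t' * bf (S p) u z - dp (b p) z < 0 := by
  filter_upwards [h.ev_valid hP, h.normal_ev hP hS hu hD,
    h.normal_ev hP hS (neg_ne_zero.2 hu) (h.descD_neg hP hu hD)] with p hv h1 h2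
  have hc := hS p hv.1 hv.2.1 hv.2.2
  obtain ⟨t, ht, e⟩ := hc.root u hu
  obtain ⟨t', ht', e'⟩ := hc.root (-u) (neg_ne_zero.2 hu)
  have h3 := h2 t' ht' e'
  simp only [bf_neg_left, bf_neg_right, dp_neg_right, neg_neg] at e' h3
  exact ⟨t, t', ht, ht', e, by linarith, h1 t ht e, by linarith⟩

lemma Good.exists_fam (h : Good U d ε V ρ) :
    ∃ (S : (ℝ × ℝ) × ℝ → ℝ × ℝ × ℝ) (b : (ℝ × ℝ) × ℝ → ℝ × ℝ),
      ∀ p : (ℝ × ℝ) × ℝ, p.1 ∈ V → 0 < p.2 → p.2 ≤ ρ → Circ U d p.1 p.2 (S p) (b p) := by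
  have : ∀ p : (ℝ × ℝ) × ℝ, ∃ S b, p.1 ∈ V → 0 < p.2 → p.2 ≤ ρ → Circ U d p.1 p.2 S b :=
    fun p => by
      by_cases hc : p.1 ∈ V ∧ 0 < p.2 ∧ p.2 ≤ ρ
      · obtain ⟨S, b, h1⟩ := h.exists_circ hc.1 hc.2.1 hc.2.2
        exact ⟨S, b, fun _ _ _ => h1⟩
      · exact ⟨0, 0, fun h1 h2 h3 => absurd ⟨h1, h2, h3⟩ hc⟩
  choose S b hS using this
  exact ⟨S, b, hS⟩

lemma Good.norm_shape (h : Good U d ε V ρ) {P : ℝ × ℝ} (hP : P ∈ V)
    {S : (ℝ × ℝ) × ℝ → ℝ × ℝ × ℝ} {b : (ℝ × ℝ) × ℝ → ℝ × ℝ}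
    (hS : ∀ p : (ℝ × ℝ) × ℝ, p.1 ∈ V → 0 < p.2 → p.2 ≤ ρ → Circ U d p.1 p.2 (S p) (b p)) :
    (∀ᶠ p in cf P, PD (((S p).1 + (S p).2.2)⁻¹ • S p) ∧
      (((S p).1 + (S p).2.2)⁻¹ • S p).1 + (((S p).1 + (S p).2.2)⁻¹ • S p).2.2 = 1) ∧
    ∀ u : ℝ × ℝ, u ≠ 0 → ∀ z, DescD U d V P u z →
      ∀ᶠ p in cf P, bf (((S p).1 + (S p).2.2)⁻¹ • S p) u z < 0 := by
  have htr : ∀ᶠ p in cf P, PD (S p) ∧ 0 < (S p).1 + (S p).2.2 := by
    filter_upwards [h.ev_valid hP] with p hv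
    have hc := (hS p hv.1 hv.2.1 hv.2.2).pd
    exact ⟨hc, by linarith [hc.facts.1, hc.facts.2.1]⟩
  constructor
  · filter_upwards [htr] with p hp
    refine ⟨fun u hu => ?_, ?_⟩
    · rw [bf_smul]; exact mul_pos (inv_pos.2 hp.2) (hp.1 u hu)
    · have := hp.2.ne'
      simp only [Prod.smul_fst, Prod.smul_snd, smul_eq_mul]; field_simp
  · intro u hu z hD
    filter_upwards [htr, h.shape_ev hP hS hu hD] with p hp ⟨t, t', ht, ht', _, _, h1, h2⟩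
    rw [bf_smul]
    refine mul_neg_of_pos_of_neg (inv_pos.2 hp.2) ?_
    by_contra hcon
    have := mul_nonneg (add_pos ht ht').le (not_lt.1 hcon)
    linarith

lemma Good.exists_conf (h : Good U d ε V ρ) {P : ℝ × ℝ} (hP : P ∈ V) : ∃ A, Conf U d V P A := by
  obtain ⟨S, b, hS⟩ := h.exists_fam
  obtain ⟨h1, h2⟩ := h.norm_shape hP hS
  obtain ⟨A, hA, -⟩ := h.ultra_conf hP h1 h2 (Ultrafilter.of (cf P)) (Ultrafilter.of_le _)
  exact ⟨A, hA⟩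

lemma Good.conf_cont (h : Good U d ε V ρ) {A : ℝ × ℝ → ℝ × ℝ × ℝ}
    (hA : ∀ P ∈ V, Conf U d V P (A P)) {P : ℝ × ℝ} (hP : P ∈ V) : ContinuousAt A P := by
  have e1 : ∀ᶠ X in 𝓝 P, X ∈ V := h.openV.mem_nhds hP
  refine h.tendsto_conf hP (e1.mono fun X hX => ⟨(hA X hX).1, (hA X hX).2.1⟩)
    (fun u hu z hD => ?_) (hA P hP)
  filter_upwards [e1, h.descD_open hP hD tendsto_id tendsto_const_nhds] with X h1 h2
  exact ((hA X h1).2.2 u hu z).1 h2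

end Pool.Agent.Lib.PC37
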