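import Pool.Agent.Lib.MP_deb346_gt.Defs

set_option autoImplicit false

namespace Pool.Agent.Lib.PC37

/-- For a metric space whose points have homogeneous coordinates `h`: every ellipse with distinct
foci `F`, `G` and radius `a` such that `a + d(F,G)/2` lies in `s` is exactly the set of points
lying on some nondegenerate conic. -/
def EllipsesAreQuadrics {X : Type} [MetricSpace X] (h : X → Fin 3 → ℝ) (s : Set ℝ) : Prop :=
  ∀ F G : X, F ≠ G → ∀ a : ℝ, dist F G / 2 < a → a + dist F G / 2 ∈ s →
    ∃ Q : QuadraticForm ℝ (Fin 3 → ℝ), Q.Nondegenerate ∧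
      {x : X | dist F x + dist x G = 2 * a} = {x : X | Q (h x) = 0}

end Pool.Agent.Lib.PC37
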