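import Pool.Agent.Lib.MP_deb346_gt.Elliptic
import Pool.Agent.Lib.PC37.Defs2

set_option autoImplicit false

open Set Filter Topology
open scoped LinearAlgebra.Projectivization

namespace Pool.Agent.Lib.PC37E

open Pool.Agent.Lib.MP_deb346_gt
open Pool.Agent.Lib.PC37 (EllipsesAreQuadrics)

lemma exists_Q (T : (Fin 3 → ℝ) ≃ₗ[ℝ] (Fin 3 → ℝ)) (B : (Fin 3 → ℝ) → (Fin 3 → ℝ) → ℝ)
    (h1 : ∀ x y z, B (x + y) z = B x z + B y z) (h2 : ∀ (c : ℝ) x z, B (c • x) z = c * B x z)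
    (h3 : ∀ x y, B x y = B y x) (nd : ∀ x, (∀ y, B x y = 0) → x = 0) :
    ∃ Q : QuadraticForm ℝ (Fin 3 → ℝ), Q.Nondegenerate ∧ ∀ x, Q x = B (T x) (T x) := by
  refine ⟨LinearMap.BilinMap.toQuadraticMap (LinearMap.mk₂ ℝ (fun x y => B (T x) (T y))
    (fun x y z => by rw [map_add, h1]) (fun c x z => by rw [map_smul, h2, smul_eq_mul])
    (fun x y z => by rw [map_add, h3, h1, h3 (T y), h3 (T z)])
    (fun c x z => by rw [map_smul, h3, h2, h3 (T z), smul_eq_mul])), ?_, fun x => rfl⟩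
  rw [QuadraticMap.nondegenerate_iff_radical_eq_bot, eq_bot_iff]
  intro x hx
  obtain ⟨a1, a2⟩ := QuadraticMap.mem_radical_iff'.1 hx
  rw [Submodule.mem_bot, ← T.map_eq_zero_iff]
  refine nd _ fun y => ?_
  have a3 := a2 (T.symm y)
  change B (T x) (T x) = 0 at a1
  change B (T (x + T.symm y)) (T (x + T.symm y)) = B (T (T.symm y)) (T (T.symm y)) at a3
  rw [map_add, T.apply_symm_apply, h1, h3 (T x), h3 y, h1, h1, h3 y (T x)] at a3
  linarith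

lemma ne_zero_of_nd {Q : QuadraticForm ℝ (Fin 3 → ℝ)} (h : Q.Nondegenerate) : Q ≠ 0 := by
  rintro rfl
  have : (![1, 0, 0] : Fin 3 → ℝ) ∈ (0 : QuadraticForm ℝ (Fin 3 → ℝ)).radical :=
    QuadraticMap.mem_radical_iff'.2 (by simp)
  rw [h.radical_eq_bot, Submodule.mem_bot] at this
  simpa using congrFun this 0

lemma curved_Q (T : (Fin 3 → ℝ) ≃ₗ[ℝ] (Fin 3 → ℝ)) {κ C : ℝ} (hκ : κ ≠ 0) {p q : Fin 3 → ℝ}
    (hp : Bk κ p p = 1) (hq : Bk κ q q = 1) (h1 : C ≠ 1) (h2 : C ≠ -1) (h3 : Bk κ p q ≠ C) :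
    ∃ Q : QuadraticForm ℝ (Fin 3 → ℝ), Q.Nondegenerate ∧ ∀ x, Q x =
      Bk κ p (T x) ^ 2 + Bk κ q (T x) ^ 2 - 2 * C * Bk κ p (T x) * Bk κ q (T x) -
        (1 - C ^ 2) * Bk κ (T x) (T x) := by
  obtain ⟨Q, hQ, e⟩ := exists_Q T (fun x y => Bk κ p x * Bk κ p y + Bk κ q x * Bk κ q y -
      C * (Bk κ p x * Bk κ q y + Bk κ q x * Bk κ p y) - (1 - C ^ 2) * Bk κ x y)
    (fun x y z => by simp only [Bk, Pi.add_apply]; ring)
    (fun c x z => by simp only [Bk, Pi.smul_apply, smul_eq_mul]; ring)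
    (fun x y => by simp only [Bk]; ring) fun x hx => by
      have a1 := hx p
      have a2 := hx q
      have s : ∀ x y, Bk κ x y = Bk κ y x := fun x y => by simp only [Bk]; ring
      rw [hp, s q p, s x p] at a1
      rw [hq, s x q] at a2
      have b1 : (Bk κ p x + Bk κ q x) * ((1 - C) * (Bk κ p q - C)) = 0 := by
        linear_combination a1 + a2
      have b2 : (Bk κ p x - Bk κ q x) * ((1 + C) * (Bk κ p q - C)) = 0 := by
        linear_combination a2 - a1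
      have n1 : 1 - C ≠ 0 := sub_ne_zero.2 h1.symm
      have n2 : 1 + C ≠ 0 := fun h => h2 (by linarith)
      have c1 := (mul_eq_zero.1 b1).resolve_right (mul_ne_zero n1 (sub_ne_zero.2 h3))
      have c2 := (mul_eq_zero.1 b2).resolve_right (mul_ne_zero n2 (sub_ne_zero.2 h3))
      have u0 : Bk κ p x = 0 := by linarith
      have v0 : Bk κ q x = 0 := by linarith
      have z : ∀ y, Bk κ x y = 0 := fun y => by
        apply mul_left_cancel₀ (mul_ne_zero n1 n2)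
        have := hx y
        rw [u0, v0] at this
        linear_combination -this
      have z0 := z ![1, 0, 0]
      have z1 := z ![0, 1, 0]
      have z2 := z ![0, 0, 1]
      simp [Bk, hκ] at z0 z1 z2
      ext i; fin_cases i <;> simpa
  exact ⟨Q, hQ, fun x => by rw [e]; ring⟩

/-- normalised vector -/
noncomputable def un (κ : ℝ) (p : Fin 3 → ℝ) : Fin 3 → ℝ := (√(Bk κ p p))⁻¹ • p

lemma Bk_un_left (κ : ℝ) (p x : Fin 3 → ℝ) : Bk κ (un κ p) x = Bk κ p x / √(Bk κ p p) := by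
  simp only [un, Bk, Pi.smul_apply, smul_eq_mul]; ring

lemma Bk_un (κ : ℝ) {p : Fin 3 → ℝ} (hp : 0 < Bk κ p p) (q : Fin 3 → ℝ) :
    Bk κ (un κ p) (un κ q) = Bk κ p q / √(Bk κ p p * Bk κ q q) := by
  rw [Real.sqrt_mul hp.le]
  simp only [un, Bk, Pi.smul_apply, smul_eq_mul]; ring

lemma Bk_un_self {κ : ℝ} {p : Fin 3 → ℝ} (hp : 0 < Bk κ p p) : Bk κ (un κ p) (un κ p) = 1 := by
  rw [Bk_un κ hp, Real.sqrt_mul_self hp.le, div_self hp.ne']

lemma Bk_scale {κ : ℝ} {x : Fin 3 → ℝ} (hx : 0 < Bk κ x x) (p : Fin 3 → ℝ) :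
    Bk κ p x = √(Bk κ x x) * Bk κ p (un κ x) := by
  have := (Real.sqrt_pos.2 hx).ne'
  rw [un]
  generalize √(Bk κ x x) = r at this
  simp only [Bk, Pi.smul_apply, smul_eq_mul]
  field_simp

lemma curved_Q' (T : (Fin 3 → ℝ) ≃ₗ[ℝ] (Fin 3 → ℝ)) {κ C : ℝ} (hκ : κ ≠ 0) {p q : Fin 3 → ℝ}
    (hp : Bk κ p p = 1) (hq : Bk κ q q = 1) (h1 : C ≠ 1) (h2 : C ≠ -1) (h3 : Bk κ p q ≠ C) :
    ∃ Q : QuadraticForm ℝ (Fin 3 → ℝ), Q.Nondegenerate ∧ ∀ x, 0 < Bk κ (T x) (T x) → (Q x = 0 ↔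
      Bk κ p (un κ (T x)) ^ 2 + Bk κ q (un κ (T x)) ^ 2 -
        2 * C * Bk κ p (un κ (T x)) * Bk κ q (un κ (T x)) - (1 - C ^ 2) = 0) := by
  obtain ⟨Q, hQ, e⟩ := curved_Q T hκ hp hq h1 h2 h3
  refine ⟨Q, hQ, fun x hx => ?_⟩
  rw [e, Bk_scale hx p, Bk_scale hx q, ← mul_eq_zero_iff_left hx.ne' (b := _ - (1 - C ^ 2))]
  have := Real.sq_sqrt hx.le
  constructor <;> intro h <;> rw [← h] <;>
    [linear_combination (-(Bk κ p (un κ (T x)) ^ 2 + Bk κ q (un κ (T x)) ^ 2 -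
        2 * C * Bk κ p (un κ (T x)) * Bk κ q (un κ (T x)))) * this;
      linear_combination (Bk κ p (un κ (T x)) ^ 2 + Bk κ q (un κ (T x)) ^ 2 -
        2 * C * Bk κ p (un κ (T x)) * Bk κ q (un κ (T x))) * this]

lemma cos_fac (α β C : ℝ) : Real.cos α ^ 2 + Real.cos β ^ 2 - 2 * C * Real.cos α * Real.cos β -
    (1 - C ^ 2) = (Real.cos (α + β) - C) * (Real.cos (α - β) - C) := by
  rw [Real.cos_add, Real.cos_sub]
  linear_combination (Real.sin β ^ 2) * Real.sin_sq_add_cos_sq α +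
    (1 - Real.cos α ^ 2) * Real.sin_sq_add_cos_sq β

lemma cosh_fac (α β C : ℝ) : Real.cosh α ^ 2 + Real.cosh β ^ 2 -
    2 * C * Real.cosh α * Real.cosh β - (1 - C ^ 2) =
      (Real.cosh (α + β) - C) * (Real.cosh (α - β) - C) := by
  rw [Real.cosh_add, Real.cosh_sub]
  linear_combination (-Real.sinh β ^ 2) * Real.cosh_sq α +
    (1 - Real.cosh α ^ 2) * Real.cosh_sq β

variable {X : Type} [MetricSpace X]

lemma abs_diff_lt {F G x : X} {a : ℝ} (ha : dist F G / 2 < a) :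
    |dist F x - dist x G| < 2 * a := by
  have := abs_dist_sub_le F G x
  rw [dist_comm G x] at this
  linarith

/-- the ellipse is the trace of a nondegenerate conic -/
def Ex (h : X → Fin 3 → ℝ) (F G : X) (a : ℝ) : Prop :=
  ∃ Q : QuadraticForm ℝ (Fin 3 → ℝ), Q.Nondegenerate ∧
    ∀ x : X, dist F x + dist x G = 2 * a ↔ Q (h x) = 0

lemma euclid_ex {h : X → Fin 3 → ℝ} {T : (Fin 3 → ℝ) ≃ₗ[ℝ] (Fin 3 → ℝ)} {c : ℝ} (hc : 0 < c)
    (hm : EuclideanModel (fun x => T (h x)) c) (F G : X) {a : ℝ} (ha : dist F G / 2 < a) :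
    Ex h F G a := by
  obtain ⟨h2, hd, -⟩ := hm
  have sq : ∀ x y, dist x y ^ 2 = c ^ 2 * (((aff (T (h x))).1 - (aff (T (h y))).1) ^ 2 +
      ((aff (T (h x))).2 - (aff (T (h y))).2) ^ 2) := fun x y => by
    rw [hd, mul_pow, euc, Real.sq_sqrt (by positivity)]
  set p := aff (T (h F)) with hp
  set q := aff (T (h G)) with hq
  have a0 : 0 < a := lt_of_le_of_lt (by positivity) ha
  have fg : dist F G ^ 2 < (2 * a) ^ 2 := by
    have := dist_nonneg (x := F) (y := G)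
    gcongr; linarith
  rw [sq] at fg
  set m : (Fin 3 → ℝ) → ℝ := fun x => 4 * a ^ 2 * x 2 + c ^ 2 * (-2 * ((p.1 - q.1) * x 0 +
    (p.2 - q.2) * x 1) + (p.1 ^ 2 + p.2 ^ 2 - q.1 ^ 2 - q.2 ^ 2) * x 2) with hmd
  obtain ⟨Q, hQ, e⟩ := exists_Q T (fun x y => 16 * a ^ 2 * c ^ 2 *
      ((x 0 - p.1 * x 2) * (y 0 - p.1 * y 2) + (x 1 - p.2 * x 2) * (y 1 - p.2 * y 2)) - m x * m y)
    (fun x y z => by simp only [hmd, Pi.add_apply]; ring)
    (fun c x z => by simp only [hmd, Pi.smul_apply, smul_eq_mul]; ring)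
    (fun x y => by ring) fun x hx => by
      have mp : m ![p.1, p.2, 1] = (2 * a) ^ 2 - c ^ 2 * ((p.1 - q.1) ^ 2 + (p.2 - q.2) ^ 2) := by
        simp [hmd]; ring
      have mp0 : 0 < m ![p.1, p.2, 1] := by rw [mp]; linarith
      have b1 := hx ![p.1, p.2, 1]
      have m0 : m x = 0 := by
        apply mul_right_cancel₀ mp0.ne'
        simp only [Matrix.cons_val_zero, Matrix.cons_val_one, Matrix.cons_val] at b1
        linear_combination -b1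
      have b2 := hx ![1, 0, 0]
      have b3 := hx ![0, 1, 0]
      simp [m0, a0.ne', hc.ne'] at b2 b3
      have x0 : x 0 = p.1 * x 2 := by linarith
      have x1 : x 1 = p.2 * x 2 := by linarith
      have x2 : x 2 = 0 := by
        apply mul_right_cancel₀ mp0.ne'
        rw [mp, zero_mul, ← m0]
        simp only [hmd, x0, x1]; ring
      ext i; fin_cases i <;> simp [x0, x1, x2]
  refine ⟨Q, hQ, fun x => ?_⟩
  have d1 := sq F x
  have d2 := sq x G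
  have n2 : T (h x) 2 ≠ 0 := h2 x
  have t := abs_lt.1 (abs_diff_lt (x := x) ha)
  have val : Q (h x) = T (h x) 2 ^ 2 * ((dist x G - dist F x + 2 * a) * (dist F x + 2 * a - dist x G) *
      (dist F x + 2 * a + dist x G)) * (dist F x + dist x G - 2 * a) := by
    have x0 : T (h x) 0 = (aff (T (h x))).1 * T (h x) 2 := by simp only [aff]; field_simp
    have x1 : T (h x) 1 = (aff (T (h x))).2 * T (h x) 2 := by simp only [aff]; field_simp
    have mx : m (T (h x)) = T (h x) 2 * (4 * a ^ 2 + dist F x ^ 2 - dist x G ^ 2) := by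
      rw [d1, d2]
      simp only [hmd]
      rw [x0, x1]; ring
    rw [e, mx, x0, x1]
    linear_combination (-16 * a ^ 2 * T (h x) 2 ^ 2) * d1
  have pos : 0 < T (h x) 2 ^ 2 * ((dist x G - dist F x + 2 * a) * (dist F x + 2 * a - dist x G) *
      (dist F x + 2 * a + dist x G)) :=
    mul_pos (by positivity) (mul_pos (mul_pos (by linarith) (by linarith)) (by positivity))
  rw [val, mul_eq_zero_iff_left pos.ne', sub_eq_zero]

lemma klein_cosh {v : Fin 3 → ℝ} (hv : v 2 ≠ 0) (hv' : aff v ∈ disc) : 0 < Bk (-1) v v ∧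
      ∃ σ : ℝ, σ ^ 2 = 1 ∧ (0 < v 2 → σ = 1) ∧ ∀ p ∈ disc,
        Bk (-1) (un (-1) (hom p)) (un (-1) v) = σ * Real.cosh (klein p (aff v)) := by
  have B : ∀ p q : ℝ × ℝ, Bk (-1) (hom p) (hom q) = 1 - (p.1 * q.1 + p.2 * q.2) := fun p q => by
    simp [Bk, hom]; ring
  have pos : ∀ p ∈ disc, 0 < 1 - (p.1 ^ 2 + p.2 ^ 2) := fun p hp => sub_pos.2 hp
  have ge : ∀ p ∈ disc, ∀ q ∈ disc, 1 ≤ (1 - (p.1 * q.1 + p.2 * q.2)) /
      √((1 - (p.1 ^ 2 + p.2 ^ 2)) * (1 - (q.1 ^ 2 + q.2 ^ 2))) := fun p hp q hq => by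
    have a := pos p hp
    have b := pos q hq
    rw [one_le_div (Real.sqrt_pos.2 (mul_pos a b))]
    refine Real.sqrt_le_iff.2 ⟨by nlinarith [sq_nonneg (p.1 - q.1), sq_nonneg (p.2 - q.2)], ?_⟩
    have c1 : (p.1 * q.2 - p.2 * q.1) ^ 2 ≤ (p.1 - q.1) ^ 2 + (p.2 - q.2) ^ 2 := by
      have c2 : (p.1 * q.2 - p.2 * q.1) ^ 2 ≤
          (p.1 ^ 2 + p.2 ^ 2) * ((p.1 - q.1) ^ 2 + (p.2 - q.2) ^ 2) := by
        nlinarith [sq_nonneg (p.1 * (p.1 - q.1) + p.2 * (p.2 - q.2))]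
      nlinarith [mul_nonneg a.le (add_nonneg (sq_nonneg (p.1 - q.1)) (sq_nonneg (p.2 - q.2)))]
    nlinarith
  have e := smul_hom_aff hv
  have b0 := pos _ hv'
  have vv : Bk (-1) v v = v 2 ^ 2 * (1 - ((aff v).1 ^ 2 + (aff v).2 ^ 2)) := by
    simp only [Bk, aff]; field_simp; ring
  have v0 : 0 < Bk (-1) v v := by rw [vv]; positivity
  have av : 0 < |v 2| := abs_pos.2 hv
  refine ⟨v0, v 2 / |v 2|, by rw [div_pow, sq_abs]; field_simp,
    fun h => by rw [abs_of_pos h, div_self hv], fun p hp => ?_⟩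
  have a0 := pos p hp
  have pp : Bk (-1) (hom p) (hom p) = 1 - (p.1 ^ 2 + p.2 ^ 2) := by rw [B]; ring
  have pv : Bk (-1) (hom p) v = v 2 * (1 - (p.1 * (aff v).1 + p.2 * (aff v).2)) := by
    simp [Bk, aff, hom]; field_simp; ring
  rw [klein, Real.cosh_arcosh (ge p hp _ hv'), Bk_un _ (pp ▸ a0), pp, pv, vv, mul_left_comm,
    Real.sqrt_mul (sq_nonneg _), Real.sqrt_sq_eq_abs]
  field_simp

lemma klein_ex {h : X → Fin 3 → ℝ} {T : (Fin 3 → ℝ) ≃ₗ[ℝ] (Fin 3 → ℝ)} {c : ℝ} (hc : 0 < c)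
    (hm : KleinModel (fun x => T (h x)) c) (F G : X) {a : ℝ} (ha : dist F G / 2 < a) :
    Ex h F G a := by
  obtain ⟨h2, hd, -⟩ := hm
  have a0 : 0 < a := lt_of_le_of_lt (by positivity) ha
  have kd : ∀ x y, klein (aff (T (h x))) (aff (T (h y))) = dist x y / c := fun x y => by
    rw [hd]; field_simp
  have pF := (h2 F).2
  have pG := (h2 G).2
  have h1 : ∀ p : ℝ × ℝ, hom p 2 = 1 := fun p => by simp [hom]
  have hh : ∀ p ∈ disc, 0 < Bk (-1) (hom p) (hom p) := fun p hp =>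
    (klein_cosh (v := hom p) (by simp [h1]) (by rwa [aff_hom])).1
  have lt : ∀ t : ℝ, |t| < 2 * a → Real.cosh (t / c) < Real.cosh (2 * a / c) := fun t ht => by
    rw [Real.cosh_lt_cosh, abs_div, abs_div, abs_of_pos hc, abs_of_pos (by linarith : 0 < 2 * a)]
    gcongr
  have C1 := lt 0 (by simpa using a0)
  rw [zero_div, Real.cosh_zero] at C1
  obtain ⟨Q, hQ, e⟩ := curved_Q' T (κ := -1) (C := Real.cosh (2 * a / c)) (by norm_num)
    (Bk_un_self (hh _ pF)) (Bk_un_self (hh _ pG)) C1.ne' (by linarith) (by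
      obtain ⟨-, σ, -, s1, s2⟩ := klein_cosh (v := hom (aff (T (h G)))) (by simp [h1])
        (by rwa [aff_hom])
      rw [s2 _ pF, s1 (by simp [h1]), one_mul, aff_hom, kd]
      exact (lt _ (by rw [abs_of_nonneg dist_nonneg]; linarith)).ne)
  refine ⟨Q, hQ, fun x => ?_⟩
  obtain ⟨v0, σ, s0, -, s2⟩ := klein_cosh (h2 x).1 (h2 x).2
  rw [e _ v0, s2 _ pF, s2 _ pG, kd, kd, dist_comm G x]
  have fac := cosh_fac (dist F x / c) (dist x G / c) (Real.cosh (2 * a / c))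
  rw [← sub_div, ← add_div] at fac
  rw [show (σ * Real.cosh (dist F x / c)) ^ 2 + (σ * Real.cosh (dist x G / c)) ^ 2 -
      2 * Real.cosh (2 * a / c) * (σ * Real.cosh (dist F x / c)) * (σ * Real.cosh (dist x G / c)) -
      (1 - Real.cosh (2 * a / c) ^ 2) =
      (Real.cosh ((dist F x + dist x G) / c) - Real.cosh (2 * a / c)) *
        (Real.cosh ((dist F x - dist x G) / c) - Real.cosh (2 * a / c)) by
    linear_combination fac + (Real.cosh (dist F x / c) ^ 2 + Real.cosh (dist x G / c) ^ 2 -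
      2 * Real.cosh (2 * a / c) * Real.cosh (dist F x / c) * Real.cosh (dist x G / c)) * s0,
    mul_eq_zero_iff_right (sub_neg.2 (lt _ (abs_diff_lt ha))).ne, sub_eq_zero,
    Real.cosh_injOn.eq_iff (mem_Ici.2 (by positivity)) (mem_Ici.2 (by positivity)),
    div_left_inj' hc.ne']

lemma gram (p q x : Fin 3 → ℝ) (hp : Bk 1 p p = 1) (hq : Bk 1 q q = 1) (hx : Bk 1 x x = 1) :
    0 ≤ 1 + 2 * Bk 1 p q * Bk 1 p x * Bk 1 q x - Bk 1 p q ^ 2 - Bk 1 p x ^ 2 - Bk 1 q x ^ 2 := by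
  have : Bk 1 p p * Bk 1 q q * Bk 1 x x + 2 * Bk 1 p q * Bk 1 p x * Bk 1 q x -
      Bk 1 p q ^ 2 * Bk 1 x x - Bk 1 p x ^ 2 * Bk 1 q q - Bk 1 q x ^ 2 * Bk 1 p p =
      (p 0 * (q 1 * x 2 - q 2 * x 1) - p 1 * (q 0 * x 2 - q 2 * x 0) +
        p 2 * (q 0 * x 1 - q 1 * x 0)) ^ 2 := by simp only [Bk]; ring
  rw [hp, hq, hx] at this
  nlinarith [sq_nonneg (p 0 * (q 1 * x 2 - q 2 * x 1) - p 1 * (q 0 * x 2 - q 2 * x 0) +
    p 2 * (q 0 * x 1 - q 1 * x 0))]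

lemma abs_Bk_le {p q : Fin 3 → ℝ} (hp : p ≠ 0) (hq : q ≠ 0) : |Bk 1 (un 1 p) (un 1 q)| ≤ 1 := by
  have h := lagrange 1 (un 1 p) (un 1 q)
  rw [Bk_un_self (Bk_one_pos hp), Bk_un_self (Bk_one_pos hq)] at h
  have : 0 ≤ Wk 1 (un 1 p) (un 1 q) := by unfold Wk; positivity
  rw [← sq_le_one_iff_abs_le_one]
  linarith

lemma cos_sph {p q : Fin 3 → ℝ} (hp : p ≠ 0) (hq : q ≠ 0) :
    Real.cos (sph p q) = Bk 1 (un 1 p) (un 1 q) := by
  have := abs_le.1 (abs_Bk_le hp hq)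
  rw [sph, dot_eq, dot_eq, dot_eq, ← Bk_un _ (Bk_one_pos hp), Real.cos_arccos this.1 this.2]

lemma cos_ell {p q : Fin 3 → ℝ} (hp : p ≠ 0) (hq : q ≠ 0) :
    Real.cos (ell p q) = |Bk 1 (un 1 p) (un 1 q)| := by
  have := abs_Bk_le hp hq
  have e : |Bk 1 p q| / √(Bk 1 p p * Bk 1 q q) = |Bk 1 (un 1 p) (un 1 q)| := by
    rw [Bk_un _ (Bk_one_pos hp), abs_div, abs_of_nonneg (Real.sqrt_nonneg _)]
  rw [ell, dot_eq, dot_eq, dot_eq, e,
    Real.cos_arccos (le_trans (by norm_num) (abs_nonneg _)) this]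

lemma cos_gt {c a t : ℝ} (hc : 0 < c) (ha : a ≤ c * Real.pi / 4) (ht : |t| < 2 * a) :
    Real.cos (2 * a / c) < Real.cos (t / c) ∧ 0 ≤ Real.cos (2 * a / c) := by
  have h1 : 2 * a / c ≤ Real.pi / 2 := by rw [div_le_iff₀ hc]; linarith
  have h0 : 0 < 2 * a := (abs_nonneg t).trans_lt ht
  have h2 : 0 < 2 * a / c := by positivity
  refine ⟨?_, Real.cos_nonneg_of_mem_Icc ⟨by linarith, h1⟩⟩
  rw [← Real.cos_abs (t / c), abs_div, abs_of_pos hc]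
  exact Real.cos_lt_cos_of_nonneg_of_le_pi_div_two (by positivity) h1 (by gcongr)

lemma sph_on {h : X → Fin 3 → ℝ} (h0 : ∀ x, h x ≠ 0) {T : (Fin 3 → ℝ) ≃ₗ[ℝ] (Fin 3 → ℝ)} {c : ℝ}
    (hc : 0 < c) (hd : ∀ x y, dist x y = c * sph (T (h x)) (T (h y))) (F G : X) {a : ℝ}
    (ha : dist F G / 2 < a) (ha2 : a ≤ c * Real.pi / 4) :
    ∃ Q : QuadraticForm ℝ (Fin 3 → ℝ), Q ≠ 0 ∧ ∀ x, dist F x + dist x G = 2 * a → Q (h x) = 0 := by
  have nz : ∀ x, T (h x) ≠ 0 := fun x => T.map_ne_zero_iff.2 (h0 x)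
  have a0 : 0 < a := lt_of_le_of_lt (by positivity) ha
  have kd : ∀ x y, Bk 1 (un 1 (T (h x))) (un 1 (T (h y))) = Real.cos (dist x y / c) :=
    fun x y => by rw [hd, mul_div_cancel_left₀ _ hc.ne', cos_sph (nz x) (nz y)]
  obtain ⟨C1, C0⟩ := cos_gt hc ha2 (t := 0) (by simpa using a0)
  rw [zero_div, Real.cos_zero] at C1
  obtain ⟨Q, hQ, e⟩ := curved_Q' T (κ := 1) (C := Real.cos (2 * a / c)) one_ne_zero
    (Bk_un_self (Bk_one_pos (nz F))) (Bk_un_self (Bk_one_pos (nz G))) C1.ne (by linarith) (by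
      rw [kd]
      exact (cos_gt hc ha2 (by rw [abs_of_nonneg dist_nonneg]; linarith)).1.ne')
  refine ⟨Q, ne_zero_of_nd hQ, fun x hx => ?_⟩
  rw [e _ (Bk_one_pos (nz x)), kd, kd, dist_comm G x, cos_fac, ← add_div, hx, sub_self, zero_mul]

lemma cos_gt' {c a t : ℝ} (hc : 0 < c) (ha : a ≤ c * Real.pi) (ht : |t| < a) :
    Real.cos (a / c) < Real.cos (t / c) := by
  rw [← Real.cos_abs (t / c), abs_div, abs_of_pos hc]
  exact Real.cos_lt_cos_of_nonneg_of_le_pi (by positivity) (by rw [div_le_iff₀ hc]; linarith)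
    (by gcongr)

lemma ell_ex {h : X → Fin 3 → ℝ} (h0 : ∀ x, h x ≠ 0) {T : (Fin 3 → ℝ) ≃ₗ[ℝ] (Fin 3 → ℝ)} {c : ℝ}
    (hc : 0 < c) (hd : ∀ x y, dist x y = c * ell (T (h x)) (T (h y))) (F G : X) {a : ℝ}
    (ha : dist F G / 2 < a) (ha2 : a + dist F G / 2 < c * Real.pi / 2) : Ex h F G a := by
  have nz : ∀ x, T (h x) ≠ 0 := fun x => T.map_ne_zero_iff.2 (h0 x)
  have a0 : 0 < a := lt_of_le_of_lt (by positivity) ha
  have kd : ∀ x y, |Bk 1 (un 1 (T (h x))) (un 1 (T (h y)))| = Real.cos (dist x y / c) :=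
    fun x y => by rw [hd, mul_div_cancel_left₀ _ hc.ne', cos_ell (nz x) (nz y)]
  have le : ∀ x y, dist x y / c ≤ Real.pi / 2 := fun x y => by
    rw [hd, mul_div_cancel_left₀ _ hc.ne', ell]
    exact Real.arccos_le_pi_div_two.2 (by positivity)
  have d0 : 0 ≤ dist F G := dist_nonneg
  have ha3 : 2 * a ≤ c * Real.pi := by linarith
  have C1 := cos_gt' hc ha3 (t := 0) (by simpa using a0)
  rw [zero_div, Real.cos_zero] at C1
  have gC := cos_gt' hc ha3 (t := dist F G) (by rw [abs_of_nonneg d0]; linarith)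
  have gC' := cos_gt' hc (a := c * Real.pi - 2 * a) (t := dist F G) (by linarith)
    (by rw [abs_of_nonneg d0]; linarith)
  rw [sub_div, mul_div_cancel_left₀ _ hc.ne', Real.cos_pi_sub] at gC'
  have g1 := Real.cos_le_one (dist F G / c)
  have u1 : ∀ x, Bk 1 (un 1 (T (h x))) (un 1 (T (h x))) = 1 := fun x =>
    Bk_un_self (Bk_one_pos (nz x))
  set p := un 1 (T (h F)) with hp
  obtain ⟨q, q1, q2, q3⟩ : ∃ q, Bk 1 q q = 1 ∧ Bk 1 p q = Real.cos (dist F G / c) ∧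
      ∀ y, |Bk 1 q y| = |Bk 1 (un 1 (T (h G))) y| := by
    rcases le_total 0 (Bk 1 p (un 1 (T (h G)))) with s | s
    · exact ⟨_, u1 G, by rw [← kd, abs_of_nonneg s], fun _ => rfl⟩
    · refine ⟨-un 1 (T (h G)), ?_, ?_, fun y => ?_⟩
      · refine Eq.trans ?_ (u1 G); simp only [Bk, Pi.neg_apply]; ring
      · rw [← kd, abs_of_nonpos s]; simp only [Bk, Pi.neg_apply]; ring
      · rw [← abs_neg]; congr 1; simp only [Bk, Pi.neg_apply]; ring
  obtain ⟨Q, hQ, e⟩ := curved_Q' T (κ := 1) (C := Real.cos (2 * a / c)) one_ne_zero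
    (u1 F) q1 C1.ne (by linarith) (by rw [q2]; exact gC.ne')
  refine ⟨Q, hQ, fun x => ?_⟩
  rw [e _ (Bk_one_pos (nz x))]
  have gr := gram p q _ (u1 F) q1 (u1 x)
  have k1 := kd F x
  have k2 := (q3 _).trans (kd G x)
  rw [dist_comm G x] at k2
  rw [q2] at gr
  set u := Bk 1 p (un 1 (T (h x)))
  set v := Bk 1 q (un 1 (T (h x)))
  set C := Real.cos (2 * a / c) with hC
  set g := Real.cos (dist F G / c)
  have fac := cos_fac (dist F x / c) (dist x G / c) C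
  rw [← sub_div, ← add_div, ← k1, ← k2, sq_abs, sq_abs, mul_assoc, ← abs_mul] at fac
  have neg := cos_gt' hc ha3 (abs_diff_lt (x := x) ha)
  have iff : (Real.cos ((dist F x + dist x G) / c) - C) * (Real.cos ((dist F x - dist x G) / c) - C)
      = 0 ↔ dist F x + dist x G = 2 * a := by
    have m1 : (dist F x + dist x G) / c ∈ Icc 0 Real.pi :=
      ⟨by positivity, by rw [add_div]; linarith [le F x, le x G]⟩
    have m2 : 2 * a / c ∈ Icc 0 Real.pi :=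
      ⟨by positivity, by rw [div_le_iff₀ hc]; linarith⟩
    rw [mul_eq_zero_iff_right (sub_pos.2 neg).ne', sub_eq_zero, hC, Real.injOn_cos.eq_iff m1 m2,
      div_left_inj' hc.ne']
  rw [← iff, ← fac]
  have gc : 0 < (g - C) * (g + C) := mul_pos (by linarith) (by linarith)
  rcases le_or_gt 0 (u * v) with s | s
  · rw [abs_of_nonneg s, mul_assoc (2 * C)]
  · rw [abs_of_neg s]
    constructor <;> intro hq <;> exfalso
    · nlinarith [mul_pos_of_neg_of_neg s (show -(g + C) < 0 by linarith)]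
    · nlinarith [mul_pos_of_neg_of_neg s (show -(g - C) < 0 by linarith)]

/-- small ellipses, circles included, lie on conics -/
def SmallOn (h : X → Fin 3 → ℝ) : Prop :=
  ∃ ε : ℝ, 0 < ε ∧ ∀ F G : X, ∀ a : ℝ, dist F G / 2 < a → a < ε →
    ∃ Q : QuadraticForm ℝ (Fin 3 → ℝ), Q ≠ 0 ∧ ∀ x : X, dist F x + dist x G = 2 * a → Q (h x) = 0

lemma SmallOn.ell {h : X → Fin 3 → ℝ} (hs : SmallOn h) : EllipsesOnConics h :=
  let ⟨ε, h1, h2⟩ := hs
  ⟨ε, h1, fun F G _ a h3 h4 => h2 F G a h3 h4⟩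

lemma Ex.on {h : X → Fin 3 → ℝ} {F G : X} {a : ℝ} (he : Ex h F G a) :
    ∃ Q : QuadraticForm ℝ (Fin 3 → ℝ), Q ≠ 0 ∧ ∀ x, dist F x + dist x G = 2 * a → Q (h x) = 0 :=
  let ⟨Q, h1, h2⟩ := he
  ⟨Q, ne_zero_of_nd h1, fun x hx => (h2 x).1 hx⟩

lemma Ex.set {h : X → Fin 3 → ℝ} {F G : X} {a : ℝ} (he : Ex h F G a) :
    ∃ Q : QuadraticForm ℝ (Fin 3 → ℝ), Q.Nondegenerate ∧
      {x : X | dist F x + dist x G = 2 * a} = {x : X | Q (h x) = 0} :=
  let ⟨Q, h1, h2⟩ := he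
  ⟨Q, h1, Set.ext h2⟩

lemma quad_on {h : X → Fin 3 → ℝ} {s : Set ℝ} (he : EllipsesAreQuadrics h s)
    {ε : ℝ} (h0 : 0 < ε) (hs : Iio ε ⊆ s) : EllipsesOnConics h :=
  ⟨ε / 2, half_pos h0, fun F G hne a h1 h2 =>
    let ⟨Q, h3, h4⟩ := he F G hne a h1 (hs (mem_Iio.2 (by linarith)))
    ⟨Q, ne_zero_of_nd h3, fun x hx => (Set.ext_iff.1 h4 x).1 hx⟩⟩

lemma small_affine {i : X → ℝ × ℝ} (hm : ∃ (T : (Fin 3 → ℝ) ≃ₗ[ℝ] (Fin 3 → ℝ)) (c : ℝ), 0 < c ∧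
    (EuclideanModel (fun x => T (hom (i x))) c ∨ KleinModel (fun x => T (hom (i x))) c ∨
      SphericalPiece (fun x => T (hom (i x))) c)) : SmallOn fun x => hom (i x) := by
  obtain ⟨T, c, hc, h1 | h1 | h1⟩ := hm
  · exact ⟨1, one_pos, fun F G a ha _ => (euclid_ex hc h1 F G ha).on⟩
  · exact ⟨1, one_pos, fun F G a ha _ => (klein_ex hc h1 F G ha).on⟩
  · exact ⟨c * Real.pi / 4, by positivity, fun F G a ha h2 =>
      sph_on (fun x => hom_ne _) hc h1.1 F G ha h2.le⟩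

lemma quad_affine {i : X → ℝ × ℝ} (hm : ∃ (T : (Fin 3 → ℝ) ≃ₗ[ℝ] (Fin 3 → ℝ)) (c : ℝ), 0 < c ∧
    (EuclideanModel (fun x => T (hom (i x))) c ∨ KleinModel (fun x => T (hom (i x))) c)) :
    EllipsesAreQuadrics (fun x => hom (i x)) univ := by
  obtain ⟨T, c, hc, h1 | h1⟩ := hm
  · exact fun F G _ a ha _ => (euclid_ex hc h1 F G ha).set
  · exact fun F G _ a ha _ => (klein_ex hc h1 F G ha).set

lemma small_ell [MetricSpace (ℙ ℝ (Fin 3 → ℝ))]
    (hm : ∃ (T : (Fin 3 → ℝ) ≃ₗ[ℝ] (Fin 3 → ℝ)) (c : ℝ), 0 < c ∧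
      ∀ x y : ℙ ℝ (Fin 3 → ℝ), dist x y = c * ell (T x.rep) (T y.rep)) :
    SmallOn fun p : ℙ ℝ (Fin 3 → ℝ) => p.rep := by
  obtain ⟨T, c, hc, h1⟩ := hm
  exact ⟨c * Real.pi / 4, by positivity, fun F G a ha h2 =>
    (ell_ex (fun x => Projectivization.rep_nonzero x) hc h1 F G ha (by linarith)).on⟩

lemma quad_ell [MetricSpace (ℙ ℝ (Fin 3 → ℝ))] {L : ℝ} (hL : 0 < L)
    (hline : ∀ W : Submodule ℝ (Fin 3 → ℝ), Module.finrank ℝ W = 2 →
      ∃ γ : AddCircle L → ℙ ℝ (Fin 3 → ℝ), Isometry γ ∧ range γ = {p | p.submodule ≤ W})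
    (hm : ∃ (T : (Fin 3 → ℝ) ≃ₗ[ℝ] (Fin 3 → ℝ)) (c : ℝ), 0 < c ∧
      ∀ x y : ℙ ℝ (Fin 3 → ℝ), dist x y = c * ell (T x.rep) (T y.rep)) :
    EllipsesAreQuadrics (fun p : ℙ ℝ (Fin 3 → ℝ) => p.rep) (Iio (L / 2)) := by
  obtain ⟨T, c, hc, h1⟩ := hm
  obtain ⟨f, hf⟩ := exists_linearIndependent_of_le_finrank (R := ℝ) (M := Fin 3 → ℝ) (n := 2)
    (by simp)
  obtain ⟨γ, hγ, -⟩ := hline (Submodule.span ℝ (range f)) (by
    rw [finrank_span_eq_card hf, Fintype.card_fin])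
  have e := hγ.dist_eq ((L / 2 : ℝ) : AddCircle L) 0
  rw [dist_zero_right, norm_short hL (half_pos hL).le le_rfl, h1] at e
  have le : ell (T (γ ((L / 2 : ℝ) : AddCircle L)).rep) (T (γ 0).rep) ≤ Real.pi / 2 :=
    Real.arccos_le_pi_div_two.2 (by positivity)
  have := mul_le_mul_of_nonneg_left le hc.le
  exact fun F G _ a ha h2 => (ell_ex (fun x => Projectivization.rep_nonzero x) hc h1 F G ha
    (by linarith [mem_Iio.1 h2])).set

end Pool.Agent.Lib.PC37E
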