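import Pool.Agent.Lib.MP_deb346_gt.Defs

set_option autoImplicit false

namespace Pool.Agent.Lib.PC37

/-- For a metric space whose points have homogeneous coordinates `h`: every circle of radius
below some fixed bound lies on a conic. -/
def CirclesOnConics {X : Type} [MetricSpace X] (h : X → Fin 3 → ℝ) : Prop :=
  ∃ ε : ℝ, 0 < ε ∧ ∀ F : X, ∀ a : ℝ, 0 < a → a < ε →
    ∃ Q : QuadraticForm ℝ (Fin 3 → ℝ), Q ≠ 0 ∧ ∀ x : X, dist F x = a → Q (h x) = 0

end Pool.Agent.Lib.PC37
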