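import Pool.Agent.Lib.PC37.Formula

set_option autoImplicit false

open Set Filter Topology

namespace Pool.Agent.Lib.PC37

open Pool.Agent.Lib.MP_deb346_gt

variable {U Ω : Set (ℝ × ℝ)} {d : ℝ × ℝ → ℝ × ℝ → ℝ} {ε c : ℝ}
  {T : (Fin 3 → ℝ) ≃ₗ[ℝ] (Fin 3 → ℝ)}

lemma conic_coeffs {Q : QuadraticForm ℝ (Fin 3 → ℝ)} (hQ : Q ≠ 0) :
    ∃ k : Fin 6 → ℝ, k ≠ 0 ∧ ∀ P, Q (hom P) = qe k P := by
  set e0 : Fin 3 → ℝ := ![1, 0, 0]
  set e1 : Fin 3 → ℝ := ![0, 1, 0]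
  set e2 : Fin 3 → ℝ := ![0, 0, 1]
  have ex : ∀ v : Fin 3 → ℝ, Q v = Q e0 * v 0 ^ 2 + QuadraticMap.polar Q e0 e1 * v 0 * v 1 +
      Q e1 * v 1 ^ 2 + QuadraticMap.polar Q e0 e2 * v 0 * v 2 +
      QuadraticMap.polar Q e1 e2 * v 1 * v 2 + Q e2 * v 2 ^ 2 := fun v => by
    have hv : v = v 0 • e0 + v 1 • e1 + v 2 • e2 := by
      ext i; fin_cases i <;> simp [e0, e1, e2]
    conv_lhs => rw [hv]
    rw [QuadraticMap.map_add Q, QuadraticMap.map_add Q]
    simp only [QuadraticMap.map_smul, QuadraticMap.polar_add_left, QuadraticMap.polar_smul_left,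
      QuadraticMap.polar_smul_right, smul_eq_mul]
    ring
  refine ⟨![Q e0, QuadraticMap.polar Q e0 e1, Q e1, QuadraticMap.polar Q e0 e2,
    QuadraticMap.polar Q e1 e2, Q e2], fun h0 => hQ ?_, fun P => ?_⟩
  · have a0 : Q e0 = 0 := congrFun h0 0
    have a1 : QuadraticMap.polar Q e0 e1 = 0 := congrFun h0 1
    have a2 : Q e1 = 0 := congrFun h0 2
    have a3 : QuadraticMap.polar Q e0 e2 = 0 := congrFun h0 3
    have a4 : QuadraticMap.polar Q e1 e2 = 0 := congrFun h0 4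
    have a5 : Q e2 = 0 := congrFun h0 5
    ext v
    rw [ex, a0, a1, a2, a3, a4, a5]
    simp
  · rw [ex]
    simp [qe, hom]

/-- the infinitesimal model -/
def Spd (Ω : Set (ℝ × ℝ)) (d : ℝ × ℝ → ℝ × ℝ → ℝ) (T : (Fin 3 → ℝ) ≃ₗ[ℝ] (Fin 3 → ℝ))
    (κ c : ℝ) : Prop :=
  ∀ P ∈ Ω, 0 < Bk κ (T (hom P)) (T (hom P)) ∧
    ∀ v : ℝ × ℝ, v ≠ 0 → 0 < Wk κ (T (hom P)) (T (dir v)) ∧
      Tendsto (fun y : ℝ => d P (P + y • v) / y) (𝓝[>] 0)
        (𝓝 (c * √(Wk κ (T (hom P)) (T (dir v))) / Bk κ (T (hom P)) (T (hom P))))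

lemma T_line (x e : ℝ × ℝ) (t : ℝ) : T (hom (x + t • e)) = T (hom x) + t • T (dir e) := by
  rw [hom_add, map_add, map_smul]

lemma Spd.integrate {κ : ℝ} (hs : Spd Ω d T κ c) (h : Loc U d ε) (hU : U ⊆ Ω) {x e : ℝ × ℝ}
    (he : e ≠ 0) {a b : ℝ} (hab : a ≤ b) (ha : x + a • e ∈ U) (hb : x + b • e ∈ U) {g : ℝ → ℝ}
    (hg : ∀ t ∈ Icc a b, HasDerivAt g (√(Wk κ (T (hom x)) (T (dir e))) /
      Bk κ (T (hom x) + t • T (dir e)) (T (hom x) + t • T (dir e))) t) :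
    d (x + a • e) (x + b • e) = c * (g b - g a) := by
  rw [mul_sub]
  refine h.integrate hab ha hb (g := fun t => c * g t) (fun t ht => (hg t ht).const_mul c)
    fun t ht => ?_
  have := ((hs _ (hU (convex_line h.convex ht.1 ht.2 ha hb))).2 e he).2
  rwa [T_line, Wk_add, mul_div_assoc] at this

lemma sph_self {v : Fin 3 → ℝ} (hv : v ≠ 0) : sph v v = 0 := by
  have := Bk_one_pos hv
  rw [sph, dot_eq, Real.sqrt_mul_self this.le, div_self this.ne', Real.arccos_one]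

lemma hom_ne (P : ℝ × ℝ) : hom P ≠ 0 := fun h => by simpa [hom] using congrFun h 2

lemma Spd.sph (hs : Spd U d T 1 c) (h : Loc U d ε) {P Q : ℝ × ℝ} (hP : P ∈ U) (hQ : Q ∈ U) :
    d P Q = c * sph (T (hom P)) (T (hom Q)) := by
  by_cases hPQ : Q = P
  · rw [hPQ, h.self hP, sph_self (T.map_ne_zero_iff.2 (hom_ne P)), mul_zero]
  have he := sub_ne_zero.2 hPQ
  have hW := ((hs P hP).2 _ he).1
  have := hs.integrate h Subset.rfl (x := P) he zero_le_one (by simpa using hP) (by simpa using hQ)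
    fun t _ => gs_deriv hW t
  have e := T_line (T := T) P (Q - P) 1
  rw [gs_val hW] at this
  simp only [one_smul, zero_smul, add_zero, add_sub_cancel] at this e
  rw [this, e]

lemma sign_keep {p r : ℝ} (h : ∀ t ∈ Icc (0 : ℝ) 1, p + t * r ≠ 0) : 0 < p * (p + r) := by
  have hp : p ≠ 0 := by simpa using h 0 ⟨le_rfl, zero_le_one⟩
  by_contra hcon
  have hc : ContinuousOn (fun s : ℝ => p * (p + s * r)) (Icc 0 1) := by fun_prop
  obtain ⟨s, hs, e⟩ := intermediate_value_Icc' zero_le_one hc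
    (show (0 : ℝ) ∈ Icc _ _ from ⟨by simpa using hcon, by simpa using mul_self_nonneg p⟩)
  exact mul_ne_zero hp (h s hs) e

lemma Spd.euc (hs : Spd U d T 0 c) (h : Loc U d ε) {P Q : ℝ × ℝ} (hP : P ∈ U) (hQ : Q ∈ U) :
    T (hom P) 2 ≠ 0 ∧ d P Q = c * euc (aff (T (hom P))) (aff (T (hom Q))) := by
  have ne : ∀ X ∈ U, T (hom X) 2 ≠ 0 := fun X hX h0 => by
    have := (hs X hX).1
    simp [Bk, h0] at this
  refine ⟨ne P hP, ?_⟩
  by_cases hPQ : Q = P
  · rw [hPQ, h.self hP]; simp [MP_deb346_gt.euc]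
  have he := sub_ne_zero.2 hPQ
  have h0 : P + (0 : ℝ) • (Q - P) ∈ U := by simpa using hP
  have h1 : P + (1 : ℝ) • (Q - P) ∈ U := by simpa using hQ
  have ne2 : ∀ t ∈ Icc (0 : ℝ) 1, T (hom P) 2 + t * T (dir (Q - P)) 2 ≠ 0 := fun t ht => by
    have := ne _ (convex_line h.convex ht.1 ht.2 h0 h1)
    rwa [T_line] at this
  have := hs.integrate h Subset.rfl (x := P) he zero_le_one h0 h1
    fun t ht => ge_deriv (ne P hP) _ (ne2 t ht)
  have e := T_line (T := T) P (Q - P) 1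
  simp only [one_smul, zero_smul, add_zero, add_sub_cancel, mul_one, one_mul, mul_zero, zero_div,
    sub_zero] at this e
  have sg := sign_keep ne2
  have p2 := ne P hP
  have q2 := ne2 1 ⟨zero_le_one, le_rfl⟩
  rw [one_mul] at q2
  rw [this, e, ← Real.sqrt_sq sg.le, ← Real.sqrt_div' _ (sq_nonneg _)]
  simp only [MP_deb346_gt.euc, aff, Wk, Pi.add_apply]
  congr 2
  field_simp
  ring

lemma Spd.klein (hs : Spd U d T (-1) c) (h : Loc U d ε) {P Q : ℝ × ℝ} (hP : P ∈ U) (hQ : Q ∈ U) :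
    (T (hom P) 2 ≠ 0 ∧ aff (T (hom P)) ∈ disc) ∧
      d P Q = c * klein (aff (T (hom P))) (aff (T (hom Q))) := by
  have ne : ∀ X ∈ U, T (hom X) 2 ≠ 0 := fun X hX h0 => by
    have := (hs X hX).1
    simp only [Bk, h0] at this
    nlinarith [mul_self_nonneg (T (hom X) 0), mul_self_nonneg (T (hom X) 1)]
  have one : ∀ p q : Fin 3 → ℝ, p 2 ≠ 0 → q 2 ≠ 0 →
      1 - ((aff p).1 * (aff q).1 + (aff p).2 * (aff q).2) = Bk (-1) p q / (p 2 * q 2) :=
    fun p q hp hq => by simp only [aff, Bk]; field_simp; ring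
  have one' : ∀ p : Fin 3 → ℝ, p 2 ≠ 0 →
      1 - ((aff p).1 ^ 2 + (aff p).2 ^ 2) = Bk (-1) p p / p 2 ^ 2 :=
    fun p hp => by simp only [aff, Bk]; field_simp; ring
  have p2 := ne P hP
  have hp := (hs P hP).1
  have hq := (hs Q hQ).1
  refine ⟨⟨p2, ?_⟩, ?_⟩
  · have a := one' _ p2
    have b : 0 < Bk (-1) (T (hom P)) (T (hom P)) / T (hom P) 2 ^ 2 := by positivity
    simp only [disc, mem_ofPred_eq]
    linarith
  have form : 0 < T (hom P) 2 * T (hom Q) 2 →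
      MP_deb346_gt.klein (aff (T (hom P))) (aff (T (hom Q))) =
      Real.arcosh (Bk (-1) (T (hom P)) (T (hom Q)) /
        √(Bk (-1) (T (hom P)) (T (hom P)) * Bk (-1) (T (hom Q)) (T (hom Q)))) := fun sg => by
    have q2 := ne Q hQ
    rw [MP_deb346_gt.klein, one _ _ p2 q2, one' _ p2, one' _ q2, div_mul_div_comm, ← mul_pow,
      Real.sqrt_div' _ (sq_nonneg _), Real.sqrt_sq sg.le, div_div_div_cancel_right₀ sg.ne']
  by_cases hPQ : Q = P
  · rw [form (by rw [hPQ]; exact mul_self_pos.2 p2), hPQ, h.self hP, Real.sqrt_mul_self hp.le,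
      div_self hp.ne', Real.arcosh_zero, mul_zero]
  have he := sub_ne_zero.2 hPQ
  have h0 : P + (0 : ℝ) • (Q - P) ∈ U := by simpa using hP
  have h1 : P + (1 : ℝ) • (Q - P) ∈ U := by simpa using hQ
  have hW := ((hs P hP).2 _ he).1
  have hB : ∀ t ∈ Icc (0 : ℝ) 1, 0 < Bk (-1) (T (hom P) + t • T (dir (Q - P)))
      (T (hom P) + t • T (dir (Q - P))) := fun t ht => by
    have := (hs _ (convex_line h.convex ht.1 ht.2 h0 h1)).1
    rwa [T_line] at this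
  have ne2 : ∀ t ∈ Icc (0 : ℝ) 1, T (hom P) 2 + t * T (dir (Q - P)) 2 ≠ 0 := fun t ht => by
    have := ne _ (convex_line h.convex ht.1 ht.2 h0 h1)
    rwa [T_line] at this
  have := hs.integrate h Subset.rfl (x := P) he zero_le_one h0 h1 fun t ht => gh_deriv hW hB ht
  have e := T_line (T := T) P (Q - P) 1
  rw [gh_val hW hB] at this
  simp only [one_smul, zero_smul, add_zero, add_sub_cancel] at this e
  rw [form (by rw [e]; exact sign_keep ne2), this, e]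

end Pool.Agent.Lib.PC37
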