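import Pool.Agent.Lib.PC37.Killing

set_option autoImplicit false

open Set Filter Topology

namespace Pool.Agent.Lib.PC37

open Pool.Agent.Lib.MP_deb346_gt

lemma hom_add (x e : ℝ × ℝ) (t : ℝ) : hom (x + t • e) = hom x + t • dir e := by
  ext i; fin_cases i <;> simp [hom, dir]

lemma Wk_add (κ t : ℝ) (p r : Fin 3 → ℝ) : Wk κ (p + t • r) r = Wk κ p r := by
  simp only [Wk, Pi.add_apply, Pi.smul_apply, smul_eq_mul]; ring

lemma Bk_line (κ t : ℝ) (p r : Fin 3 → ℝ) :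
    Bk κ (p + t • r) (p + t • r) = Bk κ p p + 2 * t * Bk κ p r + t ^ 2 * Bk κ r r := by
  simp only [Bk, Pi.add_apply, Pi.smul_apply, smul_eq_mul]; ring

lemma Bk_right (κ t : ℝ) (p r : Fin 3 → ℝ) : Bk κ p (p + t • r) = Bk κ p p + t * Bk κ p r := by
  simp only [Bk, Pi.add_apply, Pi.smul_apply, smul_eq_mul]; ring

lemma lagrange (κ : ℝ) (p r : Fin 3 → ℝ) : Bk κ p p * Bk κ r r - Bk κ p r ^ 2 = κ * Wk κ p r := by
  simp only [Bk, Wk]; ring

lemma dot_eq (p q : Fin 3 → ℝ) : p ⬝ᵥ q = Bk 1 p q := by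
  simp only [dotProduct, Fin.sum_univ_three, Bk]; ring

lemma Bk_one_nonneg (p : Fin 3 → ℝ) : 0 ≤ Bk 1 p p := by
  simp only [Bk]; nlinarith [mul_self_nonneg (p 0), mul_self_nonneg (p 1), mul_self_nonneg (p 2)]

lemma Bk_one_pos {p : Fin 3 → ℝ} (hp : p ≠ 0) : 0 < Bk 1 p p := by
  by_contra hcon
  have h0 := mul_self_nonneg (p 0)
  have h1 := mul_self_nonneg (p 1)
  have h2 := mul_self_nonneg (p 2)
  simp only [Bk, not_lt] at hcon
  apply hp
  ext i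
  fin_cases i
  · exact mul_self_eq_zero.1 (show p 0 * p 0 = 0 by linarith)
  · exact mul_self_eq_zero.1 (show p 1 * p 1 = 0 by linarith)
  · exact mul_self_eq_zero.1 (show p 2 * p 2 = 0 by linarith)

lemma Brr_pos {p r : Fin 3 → ℝ} (hW : 0 < Wk 1 p r) : 0 < Bk 1 r r ∧ 0 < Bk 1 p p := by
  have h1 := lagrange 1 p r
  have h2 : 0 < Bk 1 p p * Bk 1 r r := by nlinarith [sq_nonneg (Bk 1 p r)]
  have h3 := Bk_one_nonneg p
  have h4 := Bk_one_nonneg r
  constructor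
  · exact lt_of_le_of_ne h4 fun h => by rw [← h] at h2; simp at h2
  · exact lt_of_le_of_ne h3 fun h => by rw [← h] at h2; simp at h2

/-- spherical arc length along a line -/
noncomputable def gs (p r : Fin 3 → ℝ) (t : ℝ) : ℝ :=
  Real.arctan ((Bk 1 r r * t + Bk 1 p r) / √(Wk 1 p r))

lemma gs_deriv {p r : Fin 3 → ℝ} (hW : 0 < Wk 1 p r) (t : ℝ) :
    HasDerivAt (gs p r) (√(Wk 1 p r) / Bk 1 (p + t • r) (p + t • r)) t := by
  have h1 : HasDerivAt (fun t : ℝ => (Bk 1 r r * t + Bk 1 p r) / √(Wk 1 p r))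
      (Bk 1 r r / √(Wk 1 p r)) t := by
    simpa using (((hasDerivAt_id t).const_mul (Bk 1 r r)).add_const (Bk 1 p r)).div_const
      √(Wk 1 p r)
  refine HasDerivAt.congr_deriv h1.arctan ?_
  have ω0 := Real.sqrt_pos.2 hW
  have ω2 := Real.sq_sqrt hW.le
  have hl := lagrange 1 p r
  have hr := (Brr_pos hW).1
  have hz := (Brr_pos (p := p + t • r) (by rwa [Wk_add])).2
  have e : 1 + ((Bk 1 r r * t + Bk 1 p r) / √(Wk 1 p r)) ^ 2 =
      Bk 1 r r * Bk 1 (p + t • r) (p + t • r) / √(Wk 1 p r) ^ 2 := by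
    rw [Bk_line]; field_simp; rw [ω2]; linear_combination -hl
  rw [e]
  field_simp

lemma gs_strictMono {p r : Fin 3 → ℝ} (hW : 0 < Wk 1 p r) : StrictMono (gs p r) := fun s t hst =>
  Real.arctan_strictMono (div_lt_div_of_pos_right
    (by nlinarith [(Brr_pos hW).1]) (Real.sqrt_pos.2 hW))

lemma gs_val {p r : Fin 3 → ℝ} (hW : 0 < Wk 1 p r) : gs p r 1 - gs p r 0 = sph p (p + r) := by
  have h1 : 0 ≤ gs p r 1 - gs p r 0 := sub_nonneg.2 (gs_strictMono hW zero_lt_one).le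
  have h2 : gs p r 1 - gs p r 0 ≤ Real.pi := by
    have a := Real.arctan_lt_pi_div_two ((Bk 1 r r * 1 + Bk 1 p r) / √(Wk 1 p r))
    have b := Real.neg_pi_div_two_lt_arctan ((Bk 1 r r * 0 + Bk 1 p r) / √(Wk 1 p r))
    simp only [gs]; linarith
  rw [← Real.arccos_cos h1 h2, sph]
  congr 1
  have ω0 := Real.sqrt_pos.2 hW
  have ω2 := Real.sq_sqrt hW.le
  have hl := lagrange 1 p r
  obtain ⟨hr, hp⟩ := Brr_pos hW
  have hz := (Brr_pos (p := p + (1 : ℝ) • r) (by rwa [Wk_add])).2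
  have e : ∀ t : ℝ, 1 + ((Bk 1 r r * t + Bk 1 p r) / √(Wk 1 p r)) ^ 2 =
      (√(Bk 1 r r) / √(Wk 1 p r)) ^ 2 * Bk 1 (p + t • r) (p + t • r) := fun t => by
    rw [Bk_line, div_pow, div_pow, Real.sq_sqrt hr.le]; field_simp; rw [ω2]; linear_combination -hl
  have ρ0 := Real.sqrt_pos.2 hr
  have ρ2 := Real.sq_sqrt hr.le
  simp only [gs, Real.cos_sub, Real.cos_arctan, Real.sin_arctan, e, dot_eq]
  rw [Real.sqrt_mul (sq_nonneg _), Real.sqrt_mul (sq_nonneg _), Real.sqrt_sq (by positivity),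
    Real.sqrt_mul hp.le]
  have e2 := Bk_right 1 1 p r
  simp only [one_smul, zero_smul, add_zero] at hz e2 ⊢
  have z0 := Real.sqrt_pos.2 hz
  have p0 := Real.sqrt_pos.2 hp
  rw [e2]
  field_simp
  rw [ω2, ρ2]
  linear_combination -hl

/-- hyperbolic arc length along a line -/
noncomputable def gh (p r : Fin 3 → ℝ) (t : ℝ) : ℝ :=
  Real.log (Bk (-1) p p + t * Bk (-1) p r + t * √(Wk (-1) p r)) -
    Real.log (Bk (-1) p p + 2 * t * Bk (-1) p r + t ^ 2 * Bk (-1) r r) / 2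

lemma Bpz_pos {p r : Fin 3 → ℝ} (hW : 0 < Wk (-1) p r)
    (hB : ∀ t ∈ Icc (0 : ℝ) 1, 0 < Bk (-1) (p + t • r) (p + t • r)) {t : ℝ} (ht : t ∈ Icc (0 : ℝ) 1) :
    0 < Bk (-1) p p + t * Bk (-1) p r := by
  have hp : 0 < Bk (-1) p p := by simpa using hB 0 ⟨le_rfl, zero_le_one⟩
  by_contra hcon
  have hc : ContinuousOn (fun s : ℝ => Bk (-1) p p + s * Bk (-1) p r) (Icc 0 t) := by fun_prop
  obtain ⟨s, hs, e⟩ := intermediate_value_Icc' ht.1 hc
    (show (0 : ℝ) ∈ Icc _ _ from ⟨not_lt.1 hcon, by simpa using hp.le⟩)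
  have h1 := hB s ⟨hs.1, hs.2.trans ht.2⟩
  rw [Bk_line] at h1
  have hl := lagrange (-1) p r
  have h2 : (Bk (-1) p p + s * Bk (-1) p r) ^ 2 = Bk (-1) p p *
      (Bk (-1) p p + 2 * s * Bk (-1) p r + s ^ 2 * Bk (-1) r r) + s ^ 2 * Wk (-1) p r := by
    linear_combination (-s ^ 2) * hl
  simp only at e
  rw [e] at h2
  have h3 := mul_pos hp h1
  have h4 : 0 ≤ s ^ 2 * Wk (-1) p r := by positivity
  linarith

lemma gh_deriv {p r : Fin 3 → ℝ} (hW : 0 < Wk (-1) p r)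
    (hB : ∀ t ∈ Icc (0 : ℝ) 1, 0 < Bk (-1) (p + t • r) (p + t • r)) {t : ℝ} (ht : t ∈ Icc (0 : ℝ) 1) :
    HasDerivAt (gh p r) (√(Wk (-1) p r) / Bk (-1) (p + t • r) (p + t • r)) t := by
  have ω0 := Real.sqrt_pos.2 hW
  have ω2 := Real.sq_sqrt hW.le
  have hl := lagrange (-1) p r
  have h1 := Bpz_pos hW hB ht
  have h2 := hB t ht
  rw [Bk_line] at h2 ⊢
  have h3 : 0 < Bk (-1) p p + t * Bk (-1) p r + t * √(Wk (-1) p r) := by
    have := mul_nonneg ht.1 ω0.le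
    linarith
  have d1 : HasDerivAt (fun t : ℝ => Bk (-1) p p + t * Bk (-1) p r + t * √(Wk (-1) p r))
      (Bk (-1) p r + √(Wk (-1) p r)) t := by
    simpa using (((hasDerivAt_id t).mul_const (Bk (-1) p r)).const_add (Bk (-1) p p)).fun_add
      ((hasDerivAt_id t).mul_const √(Wk (-1) p r))
  have d2 : HasDerivAt (fun t : ℝ => Bk (-1) p p + 2 * t * Bk (-1) p r + t ^ 2 * Bk (-1) r r)
      (2 * Bk (-1) p r + 2 * t * Bk (-1) r r) t := by
    simpa using ((((hasDerivAt_id t).const_mul 2).mul_const (Bk (-1) p r)).const_add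
      (Bk (-1) p p)).fun_add ((hasDerivAt_pow 2 t).mul_const (Bk (-1) r r))
  refine HasDerivAt.congr_deriv ((d1.log h3.ne').fun_sub ((d2.log h2.ne').div_const 2)) ?_
  set ω := √(Wk (-1) p r)
  have e : (Bk (-1) p r + ω) / (Bk (-1) p p + t * Bk (-1) p r + t * ω) =
      (Bk (-1) p r + t * Bk (-1) r r + ω) /
        (Bk (-1) p p + 2 * t * Bk (-1) p r + t ^ 2 * Bk (-1) r r) := by
    rw [div_eq_div_iff h3.ne' h2.ne']
    linear_combination (-t) * ω2 - t * hl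
  rw [e]
  ring

lemma gh_val {p r : Fin 3 → ℝ} (hW : 0 < Wk (-1) p r)
    (hB : ∀ t ∈ Icc (0 : ℝ) 1, 0 < Bk (-1) (p + t • r) (p + t • r)) :
    gh p r 1 - gh p r 0 =
      Real.arcosh (Bk (-1) p (p + r) / √(Bk (-1) p p * Bk (-1) (p + r) (p + r))) := by
  have ω0 := Real.sqrt_pos.2 hW
  have hl := lagrange (-1) p r
  have hp : 0 < Bk (-1) p p := by simpa using hB 0 ⟨le_rfl, zero_le_one⟩
  have h1 := Bpz_pos hW hB (t := 1) ⟨zero_le_one, le_rfl⟩
  have h2 := hB 1 ⟨zero_le_one, le_rfl⟩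
  have e1 := Bk_right (-1) 1 p r
  have e2 := Bk_line (-1) 1 p r
  rw [one_smul] at h2 e1 e2
  simp only [gh, Real.arcosh]
  rw [← e1, ← e2]
  rw [← e1] at h1
  have e3 : Bk (-1) p (p + r) ^ 2 = Bk (-1) p p * Bk (-1) (p + r) (p + r) + Wk (-1) p r := by
    rw [e1, e2]; linear_combination -hl
  set u := Bk (-1) p (p + r)
  set m := Bk (-1) p p
  set n := Bk (-1) (p + r) (p + r)
  have s0 := Real.sqrt_pos.2 (mul_pos hp h2)
  have e4 : (u / √(m * n)) ^ 2 - 1 = Wk (-1) p r / (m * n) := by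
    rw [div_pow, Real.sq_sqrt (mul_pos hp h2).le, e3]; field_simp; ring
  rw [e4, Real.sqrt_div hW.le, ← add_div, Real.log_div (by positivity) s0.ne',
    Real.log_sqrt (mul_pos hp h2).le, Real.log_mul hp.ne' h2.ne']
  simp only [zero_mul, mul_zero, add_zero, one_mul, ne_eq, OfNat.ofNat_ne_zero, not_false_eq_true,
    zero_pow]
  ring

lemma ge_deriv {p r : Fin 3 → ℝ} (hp : p 2 ≠ 0) (ω : ℝ) {t : ℝ} (h : p 2 + t * r 2 ≠ 0) :
    HasDerivAt (fun t : ℝ => ω * t / (p 2 * (p 2 + t * r 2)))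
      (ω / Bk 0 (p + t • r) (p + t • r)) t := by
  have d1 : HasDerivAt (fun t : ℝ => p 2 * (p 2 + t * r 2)) (p 2 * r 2) t := by
    simpa using (((hasDerivAt_id t).mul_const (r 2)).const_add (p 2)).const_mul (p 2)
  have d2 : HasDerivAt (fun t : ℝ => ω * t) ω t := by simpa using (hasDerivAt_id t).const_mul ω
  refine HasDerivAt.congr_deriv (d2.fun_div d1 (mul_ne_zero hp h)) ?_
  simp only [Bk, Pi.add_apply, Pi.smul_apply, smul_eq_mul, zero_mul, zero_add]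
  field_simp
  ring

end Pool.Agent.Lib.PC37
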