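import Pool.Agent.Lib.PC37.Iso

set_option autoImplicit false

open Set Filter Topology

namespace Pool.Agent.Lib.PC37

variable {U V : Set (ℝ × ℝ)} {d : ℝ × ℝ → ℝ × ℝ → ℝ} {ε ρ : ℝ}

lemma tendsto_ray (P u : ℝ × ℝ) : Tendsto (fun x : ℝ => P + x • u) (𝓝[>] 0) (𝓝 P) := by
  have hc : Continuous fun x : ℝ => P + x • u := by fun_prop
  have := hc.tendsto 0
  simp only [zero_smul, add_zero] at this
  exact this.mono_left nhdsWithin_le_nhds

lemma tendsto_ray0 (u : ℝ × ℝ) : Tendsto (fun x : ℝ => x • u) (𝓝[>] 0) (𝓝 0) := by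
  simpa using tendsto_ray 0 u

lemma Good.iso_ray (h : Good U d ε V ρ) {P : ℝ × ℝ} (hP : P ∈ V) {A : ℝ × ℝ × ℝ}
    (hA : Conf U d V P A) {η : ℝ} (hη : 0 < η) (u : ℝ × ℝ) {v w : ℝ × ℝ} (hw : w ≠ 0)
    (hvw : (1 + η) * bf A v v ≤ bf A w w) :
    ∀ᶠ x : ℝ in 𝓝[>] 0, d (P + x • u) (P + x • u + x • v) ≤ d (P + x • u) (P + x • u + x • w) := by
  filter_upwards [((tendsto_ray P u).prodMk_nhds (tendsto_ray0 w)).eventually (h.iso hP hA hη),
    self_mem_nhdsWithin] with x h1 hx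
  have x0 : (0 : ℝ) < x := hx
  refine (h1 (smul_ne_zero x0.ne' hw) (x • v) ?_).2
  simp only [bf_smul_left, bf_smul_right]
  nlinarith [mul_le_mul_of_nonneg_left hvw (mul_pos x0 x0).le]

lemma exists_eta {f g : ℝ → ℝ} (hf : Continuous f) (hg : Continuous g) (h : f 0 < g 0) :
    ∃ η : ℝ, 0 < η ∧ η < 1 ∧ f η < g η := by
  have e1 : ∀ᶠ η in 𝓝 (0 : ℝ), f η < g η := (hf.tendsto 0).eventually_lt (hg.tendsto 0) h
  obtain ⟨η, ⟨h1, h2⟩, h3⟩ := (((e1.and (gt_mem_nhds one_pos)).filter_mono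
    nhdsWithin_le_nhds).and (self_mem_nhdsWithin (s := Ioi (0 : ℝ)))).exists
  exact ⟨η, h3, h2, h1⟩

lemma ne_of_bf {A : ℝ × ℝ × ℝ} {w : ℝ × ℝ} (h : 0 < bf A w w) : w ≠ 0 := by
  rintro rfl
  simp [bf] at h

lemma Good.iso_lt (h : Good U d ε V ρ) {P : ℝ × ℝ} (hP : P ∈ V) {A : ℝ × ℝ × ℝ}
    (hA : Conf U d V P A) (u : ℝ × ℝ) {v w : ℝ × ℝ} (hvw : bf A v v < bf A w w) :
    ∀ᶠ x : ℝ in 𝓝[>] 0, d (P + x • u) (P + x • u + x • v) ≤ d (P + x • u) (P + x • u + x • w) := by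
  obtain ⟨η, η0, -, hη⟩ := exists_eta (f := fun η => (1 + η) * bf A v v)
    (g := fun _ => bf A w w) (by fun_prop) (by fun_prop) (by linarith)
  exact h.iso_ray hP hA η0 u (ne_of_bf ((hA.1.nonneg v).trans_lt hvw)) hη.le

lemma Good.step_cmp (h : Good U d ε V ρ) {P : ℝ × ℝ} (hP : P ∈ V) {A : ℝ × ℝ × ℝ}
    (hA : Conf U d V P A) {u : ℝ × ℝ} (hu : u ≠ 0) (a : ℝ) {l l' : ℝ} (hl : l ^ 2 < l' ^ 2) :
    ∀ᶠ x : ℝ in 𝓝[>] 0, d (P + (x * a) • u) (P + (x * (a + l)) • u) ≤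
      d (P + (x * a) • u) (P + (x * (a + l')) • u) := by
  have hau := hA.1 u hu
  filter_upwards [h.iso_lt hP hA (a • u) (v := l • u) (w := l' • u) (by
    simp only [bf_smul_left, bf_smul_right]
    nlinarith [mul_lt_mul_of_pos_right hl hau])] with x hx
  rwa [show P + x • a • u + x • l • u = P + (x * (a + l)) • u by module,
    show P + x • a • u + x • l' • u = P + (x * (a + l')) • u by module, smul_smul] at hx

lemma Good.ev_pt (h : Good U d ε V ρ) {P : ℝ × ℝ} (hP : P ∈ V) (u : ℝ × ℝ) (a : ℝ) :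
    ∀ᶠ x : ℝ in 𝓝[>] 0, P + (x * a) • u ∈ U := by
  filter_upwards [(tendsto_ray P (a • u)).eventually (h.isOpen.mem_nhds (h.sub hP))] with x hx
  rwa [smul_smul] at hx

lemma Good.chain_ge (h : Good U d ε V ρ) {P : ℝ × ℝ} (hP : P ∈ V) {A : ℝ × ℝ × ℝ}
    (hA : Conf U d V P A) {u : ℝ × ℝ} (hu : u ≠ 0) {η : ℝ} (hη : 0 < η) (m : ℕ) :
    ∃ a l : ℝ, 0 ≤ a ∧ 1 ≤ l ∧ l < 1 + η ∧ a ≤ m * (1 + η) ∧ ∀ᶠ x : ℝ in 𝓝[>] 0,
      m * d P (P + x • u) ≤ d P (P + (x * a) • u) ∧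
      d P (P + x • u) ≤ d (P + (x * a) • u) (P + (x * (a + l)) • u) := by
  have hPU := h.sub hP
  induction m with
  | zero => exact ⟨0, 1, le_rfl, le_rfl, by linarith, by simp,
      Eventually.of_forall fun x => by simp [h.self hPU]⟩
  | succ m ih =>
    obtain ⟨a, l, a0, l1, l2, am, hx⟩ := ih
    refine ⟨a + l, (l + (1 + η)) / 2, by linarith, by linarith, by linarith,
      by push_cast; linarith, ?_⟩
    filter_upwards [hx, h.step_cmp hP hA hu (a + l) (l := -l) (l' := (l + (1 + η)) / 2)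
      (by nlinarith), h.ev_pt hP u a, h.ev_pt hP u (a + l), self_mem_nhdsWithin]
      with x ⟨b1, b2⟩ b3 b4 b5 b6
    have x0 : (0 : ℝ) < x := b6
    have b7 := h.addr (x := P) (u := u) (s := x * a) (t := x * (a + l)) (by positivity)
      (by nlinarith) hPU b5
    rw [add_neg_cancel_right, h.symm _ b5 _ b4] at b3
    push_cast
    constructor <;> linarith

lemma Good.chain_le (h : Good U d ε V ρ) {P : ℝ × ℝ} (hP : P ∈ V) {A : ℝ × ℝ × ℝ}
    (hA : Conf U d V P A) {u : ℝ × ℝ} (hu : u ≠ 0) {η : ℝ} (hη : 0 < η) (hη1 : η < 1) (m : ℕ) :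
    ∃ a l : ℝ, 0 ≤ a ∧ 1 - η < l ∧ l ≤ 1 ∧ m * (1 - η) ≤ a ∧ ∀ᶠ x : ℝ in 𝓝[>] 0,
      d P (P + (x * a) • u) ≤ m * d P (P + x • u) ∧
      d (P + (x * a) • u) (P + (x * (a + l)) • u) ≤ d P (P + x • u) := by
  have hPU := h.sub hP
  induction m with
  | zero => exact ⟨0, 1, le_rfl, by linarith, le_rfl, by simp,
      Eventually.of_forall fun x => by simp [h.self hPU]⟩
  | succ m ih =>
    obtain ⟨a, l, a0, l1, l2, am, hx⟩ := ih
    refine ⟨a + l, (l + (1 - η)) / 2, by linarith, by linarith, by linarith,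
      by push_cast; linarith, ?_⟩
    filter_upwards [hx, h.step_cmp hP hA hu (a + l) (l := (l + (1 - η)) / 2) (l' := -l)
      (by nlinarith), h.ev_pt hP u a, h.ev_pt hP u (a + l), self_mem_nhdsWithin]
      with x ⟨b1, b2⟩ b3 b4 b5 b6
    have x0 : (0 : ℝ) < x := b6
    have b7 := h.addr (x := P) (u := u) (s := x * a) (t := x * (a + l)) (by positivity)
      (by nlinarith) hPU b5
    rw [add_neg_cancel_right, h.symm _ b5 _ b4] at b3
    push_cast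
    constructor <;> linarith

lemma Good.mult_ge (h : Good U d ε V ρ) {P : ℝ × ℝ} (hP : P ∈ V) {A : ℝ × ℝ × ℝ}
    (hA : Conf U d V P A) {u z : ℝ × ℝ} (hu : u ≠ 0) (m : ℕ)
    (hz : (m : ℝ) ^ 2 * bf A u u < bf A z z) :
    ∀ᶠ x : ℝ in 𝓝[>] 0, m * d P (P + x • u) ≤ d P (P + x • z) := by
  have hau := hA.1 u hu
  obtain ⟨η, η0, -, hη⟩ := exists_eta (f := fun η => ((m : ℝ) * (1 + η)) ^ 2 * bf A u u)
    (g := fun _ => bf A z z) (by fun_prop) (by fun_prop) (by simpa using hz)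
  obtain ⟨a, l, a0, -, -, am, hx⟩ := h.chain_ge hP hA hu η0 m
  have : a ^ 2 * bf A u u ≤ ((m : ℝ) * (1 + η)) ^ 2 * bf A u u := by gcongr
  filter_upwards [hx, h.iso_lt hP hA 0 (v := a • u) (w := z) (by
    simp only [bf_smul_left, bf_smul_right]; linarith)] with x b1 b2
  rw [smul_zero, add_zero, smul_smul] at b2
  exact b1.1.trans b2

lemma Good.mult_le (h : Good U d ε V ρ) {P : ℝ × ℝ} (hP : P ∈ V) {A : ℝ × ℝ × ℝ}
    (hA : Conf U d V P A) {u z : ℝ × ℝ} (hu : u ≠ 0) (m : ℕ)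
    (hz : bf A z z < (m : ℝ) ^ 2 * bf A u u) :
    ∀ᶠ x : ℝ in 𝓝[>] 0, d P (P + x • z) ≤ m * d P (P + x • u) := by
  have hau := hA.1 u hu
  obtain ⟨η, η0, η1, hη⟩ := exists_eta (f := fun _ => bf A z z)
    (g := fun η => ((m : ℝ) * (1 - η)) ^ 2 * bf A u u) (by fun_prop) (by fun_prop)
    (by simpa using hz)
  obtain ⟨a, l, a0, -, -, am, hx⟩ := h.chain_le hP hA hu η0 η1 m
  have h0 : 0 ≤ (m : ℝ) * (1 - η) := mul_nonneg (Nat.cast_nonneg m) (by linarith)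
  have : ((m : ℝ) * (1 - η)) ^ 2 * bf A u u ≤ a ^ 2 * bf A u u := by gcongr
  filter_upwards [hx, h.iso_lt hP hA 0 (v := z) (w := a • u) (by
    simp only [bf_smul_left, bf_smul_right]; linarith)] with x b1 b2
  rw [smul_zero, add_zero, smul_smul] at b2
  exact b2.trans b1.1

/-- homogeneity at small scale -/
lemma Good.homog (h : Good U d ε V ρ) {P : ℝ × ℝ} (hP : P ∈ V) {A : ℝ × ℝ × ℝ}
    (hA : Conf U d V P A) {v w : ℝ × ℝ} {c : ℝ} (hc : 0 < c)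
    (hvw : bf A v v < c ^ 2 * bf A w w) :
    ∀ᶠ x : ℝ in 𝓝[>] 0, d P (P + x • v) ≤ c * d P (P + x • w) := by
  have hv := hA.1.nonneg v
  have hw : 0 < bf A w w := (pos_iff_pos_of_mul_pos (hv.trans_lt hvw)).1 (by positivity)
  have hw0 := ne_of_bf hw
  set σ := √(bf A v v / bf A w w) with hσ
  have σ0 : 0 ≤ σ := Real.sqrt_nonneg _
  have σ2 : σ ^ 2 * bf A w w = bf A v v := by
    rw [hσ, Real.sq_sqrt (by positivity)]; field_simp
  have σc : σ < c := by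
    rw [hσ, Real.sqrt_lt' hc, div_lt_iff₀ hw]; exact hvw
  obtain ⟨k, hk⟩ := exists_nat_gt (1 / (c - σ))
  have k0 : (0 : ℝ) < k := (one_div_pos.2 (by linarith)).trans hk
  rw [div_lt_iff₀ (by linarith)] at hk
  set m := ⌊k * σ⌋₊ + 1 with hm
  have m1 : k * σ < m := by rw [hm]; push_cast; exact Nat.lt_floor_add_one _
  have m2 : (m : ℝ) ≤ k * σ + 1 := by
    rw [hm]; push_cast; linarith [Nat.floor_le (mul_nonneg k0.le σ0)]
  have m0 : (0 : ℝ) < m := (mul_nonneg k0.le σ0).trans_lt m1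
  have h1 : σ / m < 1 / k := by rw [div_lt_div_iff₀ m0 k0]; linarith
  obtain ⟨θ, θ1, θ2⟩ := exists_between h1
  have θ0 : 0 < θ := (div_nonneg σ0 m0.le).trans_lt θ1
  rw [div_lt_iff₀ m0] at θ1
  rw [lt_div_iff₀ k0] at θ2
  have hu : θ • w ≠ 0 := smul_ne_zero θ0.ne' hw0
  have e1 := h.mult_ge hP hA hu k (z := w) (by
    simp only [bf_smul_left, bf_smul_right]
    have : (θ * k) ^ 2 < 1 ^ 2 := by gcongr
    nlinarith [mul_lt_mul_of_pos_right this hw])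
  have e2 := h.mult_le hP hA hu m (z := v) (by
    simp only [bf_smul_left, bf_smul_right]
    have : σ ^ 2 < (θ * m) ^ 2 := by gcongr
    nlinarith [mul_lt_mul_of_pos_right this hw])
  filter_upwards [e1, e2, (tendsto_ray P (θ • w)).eventually (h.isOpen.mem_nhds (h.sub hP))]
    with x b1 b2 b3
  have b4 := h.nonneg (h.sub hP) b3
  have b5 : (m : ℝ) * d P (P + x • θ • w) ≤ k * c * d P (P + x • θ • w) :=
    mul_le_mul_of_nonneg_right (by nlinarith) b4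
  nlinarith [mul_le_mul_of_nonneg_left b1 hc.le]

end Pool.Agent.Lib.PC37
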