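import Pool.Agent.Lib.PC37.Conf

set_option autoImplicit false

open Set Filter Topology

namespace Pool.Agent.Lib.PC37

variable {U V : Set (ℝ × ℝ)} {d : ℝ × ℝ → ℝ × ℝ → ℝ} {ε ρ : ℝ}

lemma root_bound {t α β : ℝ} (ht : 0 < t) (hα : 0 < α) (h : t ^ 2 * α + 2 * t * β = 1) :
    t * α ≤ 1 + α + 2 * |β| := by
  have h1 := abs_nonneg β
  rcases le_total t 1 with h2 | h2
  · nlinarith
  · have h3 : -β ≤ |β| := neg_le_abs β
    have h4 : t * (t * α) ≤ t * (1 + 2 * |β|) := by nlinarith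
    have := le_of_mul_le_mul_left h4 ht
    linarith

lemma abs_dp_le (b u : ℝ × ℝ) : |dp b u| ≤ ‖b‖ * (|u.1| + |u.2|) := by
  have h1 : |b.1| ≤ ‖b‖ := by simpa using norm_fst_le b
  have h2 : |b.2| ≤ ‖b‖ := by simpa using norm_snd_le b
  calc |dp b u| ≤ |b.1 * u.1| + |b.2 * u.2| := abs_add_le _ _
    _ = |b.1| * |u.1| + |b.2| * |u.2| := by rw [abs_mul, abs_mul]
    _ ≤ ‖b‖ * |u.1| + ‖b‖ * |u.2| := by gcongr
    _ = _ := by ring

/-- normalised quadratic part -/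
noncomputable def nS (S : ℝ × ℝ × ℝ) : ℝ × ℝ × ℝ := (S.1 + S.2.2)⁻¹ • S

/-- normalised linear part -/
noncomputable def nb (S : ℝ × ℝ × ℝ) (b : ℝ × ℝ) : ℝ × ℝ := (√(S.1 + S.2.2))⁻¹ • b

lemma PD.tr_pos {S : ℝ × ℝ × ℝ} (h : PD S) : 0 < S.1 + S.2.2 := by
  linarith [h.facts.1, h.facts.2.1]

lemma bf_nS {S : ℝ × ℝ × ℝ} (h : PD S) (u z : ℝ × ℝ) :
    bf S u z = √(S.1 + S.2.2) ^ 2 * bf (nS S) u z := by
  have := h.tr_pos
  rw [Real.sq_sqrt this.le, nS, bf_smul]; field_simp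

lemma dp_nb {S : ℝ × ℝ × ℝ} (h : PD S) (b z : ℝ × ℝ) :
    dp b z = √(S.1 + S.2.2) * dp (nb S b) z := by
  have := Real.sqrt_pos.2 h.tr_pos
  rw [nb, dp_smul_left]; field_simp

lemma Good.nS_tendsto (h : Good U d ε V ρ) {P : ℝ × ℝ} (hP : P ∈ V)
    {S : (ℝ × ℝ) × ℝ → ℝ × ℝ × ℝ} {b : (ℝ × ℝ) × ℝ → ℝ × ℝ}
    (hS : ∀ p : (ℝ × ℝ) × ℝ, p.1 ∈ V → 0 < p.2 → p.2 ≤ ρ → Circ U d p.1 p.2 (S p) (b p))
    {A : ℝ × ℝ × ℝ} (hA : Conf U d V P A) : Tendsto (fun p => nS (S p)) (cf P) (𝓝 A) := by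
  obtain ⟨h1, h2⟩ := h.norm_shape hP hS
  exact h.tendsto_conf hP h1 h2 hA

lemma Good.nb_dir (h : Good U d ε V ρ) {P : ℝ × ℝ} (hP : P ∈ V)
    {S : (ℝ × ℝ) × ℝ → ℝ × ℝ × ℝ} {b : (ℝ × ℝ) × ℝ → ℝ × ℝ}
    (hS : ∀ p : (ℝ × ℝ) × ℝ, p.1 ∈ V → 0 < p.2 → p.2 ≤ ρ → Circ U d p.1 p.2 (S p) (b p))
    {A : ℝ × ℝ × ℝ} (hA : Conf U d V P A) {z : ℝ × ℝ} (hz : z ≠ 0) :
    ∃ C : ℝ, 0 < C ∧ ∀ η : ℝ, 0 < η → η ≤ 1 → ∀ᶠ p in cf P,
      |dp (nb (S p) (b p)) z| ≤ η * C * (1 + ‖nb (S p) (b p)‖) := by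
  set u0 : ℝ × ℝ := (-(av A z).2, (av A z).1) with hu0
  have haz := hA.1 z hz
  have hu0z : bf A u0 z = 0 := by simp only [hu0, bf, av]; ring
  have hu0ne : u0 ≠ 0 := by
    intro h0
    have h1 := congrArg Prod.fst h0
    have h2 := congrArg Prod.snd h0
    simp only [hu0, Prod.fst_zero, Prod.snd_zero, neg_eq_zero] at h1 h2
    rw [← dp_av, dp, h1, h2] at haz
    linarith
  have ha0 := hA.1 u0 hu0ne
  set a0 := bf A u0 u0
  set az := bf A z z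
  set M := |u0.1| + |u0.2| + |z.1| + |z.2| with hM
  have M0 : 0 ≤ M := by positivity
  refine ⟨4 * az / a0 * (2 + a0 + az + 2 * M), by positivity, fun η hη hη1 => ?_⟩
  set u := u0 + (-η) • z with hu
  have huz : bf A u z = -η * az := by rw [hu, bf_add_left, bf_smul_left, hu0z]; ring
  have huu : bf A u u = a0 + η ^ 2 * az := by
    rw [hu]
    simp only [bf_add_left, bf_add_right, bf_smul_left, bf_smul_right, bf_comm A z u0, hu0z]
    ring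
  have hη2 : η ^ 2 * az ≤ az := by
    have : η ^ 2 ≤ 1 := by nlinarith
    nlinarith
  have hη3 : 0 ≤ η ^ 2 * az := by positivity
  have hune : u ≠ 0 := by
    intro h0
    rw [h0] at huu
    simp only [bf, Prod.fst_zero, Prod.snd_zero, mul_zero, add_zero] at huu
    linarith
  have huM : |u.1| + |u.2| ≤ M := by
    have aux : ∀ x y : ℝ, |x + -η * y| ≤ |x| + |y| := fun x y => by
      refine (abs_add_le _ _).trans ?_
      rw [abs_mul, abs_neg, abs_of_pos hη]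
      nlinarith [abs_nonneg y]
    have e1 : |u.1| ≤ |u0.1| + |z.1| := aux _ _
    have e2 : |u.2| ≤ |u0.2| + |z.2| := aux _ _
    linarith
  have hD : DescD U d V P u z := (hA.2.2 u hune z).2 (by rw [huz]; nlinarith)
  have tS := h.nS_tendsto hP hS hA
  have t1 := ((continuous_bf u u).tendsto A).comp tS
  have t2 := ((continuous_bf u z).tendsto A).comp tS
  filter_upwards [h.ev_valid hP, h.shape_ev hP hS hune hD,
    t1.eventually (lt_mem_nhds (show a0 / 2 < bf A u u by linarith)),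
    t1.eventually (gt_mem_nhds (show bf A u u < a0 + az + 1 by linarith)),
    t2.eventually (lt_mem_nhds (show -(2 * η * az) < bf A u z by rw [huz]; nlinarith))]
    with p hv ⟨t, t', ht, ht', e1, e2, i1, i2⟩ l1 l2 l3
  have hpd := (hS p hv.1 hv.2.1 hv.2.2).pd
  have hσ := Real.sqrt_pos.2 hpd.tr_pos
  simp only [Function.comp] at l1 l2 l3
  rw [bf_nS hpd, dp_nb hpd] at e1 e2 i1 i2
  set σ := √((S p).1 + (S p).2.2)
  set α := bf (nS (S p)) u u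
  set γ := bf (nS (S p)) u z
  set B := nb (S p) (b p)
  have hβ : |dp B u| ≤ ‖B‖ * M :=
    (abs_dp_le B u).trans (mul_le_mul_of_nonneg_left huM (norm_nonneg _))
  have hα : 0 < α := by linarith
  have key : ∀ s : ℝ, 0 < s → s * α ≤ 1 + α + 2 * |dp B u| →
      s * (2 * η * az) ≤ η * (4 * az / a0 * (2 + a0 + az + 2 * M)) * (1 + ‖B‖) := by
    intro s hs h1
    have nB := norm_nonneg B
    have h2 : s * (a0 / 2) ≤ (2 + a0 + az + 2 * M) * (1 + ‖B‖) := by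
      have : s * (a0 / 2) ≤ s * α := mul_le_mul_of_nonneg_left l1.le hs.le
      have h3 : 0 ≤ (2 + a0 + az) * ‖B‖ := by positivity
      nlinarith
    calc s * (2 * η * az) = η * (4 * az / a0) * (s * (a0 / 2)) := by field_simp; ring
      _ ≤ η * (4 * az / a0) * ((2 + a0 + az + 2 * M) * (1 + ‖B‖)) := by gcongr
      _ = _ := by ring
  have k1 := key (t * σ) (by positivity)
    (root_bound (β := dp B u) (by positivity) hα (by linear_combination e1))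
  have k2 := key (t' * σ) (by positivity) (by
    have := root_bound (t := t' * σ) (β := -dp B u) (by positivity) hα (by linear_combination e2)
    rwa [abs_neg] at this)
  have j1 : t * σ * γ + dp B z < 0 := by
    have : σ * (t * σ * γ + dp B z) < 0 := by linear_combination i1
    by_contra hcon
    have := mul_nonneg hσ.le (not_lt.1 hcon)
    linarith
  have j2 : t' * σ * γ - dp B z < 0 := by
    have : σ * (t' * σ * γ - dp B z) < 0 := by linear_combination i2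
    by_contra hcon
    have := mul_nonneg hσ.le (not_lt.1 hcon)
    linarith
  have m1 : t * σ * (-(2 * η * az)) ≤ t * σ * γ := mul_le_mul_of_nonneg_left l3.le (by positivity)
  have m2 : t' * σ * (-(2 * η * az)) ≤ t' * σ * γ := mul_le_mul_of_nonneg_left l3.le (by positivity)
  rw [abs_le]
  constructor <;> linarith

lemma Good.nb_tendsto (h : Good U d ε V ρ) {P : ℝ × ℝ} (hP : P ∈ V)
    {S : (ℝ × ℝ) × ℝ → ℝ × ℝ × ℝ} {b : (ℝ × ℝ) × ℝ → ℝ × ℝ}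
    (hS : ∀ p : (ℝ × ℝ) × ℝ, p.1 ∈ V → 0 < p.2 → p.2 ≤ ρ → Circ U d p.1 p.2 (S p) (b p))
    {A : ℝ × ℝ × ℝ} (hA : Conf U d V P A) {θ : ℝ} (hθ : 0 < θ) :
    ∀ᶠ p in cf P, ‖nb (S p) (b p)‖ ≤ θ := by
  obtain ⟨C1, p1, h1⟩ := h.nb_dir hP hS hA (z := (1, 0)) (by simp)
  obtain ⟨C2, p2, h2⟩ := h.nb_dir hP hS hA (z := (0, 1)) (by simp)
  set η := min 1 (min (1 / 2) (θ / 2) / (C1 + C2)) with hη
  have m0 : 0 < min (1 / 2) (θ / 2) := lt_min (by norm_num) (by linarith)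
  have η0 : 0 < η := lt_min one_pos (by positivity)
  have η1 : η * (C1 + C2) ≤ min (1 / 2) (θ / 2) := by
    rw [← le_div_iff₀ (by positivity)]; exact min_le_right _ _
  have η2 := η1.trans (min_le_left _ _)
  have η3 := η1.trans (min_le_right _ _)
  filter_upwards [h1 η η0 (min_le_left _ _), h2 η η0 (min_le_left _ _)] with p a1 a2
  set B := nb (S p) (b p)
  have nB := norm_nonneg B
  simp only [dp, mul_one, mul_zero, add_zero, zero_add] at a1 a2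
  have a3 : ‖B‖ ≤ η * (C1 + C2) * (1 + ‖B‖) := by
    have b1 : 0 ≤ η * C1 * (1 + ‖B‖) := by positivity
    have b2 : 0 ≤ η * C2 * (1 + ‖B‖) := by positivity
    refine norm_prod_le_iff.2 ⟨?_, ?_⟩ <;> rw [Real.norm_eq_abs] <;> linarith
  nlinarith

lemma quad_err {A S : ℝ × ℝ × ℝ} {b : ℝ × ℝ} (htr : A.1 + A.2.2 = 1) {θ κ : ℝ}
    (h1 : ‖S - A‖ ≤ θ) (h2 : ‖b‖ ≤ θ) (h3 : 3 * θ ≤ κ * (A.1 * A.2.2 - A.2.1 ^ 2))
    (h4 : 2 * θ ≤ κ) (z : ℝ × ℝ) :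
    |bf S z z + 2 * dp b z - bf A z z| ≤ κ * (bf A z z + 1) := by
  have θ0 : 0 ≤ θ := (norm_nonneg _).trans h2
  have c1 : |S.1 - A.1| ≤ θ := by simpa using (norm_fst_le (S - A)).trans h1
  have c2 : |S.2.1 - A.2.1| ≤ θ := by
    simpa using ((norm_fst_le (S - A).2).trans (norm_snd_le (S - A))).trans h1
  have c3 : |S.2.2 - A.2.2| ≤ θ := by
    simpa using ((norm_snd_le (S - A).2).trans (norm_snd_le (S - A))).trans h1
  have c4 : |b.1| ≤ θ := by simpa using (norm_fst_le b).trans h2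
  have c5 : |b.2| ≤ θ := by simpa using (norm_snd_le b).trans h2
  have low : (A.1 * A.2.2 - A.2.1 ^ 2) * (z.1 ^ 2 + z.2 ^ 2) ≤ bf A z z := by
    have : bf A z z * (A.1 + A.2.2) - (A.1 * A.2.2 - A.2.1 ^ 2) * (z.1 ^ 2 + z.2 ^ 2) =
        (A.1 * z.1 + A.2.1 * z.2) ^ 2 + (A.2.1 * z.1 + A.2.2 * z.2) ^ 2 := by
      simp only [bf]; ring
    rw [htr, mul_one] at this
    nlinarith [sq_nonneg (A.1 * z.1 + A.2.1 * z.2), sq_nonneg (A.2.1 * z.1 + A.2.2 * z.2)]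
  have aux : ∀ c y w : ℝ, |c| ≤ θ → |y| ≤ w → |c * y| ≤ θ * w := fun c y w hc hy => by
    rw [abs_mul]; exact mul_le_mul hc hy (abs_nonneg _) θ0
  have d1 := abs_le.1 (aux _ (z.1 ^ 2) (z.1 ^ 2) c1 (by rw [abs_of_nonneg (sq_nonneg _)]))
  have d2 := abs_le.1 (aux _ (2 * z.1 * z.2) (z.1 ^ 2 + z.2 ^ 2) c2 (by
    rw [abs_le]; constructor <;> nlinarith [sq_nonneg (z.1 - z.2), sq_nonneg (z.1 + z.2)]))
  have d3 := abs_le.1 (aux _ (z.2 ^ 2) (z.2 ^ 2) c3 (by rw [abs_of_nonneg (sq_nonneg _)]))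
  have d4 := abs_le.1 (aux _ (2 * z.1) (1 + z.1 ^ 2) c4 (by
    rw [abs_le]; constructor <;> nlinarith [sq_nonneg (z.1 - 1), sq_nonneg (z.1 + 1)]))
  have d5 := abs_le.1 (aux _ (2 * z.2) (1 + z.2 ^ 2) c5 (by
    rw [abs_le]; constructor <;> nlinarith [sq_nonneg (z.2 - 1), sq_nonneg (z.2 + 1)]))
  have e : bf S z z + 2 * dp b z - bf A z z = (S.1 - A.1) * z.1 ^ 2 +
      (S.2.1 - A.2.1) * (2 * z.1 * z.2) + (S.2.2 - A.2.2) * z.2 ^ 2 + b.1 * (2 * z.1) +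
      b.2 * (2 * z.2) := by simp only [bf, dp]; ring
  have κ0 : 0 ≤ κ := by linarith
  have f1 : 3 * θ * (z.1 ^ 2 + z.2 ^ 2) ≤ κ * bf A z z :=
    (mul_le_mul_of_nonneg_right h3 (by positivity)).trans (by
      rw [mul_assoc]; exact mul_le_mul_of_nonneg_left low κ0)
  rw [e, abs_le]
  constructor <;> linarith [d1.1, d1.2, d2.1, d2.2, d3.1, d3.2, d4.1, d4.2, d5.1, d5.2]

/-- uniform local isotropy -/
lemma Good.iso (h : Good U d ε V ρ) {P : ℝ × ℝ} (hP : P ∈ V) {A : ℝ × ℝ × ℝ}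
    (hA : Conf U d V P A) {η : ℝ} (hη : 0 < η) :
    ∀ᶠ q : (ℝ × ℝ) × (ℝ × ℝ) in 𝓝 (P, 0), q.2 ≠ 0 → ∀ v, (1 + η) * bf A v v ≤ bf A q.2 q.2 →
      q.1 + v ∈ U ∧ d q.1 (q.1 + v) ≤ d q.1 (q.1 + q.2) := by
  obtain ⟨S, b, hS⟩ := h.exists_fam
  have hPU := h.sub hP
  set κ := min η 1 / 8 with hκ
  have κ0 : 0 < κ := by have := lt_min hη one_pos; positivity
  have κ1 : 8 * κ ≤ η := by have := min_le_left η 1; linarith
  have κ2 : 8 * κ ≤ 1 := by have := min_le_right η 1; linarith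
  have hdet := hA.1.facts.2.2
  set θ := min (κ * (A.1 * A.2.2 - A.2.1 ^ 2) / 3) (κ / 2) with hθ
  have θ0 : 0 < θ := lt_min (by positivity) (by positivity)
  have θ1 : 3 * θ ≤ κ * (A.1 * A.2.2 - A.2.1 ^ 2) := by
    have := min_le_left (κ * (A.1 * A.2.2 - A.2.1 ^ 2) / 3) (κ / 2); linarith
  have θ2 : 2 * θ ≤ κ := by
    have := min_le_right (κ * (A.1 * A.2.2 - A.2.1 ^ 2) / 3) (κ / 2); linarith
  have e1 : ∀ᶠ p in cf P, ‖nS (S p) - A‖ ≤ θ := by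
    have := (h.nS_tendsto hP hS hA).eventually (Metric.closedBall_mem_nhds A θ0)
    simpa only [Metric.mem_closedBall, dist_eq_norm] using this
  have e2 := (h.ev_valid hP).and (e1.and (h.nb_tendsto hP hS hA θ0))
  have t1 : Tendsto (fun q : (ℝ × ℝ) × (ℝ × ℝ) => q.1) (𝓝 (P, 0)) (𝓝 P) := continuous_fst.tendsto _
  have t2 : Tendsto (fun q : (ℝ × ℝ) × (ℝ × ℝ) => q.1 + q.2) (𝓝 (P, 0)) (𝓝 P) := by
    have : Continuous fun q : (ℝ × ℝ) × (ℝ × ℝ) => q.1 + q.2 := by fun_prop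
    simpa using this.tendsto (P, 0)
  have t3 := h.tendsto hPU hPU t1 t2
  rw [h.self hPU] at t3
  have m1 := t1.eventually (h.isOpen.mem_nhds hPU)
  have m2 := t2.eventually (h.isOpen.mem_nhds hPU)
  have t4 : Tendsto (fun q : (ℝ × ℝ) × (ℝ × ℝ) => (q.1, d q.1 (q.1 + q.2)))
      (𝓝[{q | q.2 ≠ 0}] (P, 0)) (cf P) := by
    refine (t1.mono_left nhdsWithin_le_nhds).prodMk
      (tendsto_nhdsWithin_iff.2 ⟨t3.mono_left nhdsWithin_le_nhds, ?_⟩)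
    filter_upwards [m1.filter_mono nhdsWithin_le_nhds, m2.filter_mono nhdsWithin_le_nhds,
      self_mem_nhdsWithin] with q a1 a2 a3
    exact h.pos _ a1 _ a2 fun he => a3 (by simpa using he)
  filter_upwards [eventually_nhdsWithin_iff.1 (t4.eventually e2), m2] with q a1 a2 hq v hv
  obtain ⟨⟨b1, b2, b3⟩, b4, b5⟩ := a1 hq
  have hc := hS (q.1, d q.1 (q.1 + q.2)) b1 b2 b3
  set S' := S (q.1, d q.1 (q.1 + q.2))
  set b' := b (q.1, d q.1 (q.1 + q.2))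
  have hσ := Real.sqrt_pos.2 hc.pd.tr_pos
  have resc : ∀ z, bf S' z z + 2 * dp b' z = bf (nS S') (√(S'.1 + S'.2.2) • z)
      (√(S'.1 + S'.2.2) • z) + 2 * dp (nb S' b') (√(S'.1 + S'.2.2) • z) := fun z => by
    rw [bf_nS hc.pd, dp_nb hc.pd, bf_smul_left, bf_smul_right, dp_smul_right]; ring
  have c1 := (hc.eq q.2).1 ⟨a2, rfl⟩
  rw [resc] at c1
  have c2 := abs_le.1 (quad_err hA.2.1 b4 b5 θ1 θ2 (√(S'.1 + S'.2.2) • q.2))
  have c3 := abs_le.1 (quad_err hA.2.1 b4 b5 θ1 θ2 (√(S'.1 + S'.2.2) • v))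
  rw [c1] at c2
  rw [← resc] at c3
  have c4 : (1 + η) * bf A (√(S'.1 + S'.2.2) • v) (√(S'.1 + S'.2.2) • v) ≤
      bf A (√(S'.1 + S'.2.2) • q.2) (√(S'.1 + S'.2.2) • q.2) := by
    simp only [bf_smul_left, bf_smul_right]
    nlinarith [mul_le_mul_of_nonneg_left hv (mul_pos hσ hσ).le]
  have c5 := hA.1.nonneg (√(S'.1 + S'.2.2) • v)
  set X := bf A (√(S'.1 + S'.2.2) • v) (√(S'.1 + S'.2.2) • v)
  set Y := bf A (√(S'.1 + S'.2.2) • q.2) (√(S'.1 + S'.2.2) • q.2)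
  have c6 : (1 + 8 * κ) * X * (1 - κ) ≤ 1 + κ := by
    have : (1 + 8 * κ) * X ≤ Y := by nlinarith
    nlinarith [c2.1]
  have c7 : X * (1 + κ) + κ < 1 := by
    by_contra hcon
    have g1 : 1 - κ ≤ X * (1 + κ) := by linarith
    have g2 : (1 + 8 * κ) * (1 - κ) * (1 - κ) ≤ (1 + 8 * κ) * (1 - κ) * (X * (1 + κ)) :=
      mul_le_mul_of_nonneg_left g1 (mul_nonneg (by linarith) (by linarith))
    have g3 : (1 + 8 * κ) * X * (1 - κ) * (1 + κ) ≤ (1 + κ) * (1 + κ) :=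
      mul_le_mul_of_nonneg_right c6 (by linarith)
    nlinarith [mul_pos κ0 κ0, mul_pos κ0 (mul_pos κ0 κ0)]
  have c8 := (hc.lt v).2 (by linarith [c3.2])
  exact ⟨c8.1, c8.2.le⟩

end Pool.Agent.Lib.PC37
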