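import Pool.Agent.Lib.PC37.Riem
import Pool.Agent.Lib.PC37.Defs

set_option autoImplicit false

open Set Filter Topology

namespace Pool.Agent.Lib.PC37

open Pool.Agent.Lib.MP_deb346_gt

variable {U : Set (ℝ × ℝ)} {d : ℝ × ℝ → ℝ × ℝ → ℝ} {ε : ℝ}

lemma ev_ne (c m : ℝ) (hm : m ≠ 0) : ∀ᶠ t in 𝓝[≠] (0 : ℝ), c + t * m ≠ 0 := by
  by_cases hc : c = 0
  · filter_upwards [self_mem_nhdsWithin] with t ht
    rw [hc, zero_add]; exact mul_ne_zero ht hm
  · have : ContinuousAt (fun t : ℝ => c + t * m) 0 := by fun_prop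
    exact (this.eventually_ne (by simpa using hc)).filter_mono nhdsWithin_le_nhds

lemma killing_zero {Ω : Set (ℝ × ℝ)} (hΩ : IsOpen Ω) {a : ℝ × ℝ → ℝ × ℝ × ℝ}
    (ha : ∀ P ∈ Ω, ∀ e : ℝ × ℝ, P + e ∈ Ω → bf (a (P + e)) e e = bf (a P) e e) {O : ℝ × ℝ} {h : ℝ}
    (hh : h ≠ 0) (h0 : O ∈ Ω) (h1 : O + (h, 0) ∈ Ω) (h2 : O + (0, h) ∈ Ω) (z0 : a O = 0)
    (z1 : a (O + (h, 0)) = 0) (z2 : a (O + (0, h)) = 0) : ∀ Q ∈ Ω, a Q = 0 := by
  have van : ∀ R ∈ Ω, a R = 0 → ∀ Q ∈ Ω, bf (a Q) (Q - R) (Q - R) = 0 := fun R hR z Q hQ => by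
    have := ha R hR (Q - R) (by simpa using hQ)
    rw [add_sub_cancel, z] at this
    rw [this]; simp [bf]
  have gen : ∀ Q ∈ Ω, Q.1 - O.1 ≠ 0 → Q.2 - O.2 ≠ 0 → Q.1 - O.1 + (Q.2 - O.2) - h ≠ 0 →
      a Q = 0 := fun Q hQ n1 n2 n3 => by
    have e0 := van _ h0 z0 Q hQ
    have e1 := van _ h1 z1 Q hQ
    have e2 := van _ h2 z2 Q hQ
    simp only [bf, Prod.fst_sub, Prod.snd_sub, Prod.fst_add, Prod.snd_add, add_zero] at e0 e1 e2
    rw [show Q.1 - (O.1 + h) = Q.1 - O.1 - h by ring] at e1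
    rw [show Q.2 - (O.2 + h) = Q.2 - O.2 - h by ring] at e2
    set X := Q.1 - O.1
    set Y := Q.2 - O.2
    have f1 : (a Q).1 * (h - 2 * X) - 2 * (a Q).2.1 * Y = 0 := by
      apply mul_left_cancel₀ hh; linear_combination e1 - e0
    have f2 : (a Q).2.2 * (h - 2 * Y) - 2 * (a Q).2.1 * X = 0 := by
      apply mul_left_cancel₀ hh; linear_combination e2 - e0
    have g1 : (a Q).1 = 0 := by
      have : (a Q).1 * (X * h * (X + Y - h)) = 0 := by
        linear_combination -(h - 2 * Y) * e0 - X * (h - Y) * f1 + Y ^ 2 * f2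
      exact (mul_eq_zero.1 this).resolve_right (mul_ne_zero (mul_ne_zero n1 hh) n3)
    have g2 : (a Q).2.1 = 0 := by
      apply mul_right_cancel₀ n2
      linear_combination (-1 / 2 : ℝ) * f1 + (h - 2 * X) / 2 * g1
    have g3 : (a Q).2.2 = 0 := by
      apply mul_right_cancel₀ (mul_ne_zero n2 n2)
      linear_combination e0 - X * X * g1 - 2 * X * Y * g2
    exact Prod.ext g1 (Prod.ext g2 g3)
  intro Q hQ
  have dir : ∀ v : ℝ × ℝ, v.1 ≠ 0 → v.2 ≠ 0 → v.1 + v.2 ≠ 0 → bf (a Q) v v = 0 := by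
    intro v n1 n2 n3
    have hc : Continuous fun t : ℝ => Q + t • v := by fun_prop
    have e1 : ∀ᶠ t : ℝ in 𝓝 0, Q + t • v ∈ Ω :=
      hc.continuousAt.eventually_mem (by simpa using hΩ.mem_nhds hQ)
    obtain ⟨t, ⟨⟨⟨b1, b2⟩, b3⟩, b4⟩, b5⟩ := (((((e1.filter_mono nhdsWithin_le_nhds).and
      (ev_ne (Q.1 - O.1) _ n1)).and (ev_ne (Q.2 - O.2) _ n2)).and
      (ev_ne (Q.1 - O.1 + (Q.2 - O.2) - h) _ n3)).and eventually_mem_nhdsWithin).exists
    have c1 := gen _ b1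
      (by simp only [Prod.fst_add, Prod.smul_fst, smul_eq_mul]; intro h; apply b2; linarith)
      (by simp only [Prod.snd_add, Prod.smul_snd, smul_eq_mul]; intro h; apply b3; linarith)
      (by simp only [Prod.fst_add, Prod.smul_fst, Prod.snd_add, Prod.smul_snd, smul_eq_mul]
          intro h; apply b4; linarith)
    have c2 := ha Q hQ _ b1
    rw [c1, bf_smul_left (a Q), bf_smul_right (a Q)] at c2
    have t0 : t ≠ 0 := b5
    have c3 : t * (t * bf (a Q) v v) = 0 := by rw [← c2]; simp [bf]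
    exact (mul_eq_zero.1 ((mul_eq_zero.1 c3).resolve_left t0)).resolve_left t0
  have d1 := dir (1, 1) (by norm_num) (by norm_num) (by norm_num)
  have d2 := dir (1, 2) (by norm_num) (by norm_num) (by norm_num)
  have d3 := dir (2, 1) (by norm_num) (by norm_num) (by norm_num)
  simp only [bf] at d1 d2 d3
  exact Prod.ext (by simp only [Prod.fst_zero]; linarith)
    (Prod.ext (by simp only [Prod.fst_zero, Prod.snd_zero]; linarith)
      (by simp only [Prod.snd_zero]; linarith))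

/-- the general solution -/
def kil (S : ℝ × ℝ × ℝ) (α β γ : ℝ) (X : ℝ × ℝ) : ℝ × ℝ × ℝ :=
  (S.1 - 2 * α * X.2 + γ * X.2 ^ 2, S.2.1 + α * X.1 - β * X.2 - γ * X.1 * X.2,
    S.2.2 + 2 * β * X.1 + γ * X.1 ^ 2)

lemma killing {Ω : Set (ℝ × ℝ)} (hΩ : IsOpen Ω) {a : ℝ × ℝ → ℝ × ℝ × ℝ}
    (ha : ∀ P ∈ Ω, ∀ e : ℝ × ℝ, P + e ∈ Ω → bf (a (P + e)) e e = bf (a P) e e) {O : ℝ × ℝ}
    (h0 : O ∈ Ω) : ∃ α β γ : ℝ, ∀ P ∈ Ω, a P = kil (a O) α β γ (P - O) := by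
  obtain ⟨h, ⟨h1, h2⟩, hh⟩ := ((((tendsto_ray O (1, 0)).eventually (hΩ.mem_nhds h0)).and
    ((tendsto_ray O (0, 1)).eventually (hΩ.mem_nhds h0))).and eventually_mem_nhdsWithin).exists
  have hp : h ≠ 0 := (mem_Ioi.1 hh).ne'
  have r1 : h • ((1, 0) : ℝ × ℝ) = (h, 0) := by simp
  have r2 : h • ((0, 1) : ℝ × ℝ) = (0, h) := by simp
  rw [r1] at h1
  rw [r2] at h2
  have r3 : O + (h, 0) + (-h, h) = O + (0, h) := by ext <;> simp
  have c1 := ha O h0 _ h1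
  have c2 := ha O h0 _ h2
  have c3 := ha _ h1 (-h, h) (r3 ▸ h2)
  rw [r3] at c3
  simp only [bf, mul_zero, add_zero, zero_add, zero_mul] at c1 c2 c3
  have c1' := mul_right_cancel₀ hp (mul_right_cancel₀ hp c1)
  have c2' := mul_right_cancel₀ hp (mul_right_cancel₀ hp c2)
  have c3' : (a (O + (0, h))).1 - 2 * (a (O + (0, h))).2.1 + (a (O + (0, h))).2.2 =
      (a (O + (h, 0))).1 - 2 * (a (O + (h, 0))).2.1 + (a (O + (h, 0))).2.2 := by
    apply mul_right_cancel₀ (mul_ne_zero hp hp); linear_combination c3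
  set α := ((a (O + (h, 0))).2.1 - (a O).2.1) / h with hα
  set β := ((a O).2.1 - (a (O + (0, h))).2.1) / h with hβ
  set γ := ((a (O + (0, h))).1 - (a O).1 + 2 * α * h) / h ^ 2 with hγ
  have eα : α * h = (a (O + (h, 0))).2.1 - (a O).2.1 := by rw [hα]; field_simp
  have eβ : β * h = (a O).2.1 - (a (O + (0, h))).2.1 := by rw [hβ]; field_simp
  have eγ : γ * h ^ 2 = (a (O + (0, h))).1 - (a O).1 + 2 * α * h := by rw [hγ]; field_simp
  refine ⟨α, β, γ, fun P hP => sub_eq_zero.1 (killing_zero hΩ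
    (a := fun P => a P - kil (a O) α β γ (P - O)) (fun P hP e hPe => ?_) hp h0 h1 h2 ?_ ?_ ?_ P hP)⟩
  · have := ha P hP e hPe
    simp only [bf, kil, Prod.fst_sub, Prod.snd_sub, Prod.fst_add, Prod.snd_add] at this ⊢
    linear_combination this
  · simp [kil]
  · simp only [add_sub_cancel_left, kil, sub_eq_zero]
    exact Prod.ext (by simp only; linarith) (Prod.ext (by simp only; linarith)
      (by simp only; linarith))
  · simp only [add_sub_cancel_left, kil, sub_eq_zero]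
    exact Prod.ext (by simp only; linarith) (Prod.ext (by simp only; linarith)
      (by simp only; linarith))

/-- homogeneous coordinates of a direction -/
def dir (v : ℝ × ℝ) : Fin 3 → ℝ := ![v.1, v.2, 0]

/-- model bilinear form -/
def Bk (κ : ℝ) (p q : Fin 3 → ℝ) : ℝ := κ * (p 0 * q 0 + p 1 * q 1) + p 2 * q 2

/-- model dual form -/
def Wk (κ : ℝ) (p r : Fin 3 → ℝ) : ℝ :=
  (p 1 * r 2 - p 2 * r 1) ^ 2 + (p 2 * r 0 - p 0 * r 2) ^ 2 + κ * (p 0 * r 1 - p 1 * r 0) ^ 2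

theorem model {Ω : Set (ℝ × ℝ)} (hΩ : IsOpen Ω) (hc : Convex ℝ Ω) (hne : Ω.Nonempty)
    (h : LocLoc Ω d) : ∃ (T : (Fin 3 → ℝ) ≃ₗ[ℝ] (Fin 3 → ℝ)) (κ c : ℝ),
      (κ = 1 ∨ κ = 0 ∨ κ = -1) ∧ 0 < c ∧ ∀ P ∈ Ω, 0 < Bk κ (T (hom P)) (T (hom P)) ∧
        ∀ v : ℝ × ℝ, v ≠ 0 → 0 < Wk κ (T (hom P)) (T (dir v)) ∧
          Tendsto (fun y : ℝ => d P (P + y • v) / y) (𝓝[>] 0)
            (𝓝 (c * √(Wk κ (T (hom P)) (T (dir v))) / Bk κ (T (hom P)) (T (hom P)))) := by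
  obtain ⟨a, ha1, ha2⟩ := exists_a hc h
  obtain ⟨O, hO⟩ := hne
  obtain ⟨α, β, γ, hk⟩ := killing hΩ ha2 hO
  obtain ⟨E0, G0, D0⟩ := (ha1 O hO).1.facts
  obtain ⟨p, p0, hp⟩ : ∃ p : ℝ, 0 < p ∧ (a O).1 = p ^ 2 :=
    ⟨√(a O).1, Real.sqrt_pos.2 E0, (Real.sq_sqrt E0.le).symm⟩
  obtain ⟨q, hq⟩ : ∃ q : ℝ, (a O).2.1 = p * q := ⟨(a O).2.1 / p, by field_simp⟩
  obtain ⟨r, r0, hr⟩ : ∃ r : ℝ, 0 < r ∧ (a O).2.2 = q ^ 2 + r ^ 2 := by
    have : 0 < (a O).2.2 - q ^ 2 := by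
      rw [hp, hq] at D0
      have e : p ^ 2 * (a O).2.2 - (p * q) ^ 2 = p ^ 2 * ((a O).2.2 - q ^ 2) := by ring
      rw [e] at D0
      exact (pos_iff_pos_of_mul_pos D0).1 (by positivity)
    exact ⟨√((a O).2.2 - q ^ 2), Real.sqrt_pos.2 this, by rw [Real.sq_sqrt this.le]; ring⟩
  obtain ⟨c1, c2, hα, hβ⟩ : ∃ c1 c2 : ℝ, α = p * (p * c1 + q * c2) ∧
      β = q * (p * c1 + q * c2) + r ^ 2 * c2 :=
    ⟨(α / p - q * ((β - q * (α / p)) / r ^ 2)) / p, (β - q * (α / p)) / r ^ 2,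
      by field_simp; ring, by field_simp; ring⟩
  obtain ⟨κ, s, hκ, s0, hγ⟩ : ∃ κ s : ℝ, (κ = 1 ∨ κ = 0 ∨ κ = -1) ∧ 0 < s ∧
      γ = (p * c1 + q * c2) ^ 2 + (r * c2) ^ 2 + κ * s ^ 2 * (p * r) ^ 2 := by
    set g := γ - (p * c1 + q * c2) ^ 2 - (r * c2) ^ 2 with hg
    rcases lt_trichotomy g 0 with h1 | h1 | h1
    · refine ⟨-1, √(-g) / (p * r), by simp, div_pos (Real.sqrt_pos.2 (by linarith))
        (by positivity), ?_⟩
      rw [div_pow, Real.sq_sqrt (by linarith), hg]; field_simp; ring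
    · exact ⟨0, 1, by simp, one_pos, by linarith⟩
    · refine ⟨1, √g / (p * r), by simp, div_pos (Real.sqrt_pos.2 h1) (by positivity), ?_⟩
      rw [div_pow, Real.sq_sqrt h1.le, hg]; field_simp; ring
  set M : Matrix (Fin 3) (Fin 3) ℝ := !![s * p, s * q, -(s * p * O.1) - s * q * O.2;
    0, s * r, -(s * r * O.2); c2, -c1, 1 - c2 * O.1 + c1 * O.2] with hM
  have hdet : M.det = s ^ 2 * p * r := by
    rw [hM, Matrix.det_fin_three]; simp; ring
  have hu : IsUnit M.det := by rw [hdet]; exact (by positivity : s ^ 2 * p * r ≠ 0).isUnit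
  have hT : ∀ z, (M.toLinearEquiv' (Matrix.invertibleOfIsUnitDet M hu)) z = M.mulVec z :=
    fun z => rfl
  have hl : ∀ P : ℝ × ℝ, M.mulVec (hom P) = ![s * (p * (P.1 - O.1) + q * (P.2 - O.2)),
      s * r * (P.2 - O.2), 1 + c2 * (P.1 - O.1) - c1 * (P.2 - O.2)] := fun P => by
    ext i; fin_cases i <;> simp [hM, hom, Matrix.mulVec, dotProduct, Fin.sum_univ_three] <;> ring
  have hd : ∀ v : ℝ × ℝ, M.mulVec (dir v) = ![s * (p * v.1 + q * v.2),
      s * r * v.2, c2 * v.1 - c1 * v.2] := fun P => by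
    ext i; fin_cases i <;> simp [hM, dir, Matrix.mulVec, dotProduct, Fin.sum_univ_three] <;> ring
  refine ⟨M.toLinearEquiv' (Matrix.invertibleOfIsUnitDet M hu), κ, (s * (p * r) ^ 2)⁻¹, hκ,
    by positivity, fun P hP => ?_⟩
  have e1 : dt (a P) = (p * r) ^ 2 * Bk κ (M.mulVec (hom P)) (M.mulVec (hom P)) := by
    rw [hk P hP, hl]
    simp only [dt, kil, Bk, hp, hq, hr, hα, hβ, hγ, Prod.fst_sub, Prod.snd_sub,
      Matrix.cons_val_zero, Matrix.cons_val_one, Matrix.cons_val_two, Matrix.head_cons,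
      Matrix.tail_cons]
    ring
  have e2 : ∀ v, Wk κ (M.mulVec (hom P)) (M.mulVec (dir v)) = s ^ 2 * bf (a P) v v := fun v => by
    rw [hk P hP, hl, hd]
    simp only [bf, kil, Wk, hp, hq, hr, hα, hβ, hγ, Prod.fst_sub, Prod.snd_sub,
      Matrix.cons_val_zero, Matrix.cons_val_one, Matrix.cons_val_two, Matrix.head_cons,
      Matrix.tail_cons]
    ring
  have d0 := (ha1 P hP).1.dt_pos
  have b0 : 0 < Bk κ (M.mulVec (hom P)) (M.mulVec (hom P)) := by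
    rw [e1] at d0
    exact (pos_iff_pos_of_mul_pos d0).1 (by positivity)
  simp only [hT]
  refine ⟨b0, fun v hv => ⟨by rw [e2]; exact mul_pos (by positivity) ((ha1 P hP).1 v hv), ?_⟩⟩
  have := (ha1 P hP).2 v hv
  rw [e2, Real.sqrt_mul (by positivity), Real.sqrt_sq s0.le]
  rw [e1] at this
  refine this.trans (le_of_eq (congrArg 𝓝 ?_))
  field_simp

lemma Loc.integrate (h : Loc U d ε) {x e : ℝ × ℝ} {a b : ℝ} (hab : a ≤ b) (ha : x + a • e ∈ U)
    (hb : x + b • e ∈ U) {g g' : ℝ → ℝ} (hg : ∀ t ∈ Icc a b, HasDerivAt g (g' t) t)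
    (hs : ∀ t ∈ Icc a b, Tendsto (fun y : ℝ => d (x + t • e) (x + t • e + y • e) / y) (𝓝[>] 0)
      (𝓝 (g' t))) : d (x + a • e) (x + b • e) = g b - g a := by
  have := eq_of_has_deriv_right_eq (f := fun t => d (x + a • e) (x + t • e))
    (g := fun t => g t - g a) (f' := g') (a := a) (b := b)
    (fun t ht => deriv_right_of (g := fun y => d (x + t • e) (x + t • e + y • e)) (by
      filter_upwards [self_mem_nhdsWithin,
        nhdsWithin_le_nhds (gt_mem_nhds (sub_pos.2 ht.2))] with y a1 a2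
      have y0 : (0 : ℝ) < y := a1
      have a3 := h.addl (t := t + y) ht.1 (by linarith) ha
        (convex_line h.convex (by linarith [ht.1]) (by linarith) ha hb)
      rw [add_assoc, ← add_smul]
      linarith) (hs t (Ico_subset_Icc_self ht)))
    (fun t ht => ((hg t (Ico_subset_Icc_self ht)).sub_const _).hasDerivWithinAt)
    (h.contOn_ray ha ha hb)
    (fun t ht => ((hg t ht).sub_const _).continuousAt.continuousWithinAt)
    (by simp [h.self ha]) b ⟨hab, le_rfl⟩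
  exact this

end Pool.Agent.Lib.PC37
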