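import Pool.Agent.Lib.PC37.Tang

set_option autoImplicit false

open Set Filter Topology

namespace Pool.Agent.Lib.PC37

variable {U V : Set (ℝ × ℝ)} {d : ℝ × ℝ → ℝ × ℝ → ℝ} {ε ρ : ℝ}

/-- slope of the orthogonal direction -/
noncomputable def kap (A : ℝ × ℝ × ℝ) (e w : ℝ × ℝ) : ℝ := -(bf A e w / bf A e e)

lemma bf_kap {A : ℝ × ℝ × ℝ} {e : ℝ × ℝ} (h : bf A e e ≠ 0) (w : ℝ × ℝ) :
    bf A e (w + kap A e w • e) = 0 := by
  rw [bf_add_right, bf_smul_right, kap]; field_simp; ring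

lemma max_aux {φ ψ : ℝ → ℝ} {a b : ℝ} (hab : a ≤ b) (hφ : ContinuousOn φ (Icc a b))
    (hm : StrictMonoOn ψ (Icc a b)) (ha : φ a = 0) (hb : φ b = 0)
    (H : ∀ f ∈ Ioo a b, ∃ t1 ∈ Ico a f, ∃ t2 ∈ Ioc f b, (t1 = a ∨ t2 = b) ∧
      ∃ l : ℝ, φ t1 - φ f = l * (ψ t1 - ψ f) ∧ φ t2 - φ f = l * (ψ t2 - ψ f)) :
    ∀ f ∈ Icc a b, φ f ≤ 0 := by
  obtain ⟨f, hf, hmax⟩ := isCompact_Icc.exists_isMaxOn (nonempty_Icc.2 hab) hφ
  suffices h : φ f ≤ 0 from fun t ht => (hmax ht).trans h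
  by_contra hcon
  have p := not_le.1 hcon
  have f1 : a < f := lt_of_le_of_ne hf.1 fun e => by rw [← e, ha] at p; exact lt_irrefl _ p
  have f2 : f < b := lt_of_le_of_ne hf.2 fun e => by rw [e, hb] at p; exact lt_irrefl _ p
  obtain ⟨t1, h1, t2, h2, hend, l, e1, e2⟩ := H f ⟨f1, f2⟩
  have m1 : t1 ∈ Icc a b := ⟨h1.1, h1.2.le.trans hf.2⟩
  have m2 : t2 ∈ Icc a b := ⟨hf.1.trans h2.1.le, h2.2⟩
  have a1 : φ t1 ≤ φ f := hmax m1
  have a2 : φ t2 ≤ φ f := hmax m2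
  have b1 := hm m1 hf h1.2
  have b2 := hm hf m2 h2.1
  have l1 : 0 ≤ l := by
    by_contra hl
    nlinarith [mul_pos_of_neg_of_neg (not_le.1 hl) (sub_neg.2 b1)]
  have l2 : l ≤ 0 := by
    by_contra hl
    nlinarith [mul_pos (not_le.1 hl) (sub_pos.2 b2)]
  rw [le_antisymm l2 l1, zero_mul] at e1 e2
  rcases hend with rfl | rfl <;> linarith

lemma max_principle {κ ψ : ℝ → ℝ} {a b : ℝ} (hab : a < b) (hκ : ContinuousOn κ (Icc a b))
    (hψ : ContinuousOn ψ (Icc a b)) (hm : StrictMonoOn ψ (Icc a b))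
    (H : ∀ f ∈ Ioo a b, ∃ t1 ∈ Ico a f, ∃ t2 ∈ Ioc f b, (t1 = a ∨ t2 = b) ∧
      ∃ l : ℝ, κ t1 - κ f = l * (ψ t1 - ψ f) ∧ κ t2 - κ f = l * (ψ t2 - ψ f)) :
    ∃ m : ℝ, ∀ f ∈ Icc a b, κ f - κ a = m * (ψ f - ψ a) := by
  have p := sub_pos.2 (hm (left_mem_Icc.2 hab.le) (right_mem_Icc.2 hab.le) hab)
  set m := (κ b - κ a) / (ψ b - ψ a) with hmd
  have e : κ b - κ a = m * (ψ b - ψ a) := by rw [hmd]; field_simp
  have c : ContinuousOn (fun t => κ t - κ a - m * (ψ t - ψ a)) (Icc a b) := by fun_prop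
  have h1 := max_aux hab.le c hm (by ring) (by linarith) fun f hf => by
    obtain ⟨t1, h1, t2, h2, hend, l, e1, e2⟩ := H f hf
    exact ⟨t1, h1, t2, h2, hend, l - m, by linarith, by linarith⟩
  have h2 := max_aux (φ := fun t => -(κ t - κ a - m * (ψ t - ψ a))) hab.le c.neg hm (by ring)
    (by linarith) fun f hf => by
      obtain ⟨t1, h1, t2, h2, hend, l, e1, e2⟩ := H f hf
      exact ⟨t1, h1, t2, h2, hend, m - l, by linarith, by linarith⟩
  exact ⟨m, fun f hf => by linarith [h1 f hf, h2 f hf]⟩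

lemma Loc.exists_sym (h : Loc U d ε) {P e : ℝ × ℝ} (he : e ≠ 0) {a b f : ℝ} (ha : P + a • e ∈ U)
    (hb : P + b • e ∈ U) (hf : f ∈ Ioo a b) :
    ∃ t1 ∈ Ico a f, ∃ t2 ∈ Ioc f b, (t1 = a ∨ t2 = b) ∧ 0 < d (P + f • e) (P + t1 • e) ∧
      d (P + f • e) (P + t2 • e) = d (P + f • e) (P + t1 • e) := by
  have hF := convex_line h.convex hf.1.le hf.2.le ha hb
  have pos : ∀ t, t ≠ f → P + t • e ∈ U → 0 < d (P + f • e) (P + t • e) := fun t ht htU =>
    h.pos _ hF _ htU fun he2 => ht (smul_left_injective ℝ he (add_left_cancel he2)).symm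
  have pa := pos a hf.1.ne ha
  have pb := pos b hf.2.ne' hb
  rcases le_total (d (P + f • e) (P + a • e)) (d (P + f • e) (P + b • e)) with hle | hle
  · obtain ⟨t, ht, e1⟩ := intermediate_value_Icc hf.2.le (h.contOn_ray hF hF hb)
      (show d (P + f • e) (P + a • e) ∈ Icc _ _ from ⟨by simpa [h.self hF] using pa.le, hle⟩)
    refine ⟨a, ⟨le_rfl, hf.1⟩, t, ⟨lt_of_le_of_ne ht.1 fun e2 => ?_, ht.2⟩, Or.inl rfl, pa, e1⟩
    rw [← e2] at e1
    simp only [h.self hF] at e1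
    linarith
  · obtain ⟨t, ht, e1⟩ := intermediate_value_Icc' hf.1.le (h.contOn_ray hF ha hF)
      (show d (P + f • e) (P + b • e) ∈ Icc _ _ from ⟨by simpa [h.self hF] using pb.le, hle⟩)
    refine ⟨t, ⟨ht.1, lt_of_le_of_ne ht.2 fun e2 => ?_⟩, b, ⟨hf.2, le_rfl⟩, Or.inr rfl,
      pb.trans_eq e1.symm, e1.symm⟩
    rw [e2] at e1
    simp only [h.self hF] at e1
    linarith

/-- a neighbourhood whose small circles stay in a given set -/
structure Small (U : Set (ℝ × ℝ)) (d : ℝ × ℝ → ℝ × ℝ → ℝ) (V W : Set (ℝ × ℝ)) (δ : ℝ) : Prop where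
  isOpen : IsOpen W
  convex : Convex ℝ W
  sub : W ⊆ V
  pos : 0 < δ
  small : ∀ F ∈ W, ∀ X ∈ W, d F X < δ
  stay : ∀ F ∈ W, ∀ X ∈ U, d F X ≤ δ → X ∈ V

lemma Good.exists_small (h : Good U d ε V ρ) {P : ℝ × ℝ} (hP : P ∈ V) {V' : Set (ℝ × ℝ)}
    (hV' : V' ∈ 𝓝 P) {ρ' : ℝ} (ρ0 : 0 < ρ') : ∃ W δ, P ∈ W ∧ δ < ρ' ∧ Small U d V' W δ := by
  have hPU := h.sub hP
  obtain ⟨R, R0, hR⟩ := Metric.nhds_basis_closedBall.mem_iff.1
    (inter_mem hV' (h.isOpen.mem_nhds hPU))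
  have hsU : Metric.sphere P R ⊆ U := fun X hX => (hR (Metric.sphere_subset_closedBall hX)).2
  have hcont : ContinuousOn (fun X => d P X) U := fun X hX =>
    (h.tendsto hPU hX tendsto_const_nhds tendsto_id).mono_left nhdsWithin_le_nhds
  obtain ⟨X0, hX0, hmin⟩ := (isCompact_sphere P R).exists_isMinOn
    (NormedSpace.sphere_nonempty.2 R0.le) (hcont.mono hsU)
  have hm : 0 < d P X0 := h.pos _ hPU _ (hsU hX0) fun he => by
    rw [← he, Metric.mem_sphere, dist_self] at hX0; linarith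
  have far : ∀ X ∈ U, d P X < d P X0 → X ∈ V' := fun X hX hlt => by
    by_contra hcon
    have h1 : R < ‖X - P‖ := by
      by_contra h2
      exact hcon (hR (by rw [mem_closedBall_iff_norm]; exact not_lt.1 h2)).1
    have n0 : 0 < ‖X - P‖ := R0.trans h1
    have h3 : P + (R / ‖X - P‖) • (X - P) ∈ Metric.sphere P R := by
      rw [mem_sphere_iff_norm, add_sub_cancel_left, norm_smul, Real.norm_eq_abs,
        abs_of_pos (by positivity), div_mul_cancel₀ _ n0.ne']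
    have h4 := h.ray_le (x := P) (u := X - P) (s := R / ‖X - P‖) (t := 1) (by positivity)
      ((div_le_one n0).2 h1.le) hPU (by simpa using hX)
    have h5 : d P X0 ≤ d P (P + (R / ‖X - P‖) • (X - P)) := hmin h3
    simp only [one_smul, add_sub_cancel] at h4
    linarith
  set δ := min (d P X0 / 2) (ρ' / 2) with hδ
  have δ0 : 0 < δ := lt_min (by linarith) (by linarith)
  have δ1 : δ ≤ d P X0 / 2 := min_le_left _ _
  have δ2 : δ ≤ ρ' / 2 := min_le_right _ _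
  have hev : ∀ᶠ X in 𝓝 P, d P X < δ / 2 := by
    have := h.tendsto hPU hPU tendsto_const_nhds tendsto_id
    rw [h.self hPU] at this
    exact this.eventually (gt_mem_nhds (by linarith))
  obtain ⟨η, η0, hb⟩ := Metric.eventually_nhds_iff_ball.1 (hev.and (h.isOpen.mem_nhds hPU))
  refine ⟨Metric.ball P η, δ, Metric.mem_ball_self η0, by linarith, Metric.isOpen_ball,
    convex_ball _ _, fun X hX => far X (hb X hX).2 (by linarith [(hb X hX).1]), δ0,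
    fun F hF X hX => ?_, fun F hF X hX hle => far X hX ?_⟩
  · have := h.tri F (hb F hF).2 P hPU X (hb X hX).2
    rw [h.symm F (hb F hF).2 P hPU] at this
    linarith [(hb F hF).1, (hb X hX).1]
  · linarith [h.tri P hPU F (hb F hF).2 X hX, (hb F hF).1]

/-- the circle of radius `r` about `F`, written with the polar line of `F` -/
def Cir (U : Set (ℝ × ℝ)) (d : ℝ × ℝ → ℝ × ℝ → ℝ) (A : ℝ × ℝ → ℝ × ℝ × ℝ) (F : ℝ × ℝ) (r k : ℝ)
    (b : ℝ × ℝ) : Prop :=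
  ∀ v, F + v ∈ U → d F (F + v) = r → k * bf (A F) v v = (1 - dp b v) ^ 2 ∧ 0 < 1 - dp b v ∧
    ∃ c : ℝ, ∀ z, k * bf (A F) v z + (1 - dp b v) * dp b z = c * bf (A (F + v)) v z

variable {A : ℝ × ℝ → ℝ × ℝ × ℝ} {W W' : Set (ℝ × ℝ)} {δ δ' : ℝ}

lemma Good.cir (h : Good U d ε V ρ) (hA : ∀ P ∈ V, Conf U d V P (A P)) (hW : Small U d V W δ)
    (hδ : δ < ρ) {F : ℝ × ℝ} (hF : F ∈ W) {r : ℝ} (r0 : 0 < r) (hr : r ≤ δ) :
    ∃ k b, Cir U d A F r k b := by
  have hFV := hW.sub hF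
  obtain ⟨S, b, hc⟩ := h.exists_circ hFV r0 (by linarith)
  obtain ⟨k, -, hk⟩ := h.tang hA hFV r0 (by linarith) hc fun X hX e => hW.stay F hF X hX (e ▸ hr)
  have key : ∀ v z, k * bf (A F) v z = bf S v z + dp b v * dp b z := fun v z => by
    rw [← bf_smul, ← hk, bf_add]
    simp only [bf, sp, dp]; ring
  refine ⟨k, b, fun v hv e => ?_⟩
  have q := (hc.eq v).1 ⟨hv, e⟩
  have hX := hW.stay F hF _ hv (e ▸ hr)
  have v0 : v ≠ 0 := by
    rintro rfl
    simp [bf, dp] at q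
  refine ⟨by rw [key]; linear_combination q, by linarith [hc.pd.nonneg v], ?_⟩
  obtain ⟨c, -, hcc⟩ := half_le (n := av (A (F + v)) v) (n' := av S v + b)
    (dp_ne (v := v) (by rw [dp_av]; exact (hA _ hX).1 v v0)) fun z hz => by
      rw [dp_av, ← (hA _ hX).2.2 v v0, h.descD_iff hX v0 one_pos (by simpa using hFV)] at hz
      simp only [one_smul, add_sub_cancel_right] at hz
      have := (hc.desc_iff q z).1 hz
      simp only [dp, bf, av, Prod.fst_add, Prod.snd_add] at this ⊢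
      linarith
  refine ⟨c, fun z => ?_⟩
  have := congrArg (fun n => dp n z) hcc
  simp only [dp_smul_left, dp_av] at this
  rw [key, ← this]
  simp only [dp, bf, av, Prod.fst_add, Prod.snd_add]; ring

lemma Cir.slope {F e : ℝ × ℝ} {r k : ℝ} {b : ℝ × ℝ} (hc : Cir U d A F r k b) {s : ℝ}
    (hU : F + s • e ∈ U) (hr : d F (F + s • e) = r) (h1 : bf (A F) e e ≠ 0)
    (h2 : bf (A (F + s • e)) e e ≠ 0) (w : ℝ × ℝ) :
    kap (A (F + s • e)) e w - kap (A F) e w = -dp b (w + kap (A F) e w • e) * s := by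
  obtain ⟨a1, a2, c, a3⟩ := hc _ hU hr
  have a4 := a3 (w + kap (A (F + s • e)) e w • e)
  have a5 := bf_kap h1 w
  rw [bf_smul_left (A (F + s • e)), bf_kap h2] at a4
  simp only [bf_smul_left, bf_smul_right, bf_add_right, dp_add_right, dp_smul_right] at a1 a2 a4 a5 ⊢
  apply mul_left_cancel₀ a2.ne'
  linear_combination s * a4 - k * s ^ 2 * a5 -
    (kap (A (F + s • e)) e w - kap (A F) e w) * a1

lemma Good.contOn_A (h : Good U d ε V ρ) (hA : ∀ P ∈ V, Conf U d V P (A P)) {P e : ℝ × ℝ}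
    {I : Set ℝ} (hI : ∀ t ∈ I, P + t • e ∈ V) : ContinuousOn (fun t : ℝ => A (P + t • e)) I :=
  fun t ht => (ContinuousAt.comp (f := fun t : ℝ => P + t • e) (h.conf_cont hA (hI t ht))
    (by fun_prop)).continuousWithinAt

lemma Good.kap_affine (h : Good U d ε V ρ) (hA : ∀ P ∈ V, Conf U d V P (A P))
    (hW : Small U d V W δ) (hδ : δ < ρ) {P e : ℝ × ℝ} (he : e ≠ 0) (w : ℝ × ℝ) {a b : ℝ}
    (hab : a < b) (ha : P + a • e ∈ W) (hb : P + b • e ∈ W) : ∃ m : ℝ, ∀ f ∈ Icc a b,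
      kap (A (P + f • e)) e w - kap (A (P + a • e)) e w = m * (f - a) := by
  have inW : ∀ t ∈ Icc a b, P + t • e ∈ W := fun t ht => convex_line hW.convex ht.1 ht.2 ha hb
  have inV : ∀ t ∈ Icc a b, P + t • e ∈ V := fun t ht => hW.sub (inW t ht)
  have ne : ∀ t ∈ Icc a b, bf (A (P + t • e)) e e ≠ 0 := fun t ht => ((hA _ (inV t ht)).1 e he).ne'
  have cA := h.contOn_A hA inV
  refine max_principle (κ := fun t => kap (A (P + t • e)) e w) (ψ := fun t => t) hab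
    ((((continuous_bf e w).comp_continuousOn cA).div ((continuous_bf e e).comp_continuousOn cA)
      ne).neg) continuousOn_id (fun _ _ _ _ h => h) fun f hf => ?_
  obtain ⟨t1, h1, t2, h2, hend, r0, hr⟩ := h.exists_sym he (h.sub (hW.sub ha)) (h.sub (hW.sub hb)) hf
  have mf : f ∈ Icc a b := Ioo_subset_Icc_self hf
  have m1 : t1 ∈ Icc a b := ⟨h1.1, h1.2.le.trans mf.2⟩
  have m2 : t2 ∈ Icc a b := ⟨mf.1.trans h2.1.le, h2.2⟩
  obtain ⟨k, b', hc⟩ := h.cir hA hW hδ (inW f mf) r0 (hW.small _ (inW f mf) _ (inW t1 m1)).le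
  have ee : ∀ t, P + f • e + (t - f) • e = P + t • e := fun t => by module
  refine ⟨t1, h1, t2, h2, hend, -dp b' (w + kap (A (P + f • e)) e w • e), ?_, ?_⟩
  · have := hc.slope (s := t1 - f) (e := e) (by rw [ee]; exact h.sub (inV t1 m1)) (by rw [ee])
      (ne f mf) (by rw [ee]; exact ne t1 m1) w
    rwa [ee] at this
  · have := hc.slope (s := t2 - f) (e := e) (by rw [ee]; exact h.sub (inV t2 m2)) (by rw [ee, hr])
      (ne f mf) (by rw [ee]; exact ne t2 m2) w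
    rwa [ee] at this

lemma Good.polar_eq (h : Good U d ε V ρ) (hA : ∀ P ∈ V, Conf U d V P (A P))
    (hW : Small U d V W δ) (hδ : δ < ρ) (hW' : Small U d W W' δ') (hδ' : δ' < δ) {F : ℝ × ℝ}
    (hF : F ∈ W') {r r' k k' : ℝ} {b b' : ℝ × ℝ} (r0 : 0 < r) (hr : r ≤ δ') (r0' : 0 < r')
    (hr' : r' ≤ δ') (hc : Cir U d A F r k b) (hc' : Cir U d A F r' k' b') : b = b' := by
  have hFW := hW'.sub hF
  have hFV := hW.sub hFW
  have key : ∀ z : ℝ × ℝ, z ≠ 0 → dp b z = dp b' z := fun z hz => by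
    set e : ℝ × ℝ := (-(av (A F) z).2, (av (A F) z).1) with hed
    have hez : bf (A F) e z = 0 := by simp only [hed, bf, av]; ring
    have he : e ≠ 0 := fun h0 => by
      have h1 := (hA F hFV).1 z hz
      have h2 : (av (A F) z).2 = 0 := neg_eq_zero.1 (congrArg Prod.fst h0)
      have h3 : (av (A F) z).1 = 0 := congrArg Prod.snd h0
      rw [← dp_av, dp, h2, h3] at h1
      simp at h1
    have k0 : kap (A F) e z = 0 := by simp [kap, hez]
    have pt : ∀ r : ℝ, 0 < r → r ≤ δ' → ∃ t : ℝ, 0 < t ∧ F + t • e ∈ W ∧ d F (F + t • e) = r :=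
      fun r r0 hr => by
        obtain ⟨S, b, hc⟩ := h.exists_circ hFV r0 (by linarith)
        obtain ⟨t, t0, ht⟩ := hc.root e he
        have := (hc.eq (t • e)).2 (by rw [qv_eq]; exact ht)
        exact ⟨t, t0, hW'.stay F hF _ this.1 (this.2 ▸ hr), this.2⟩
    obtain ⟨t, t0, tW, ht⟩ := pt r r0 hr
    obtain ⟨t', t0', tW', ht'⟩ := pt r' r0' hr'
    have n0 := ((hA F hFV).1 e he).ne'
    have s1 := hc.slope (h.sub (hW.sub tW)) ht n0 ((hA _ (hW.sub tW)).1 e he).ne' z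
    have s2 := hc'.slope (h.sub (hW.sub tW')) ht' n0 ((hA _ (hW.sub tW')).1 e he).ne' z
    obtain ⟨m, hm⟩ := h.kap_affine hA hW hδ (P := F) he z (a := 0) (b := max t t')
      (lt_max_of_lt_left t0) (by simpa using hFW) (by
        rcases max_choice t t' with e1 | e1 <;> rwa [e1])
    have m1 := hm t ⟨t0.le, le_max_left _ _⟩
    have m2 := hm t' ⟨t0'.le, le_max_right _ _⟩
    simp only [zero_smul, add_zero, sub_zero, k0] at s1 s2 m1 m2
    have a1 : m = -dp b z := mul_right_cancel₀ t0.ne' (m1.symm.trans s1)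
    have a2 : m = -dp b' z := mul_right_cancel₀ t0'.ne' (m2.symm.trans s2)
    linarith
  have h1 := key (1, 0) (by simp)
  have h2 := key (0, 1) (by simp)
  simp only [dp, mul_one, mul_zero, add_zero, zero_add] at h1 h2
  exact Prod.ext h1 h2

lemma Good.exists_polar (h : Good U d ε V ρ) (hA : ∀ P ∈ V, Conf U d V P (A P)) {P : ℝ × ℝ}
    (hP : P ∈ V) : ∃ (W : Set (ℝ × ℝ)) (b : ℝ × ℝ → ℝ × ℝ), P ∈ W ∧ IsOpen W ∧ W ⊆ V ∧
      ∀ F ∈ W, ∀ X ∈ W, X ≠ F → ∃ k, Cir U d A F (d F X) k (b F) := by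
  obtain ⟨W, δ, hPW, hδ, hW⟩ := h.exists_small hP (h.openV.mem_nhds hP) h.rpos
  obtain ⟨W', δ', hPW', hδ', hW'⟩ := h.exists_small hP (hW.isOpen.mem_nhds hPW) hW.pos
  have hex : ∀ F, ∃ b, F ∈ W' → ∃ k, Cir U d A F δ' k b := fun F => by
    by_cases hF : F ∈ W'
    · obtain ⟨k, b, hc⟩ := h.cir hA hW hδ (hW'.sub hF) hW'.pos hδ'.le
      exact ⟨b, fun _ => ⟨k, hc⟩⟩
    · exact ⟨0, fun h1 => absurd h1 hF⟩
  choose b hb using hex
  refine ⟨W', b, hPW', hW'.isOpen, hW'.sub.trans hW.sub, fun F hF X hX hne => ?_⟩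
  have r0 := h.pos F (h.sub (hW.sub (hW'.sub hF))) X (h.sub (hW.sub (hW'.sub hX))) hne.symm
  have r1 := (hW'.small F hF X hX).le
  obtain ⟨k, b', hc⟩ := h.cir hA hW hδ (hW'.sub hF) r0 (by linarith)
  obtain ⟨k0, hc0⟩ := hb F hF
  exact ⟨k, h.polar_eq hA hW hδ hW' hδ' hF r0 r1 hW'.pos le_rfl hc hc0 ▸ hc⟩

end Pool.Agent.Lib.PC37
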