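import Pool.Agent.Lib.PC37.Alg

set_option autoImplicit false

open Set Filter Topology

namespace Pool.Agent.Lib.PC37

variable {U V : Set (ℝ × ℝ)} {d : ℝ × ℝ → ℝ × ℝ → ℝ} {ε ρ : ℝ}

lemma Good.ev_pos (h : Good U d ε V ρ) {P w : ℝ × ℝ} (hP : P ∈ V) (hw : w ≠ 0) :
    ∀ᶠ x : ℝ in 𝓝[>] 0, P + x • w ∈ V ∧ 0 < d P (P + x • w) := by
  filter_upwards [(tendsto_ray P w).eventually (h.openV.mem_nhds hP), self_mem_nhdsWithin]
    with x a1 a2
  refine ⟨a1, h.pos _ (h.sub hP) _ (h.sub a1) fun he => ?_⟩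
  have x0 : (0 : ℝ) < x := a2
  exact smul_ne_zero x0.ne' hw (by simpa using he)

lemma Good.tendsto_ratio (h : Good U d ε V ρ) {P : ℝ × ℝ} (hP : P ∈ V) {A : ℝ × ℝ × ℝ}
    (hA : Conf U d V P A) (v : ℝ × ℝ) {w : ℝ × ℝ} (hw : w ≠ 0) :
    Tendsto (fun x : ℝ => d P (P + x • v) / d P (P + x • w)) (𝓝[>] 0)
      (𝓝 (√(bf A v v) / √(bf A w w))) := by
  have aw := hA.1 w hw
  have av := hA.1.nonneg v
  have sw := Real.sqrt_pos.2 aw
  have sw2 := Real.sq_sqrt aw.le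
  have sv := Real.sqrt_nonneg (bf A v v)
  have sv2 := Real.sq_sqrt av
  have mv := (tendsto_ray P v).eventually (h.isOpen.mem_nhds (h.sub hP))
  refine tendsto_order.2 ⟨fun a ha => ?_, fun a ha => ?_⟩
  · rcases lt_or_ge a 0 with a0 | a0
    · filter_upwards [mv, h.ev_pos hP hw] with x b1 b2
      exact a0.trans_le (div_nonneg (h.nonneg (h.sub hP) b1) b2.2.le)
    obtain ⟨c, c1, c2⟩ := exists_between ha
    have c0 : 0 < c := a0.trans_lt c1
    rw [lt_div_iff₀ sw] at c2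
    filter_upwards [h.homog hP hA (v := w) (w := v) (inv_pos.2 c0) (by
      rw [inv_pow, ← div_eq_inv_mul, lt_div_iff₀ (by positivity), ← sw2, ← sv2, ← mul_pow,
        mul_comm]
      gcongr), h.ev_pos hP hw] with x b1 b2
    rw [← div_eq_inv_mul, le_div_iff₀ c0] at b1
    rw [lt_div_iff₀ b2.2]
    nlinarith [b2.2]
  · obtain ⟨c, c1, c2⟩ := exists_between ha
    have c0 : 0 < c := (div_nonneg sv sw.le).trans_lt c1
    rw [div_lt_iff₀ sw] at c1
    filter_upwards [h.homog hP hA (v := v) (w := w) c0 (by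
      rw [← sw2, ← sv2, ← mul_pow]
      gcongr), h.ev_pos hP hw] with x b1 b2
    rw [div_lt_iff₀ b2.2]
    nlinarith [b2.2]

/-- signed length along a line -/
noncomputable def sgl (d : ℝ × ℝ → ℝ × ℝ → ℝ) (P u : ℝ × ℝ) (s : ℝ) : ℝ :=
  if 0 ≤ s then d P (P + s • u) else -d P (P + s • u)

lemma Good.tendsto_sgl (h : Good U d ε V ρ) {P : ℝ × ℝ} (hP : P ∈ V) {A : ℝ × ℝ × ℝ}
    (hA : Conf U d V P A) (u : ℝ × ℝ) {w : ℝ × ℝ} (hw : w ≠ 0) (θ : ℝ) :
    Tendsto (fun x : ℝ => sgl d P u (x * θ) / d P (P + x • w)) (𝓝[>] 0)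
      (𝓝 (θ * (√(bf A u u) / √(bf A w w)))) := by
  have h1 := h.tendsto_ratio hP hA (θ • u) hw
  rw [bf_smul_left, bf_smul_right, ← mul_assoc, Real.sqrt_mul (mul_self_nonneg θ),
    Real.sqrt_mul_self_eq_abs, mul_div_assoc] at h1
  rcases le_or_gt 0 θ with θ0 | θ0
  · rw [abs_of_nonneg θ0] at h1
    refine h1.congr' ?_
    filter_upwards [self_mem_nhdsWithin] with x hx
    rw [sgl, if_pos (mul_nonneg (le_of_lt hx) θ0), smul_smul]
  · have h2 := h1.neg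
    rw [abs_of_neg θ0, neg_mul, neg_neg] at h2
    refine h2.congr' ?_
    filter_upwards [self_mem_nhdsWithin] with x hx
    rw [sgl, if_neg (not_le.2 (mul_neg_of_pos_of_neg hx θ0)), smul_smul, neg_div]

lemma Loc.sgl_behind (h : Loc U d ε) {F u : ℝ × ℝ} {t s : ℝ} (ht : 0 ≤ t) (hs : 0 ≤ t + s)
    (hF : F ∈ U) (h1 : F + t • u ∈ U) (h2 : F + (t + s) • u ∈ U) :
    d F (F + (t + s) • u) = d F (F + t • u) + sgl d (F + t • u) u s := by
  rw [sgl, show F + t • u + s • u = F + (t + s) • u by module]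
  split_ifs with s0
  · exact (h.addr ht (by linarith) hF h2).symm
  · have := h.addr (s := t + s) (t := t) hs (by linarith) hF h1
    rw [h.symm _ h2 _ h1] at this
    linarith

lemma Loc.sgl_ahead (h : Loc U d ε) {F u : ℝ × ℝ} {t s : ℝ} (ht : 0 ≤ t) (hs : s ≤ t)
    (hF : F ∈ U) (h1 : F + t • u ∈ U) (h2 : F + s • u ∈ U) :
    d (F + t • u) (F + s • u) = d F (F + t • u) - sgl d F u s := by
  rw [sgl, h.symm _ h1 _ h2]
  split_ifs with s0
  · linarith [h.addr s0 hs hF h1]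
  · have := h.addl (x := F) (u := u) (r := s) (s := 0) (t := t) (by linarith) ht h2 h1
    rw [zero_smul, add_zero, h.symm _ h2 _ hF] at this
    linarith

lemma Good.desc_unif (h : Good U d ε V ρ) {P u z : ℝ × ℝ} (hP : P ∈ V) {A : ℝ × ℝ × ℝ}
    (hA : Conf U d V P A) (hu : u ≠ 0) {t : ℝ} (ht : 0 < t) (hY : P + t • u ∈ V)
    (hz : 0 < bf A u z) {ι : Type*} {l : Filter ι} {Y Q : ι → ℝ × ℝ} {x : ι → ℝ}
    (tY : Tendsto Y l (𝓝 (P + t • u))) (tQ : Tendsto Q l (𝓝 P)) (tx : Tendsto x l (𝓝[>] 0)) :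
    ∀ᶠ i in l, d (Y i) (Q i + x i • z) < d (Y i) (Q i) := by
  have e : P - t • (-u) = P + t • u := by simp
  have h1 := (hA.2.2 (-u) (neg_ne_zero.2 hu) z).2 (by rw [bf_neg_left]; linarith)
  rw [h.descD_iff hP (neg_ne_zero.2 hu) ht (e ▸ hY), e] at h1
  obtain ⟨τ, τ0, h2, h3⟩ := h1
  have t2 : Tendsto (fun i => Q i + τ • z) l (𝓝 (P + τ • z)) := tQ.add_const _
  have hne : P + t • u ≠ P := fun he => smul_ne_zero ht.ne' hu (by simpa using he)
  have t3 : Tendsto (fun i => Y i - Q i) l (𝓝 (P + t • u - P)) := tY.sub tQ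
  filter_upwards [tY.eventually (h.openV.mem_nhds hY), tQ.eventually (h.openV.mem_nhds hP),
    t2.eventually (h.isOpen.mem_nhds h2),
    (h.tendsto (h.sub hY) h2 tY t2).eventually_lt (h.tendsto (h.sub hY) (h.sub hP) tY tQ) h3,
    t3.eventually_ne (sub_ne_zero.2 hne), tx.eventually self_mem_nhdsWithin,
    (tx.mono_right nhdsWithin_le_nhds).eventually (ge_mem_nhds τ0)] with i a1 a2 a3 a4 a5 a6 a7
  exact (h.desc_mono a1 a2 (sub_ne_zero.1 a5) a6 a7 ⟨a3, a4⟩).2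

/-- moving the centre moves the circle by the cosine of the angle -/
lemma Good.shift (h : Good U d ε V ρ) {F u w : ℝ × ℝ} (hF : F ∈ V) {A B : ℝ × ℝ × ℝ}
    (hA : Conf U d V F A) (hu : u ≠ 0) (hw : w ≠ 0) {t : ℝ} (ht : 0 < t) (hX : F + t • u ∈ V)
    (hB : Conf U d V (F + t • u) B) {y : ℝ → ℝ} (ty : Tendsto y (𝓝[>] 0) (𝓝[>] 0))
    (hy : ∀ᶠ x : ℝ in 𝓝[>] 0, d (F + t • u) (F + t • u + y x • u) = d F (F + x • w)) (θ : ℝ) :
    (θ < bf A u w / √(bf A u u * bf A w w) → ∀ᶠ x : ℝ in 𝓝[>] 0,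
      d (F + x • w) (F + (t + y x * θ) • u) < d F (F + t • u)) ∧
    (bf A u w / √(bf A u u * bf A w w) < θ → ∀ᶠ x : ℝ in 𝓝[>] 0,
      d F (F + t • u) < d (F + x • w) (F + (t + y x * θ) • u)) := by
  have hFU := h.sub hF
  have hXU := h.sub hX
  have au := hA.1 u hu
  have aw := hA.1 w hw
  have su := Real.sqrt_pos.2 au
  have sw := Real.sqrt_pos.2 aw
  have hγ : bf A u w / √(bf A u u * bf A w w) =
      bf A u w / bf A u u * (√(bf A u u) / √(bf A w w)) := by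
    rw [Real.sqrt_mul au.le]
    field_simp
    rw [Real.sq_sqrt au.le]
  have q0 : 0 < √(bf A u u) / √(bf A w w) := div_pos su sw
  have y0 : Tendsto y (𝓝[>] 0) (𝓝 0) := ty.mono_right nhdsWithin_le_nhds
  have ts : Tendsto (fun x => t + y x * θ) (𝓝[>] 0) (𝓝 t) := by
    simpa using (y0.mul_const θ).const_add t
  have tY : Tendsto (fun x => F + (t + y x * θ) • u) (𝓝[>] 0) (𝓝 (F + t • u)) :=
    (ts.smul_const u).const_add F
  have tX : Tendsto (fun x => sgl d (F + t • u) u (y x * θ) / d F (F + x • w)) (𝓝[>] 0) (𝓝 θ) := by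
    have h1 := (h.tendsto_sgl hX hB u hu θ).comp ty
    rw [div_self (Real.sqrt_pos.2 (hB.1 u hu)).ne', mul_one] at h1
    refine h1.congr' ?_
    filter_upwards [hy] with x hx
    simp only [Function.comp, hx]
  have val : ∀ ϑ : ℝ, ∀ᶠ x : ℝ in 𝓝[>] 0, d (F + (t + y x * θ) • u) (F + (x * ϑ) • u) =
      d F (F + t • u) + sgl d (F + t • u) u (y x * θ) - sgl d F u (x * ϑ) := fun ϑ => by
    have t0 : Tendsto (fun x : ℝ => x * ϑ) (𝓝[>] 0) (𝓝 0) := by
      have : Continuous fun x : ℝ => x * ϑ := by fun_prop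
      simpa using (this.tendsto 0).mono_left nhdsWithin_le_nhds
    filter_upwards [h.ev_pt hF u ϑ, tY.eventually (h.isOpen.mem_nhds hXU),
      ts.eventually (le_mem_nhds ht), t0.eventually_lt ts ht] with x a1 a2 a3 a4
    rw [h.sgl_ahead a3 a4.le hFU a2 a1, h.sgl_behind ht.le a3 hFU hXU a2]
  rw [hγ]
  constructor
  · intro hθ
    rw [← div_lt_iff₀ q0] at hθ
    obtain ⟨ϑ, ϑ1, ϑ2⟩ := exists_between hθ
    rw [div_lt_iff₀ q0] at ϑ1
    rw [lt_div_iff₀ au] at ϑ2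
    have e1 := h.desc_unif hF hA hu ht hX (z := w - ϑ • u) (by
      rw [sub_eq_add_neg, bf_add_right, bf_neg_right, bf_smul_right]; linarith) tY
      (tendsto_ray F (ϑ • u)) tendsto_id
    filter_upwards [e1, val ϑ, tX.eventually_lt (h.tendsto_sgl hF hA u hw ϑ) ϑ1, h.ev_pos hF hw,
      tY.eventually (h.isOpen.mem_nhds hXU)] with x a1 a2 a3 a4 a5
    rw [id, show F + x • ϑ • u + x • (w - ϑ • u) = F + x • w by module, smul_smul, a2,
      h.symm _ a5 _ (h.sub a4.1)] at a1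
    rw [div_lt_div_iff_of_pos_right a4.2] at a3
    linarith
  · intro hθ
    rw [← lt_div_iff₀ q0] at hθ
    obtain ⟨ϑ, ϑ1, ϑ2⟩ := exists_between hθ
    rw [lt_div_iff₀ q0] at ϑ2
    rw [div_lt_iff₀ au] at ϑ1
    have e1 := h.desc_unif hF hA hu ht hX (z := ϑ • u - w) (by
      rw [sub_eq_add_neg, bf_add_right, bf_neg_right, bf_smul_right]; linarith) tY
      (tendsto_ray F w) tendsto_id
    filter_upwards [e1, val ϑ, (h.tendsto_sgl hF hA u hw ϑ).eventually_lt tX ϑ2, h.ev_pos hF hw,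
      tY.eventually (h.isOpen.mem_nhds hXU)] with x a1 a2 a3 a4 a5
    rw [id, show F + x • w + x • (ϑ • u - w) = F + (x * ϑ) • u by module, a2,
      h.symm _ a5 _ (h.sub a4.1)] at a1
    rw [div_lt_div_iff_of_pos_right a4.2] at a3
    linarith

end Pool.Agent.Lib.PC37
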