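import Pool.Agent.Lib.PC37.Pole

set_option autoImplicit false

open Set Filter Topology

namespace Pool.Agent.Lib.PC37

variable {U V : Set (ℝ × ℝ)} {d : ℝ × ℝ → ℝ × ℝ → ℝ} {ε ρ : ℝ}

/-- determinant -/
def dt (A : ℝ × ℝ × ℝ) : ℝ := A.1 * A.2.2 - A.2.1 ^ 2

lemma PD.dt_pos {A : ℝ × ℝ × ℝ} (h : PD A) : 0 < dt A := h.facts.2.2

lemma bf_perp {A : ℝ × ℝ × ℝ} {e : ℝ × ℝ} (h : bf A e e ≠ 0) :
    bf A ((-e.2, e.1) + kap A e (-e.2, e.1) • e) ((-e.2, e.1) + kap A e (-e.2, e.1) • e) =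
      dt A * (e.1 ^ 2 + e.2 ^ 2) ^ 2 / bf A e e := by
  rw [bf_add_left, bf_smul_left, bf_kap h, bf_add_right, bf_smul_right, kap]
  field_simp
  simp only [bf, dt]
  ring

lemma deriv_right_of {τ g : ℝ → ℝ} {t c : ℝ} (h1 : ∀ᶠ y in 𝓝[>] (0 : ℝ), τ (t + y) - τ t = g y)
    (h2 : Tendsto (fun y => g y / y) (𝓝[>] 0) (𝓝 c)) : HasDerivWithinAt τ c (Ici t) t := by
  refine HasDerivWithinAt.Ici_of_Ioi ((hasDerivWithinAt_iff_tendsto_slope' (by simp)).2 ?_)
  have ht : Tendsto (fun s : ℝ => s - t) (𝓝[>] t) (𝓝[>] 0) := by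
    refine tendsto_nhdsWithin_iff.2 ⟨?_, ?_⟩
    · have : Continuous fun s : ℝ => s - t := by fun_prop
      simpa using (this.tendsto t).mono_left nhdsWithin_le_nhds
    · filter_upwards [self_mem_nhdsWithin] with s hs
      exact sub_pos.2 (mem_Ioi.1 hs)
  refine (h2.comp ht).congr' ?_
  filter_upwards [ht.eventually h1] with s hs
  rw [add_sub_cancel] at hs
  simp only [Function.comp, slope_def_field, hs]

lemma star_alg {k c s y j β E N x1 x2 : ℝ} (hp : 0 < (1 + y * j) * (1 - s * β))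
    (h1 : k * (s ^ 2 * (1 + y * j) ^ 2 * E + y ^ 2 * N) = ((1 + y * j) * (1 - s * β)) ^ 2)
    (h2 : k * (s * (1 + y * j) * E) + (1 + y * j) * (1 - s * β) * β = c * x1)
    (h3 : k * (y * N + s ^ 2 * j * (1 + y * j) * E) -
      (1 + y * j) * (1 - s * β) * (j * (1 - s * β)) = c * x2) :
    (s * (1 + y * j) ^ 2 * E + β * y ^ 2 * N) * x2 = (1 - s * β) * y * N * x1 := by
  apply mul_left_cancel₀ hp.ne'
  linear_combination ((s ^ 2 * (1 + y * j) ^ 2 * E + y ^ 2 * N) * x2) * h2 -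
    ((s ^ 2 * (1 + y * j) ^ 2 * E + y ^ 2 * N) * x1) * h3 -
    (s * (1 + y * j) * E * x2 - (y * N + s ^ 2 * j * (1 + y * j) * E) * x1) * h1

variable {A : ℝ × ℝ → ℝ × ℝ × ℝ} {W : Set (ℝ × ℝ)} {b : ℝ × ℝ → ℝ × ℝ}

lemma Good.star (h : Good U d ε V ρ) (hA : ∀ P ∈ V, Conf U d V P (A P)) (hW : IsOpen W)
    (hWV : W ⊆ V) (hb : ∀ F ∈ W, ∀ X ∈ W, X ≠ F → ∃ k, Cir U d A F (d F X) k (b F))
    {F e w : ℝ × ℝ} {s : ℝ} (he : e ≠ 0) (hs : s ≠ 0) (hF : F ∈ W) (hX : F + s • e ∈ W)
    (hn : w + kap (A (F + s • e)) e w • e ≠ 0) :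
    bf (A F) e e * bf (A (F + s • e)) (w + kap (A (F + s • e)) e w • e)
        (w + kap (A (F + s • e)) e w • e) * (1 + s * dp (b (F + s • e)) e) =
      (1 - s * dp (b F) e) * bf (A F) (w + kap (A F) e w • e) (w + kap (A F) e w • e) *
        bf (A (F + s • e)) e e := by
  set X := F + s • e with hXd
  have hXF : X ≠ F := fun h0 => smul_ne_zero hs he (by simpa [hXd] using h0)
  have eF := ((hA F (hWV hF)).1 e he).ne'
  have eX := ((hA X (hWV hX)).1 e he).ne'
  obtain ⟨k0, hk0⟩ := hb F hF X hX hXF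
  have sl := hk0.slope (h.sub (hWV hX)) rfl eF eX w
  set m := w + kap (A F) e w • e with hm
  set n := w + kap (A X) e w • e with hnd
  have em : bf (A F) e m = 0 := bf_kap eF w
  have en : bf (A X) e n = 0 := bf_kap eX w
  set j := -dp (b F) m with hj
  have nm : n = m + (s * j) • e := by
    rw [hnd, hm, show kap (A X) e w = kap (A F) e w + s * j by linarith]; module
  have bm : dp (b F) m = -j := by rw [hj, neg_neg]
  have tZ := tendsto_ray X n
  have tA : Tendsto (fun y : ℝ => A (X + y • n)) (𝓝[>] 0) (𝓝 (A X)) :=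
    (h.conf_cont hA (hWV hX)).tendsto.comp tZ
  have t1 := ((continuous_bf n n).tendsto _).comp tA
  have t2 := ((continuous_bf e e).tendsto _).comp tA
  have t0 : Tendsto (fun y : ℝ => y) (𝓝[>] 0) (𝓝 0) := tendsto_id.mono_left nhdsWithin_le_nhds
  have l1 := ((((((t0.mul_const j).const_add 1).pow 2).const_mul s).mul_const
    (bf (A F) e e)).add (((t0.pow 2).const_mul (dp (b F) e)).mul_const (bf (A F) m m))).mul
    (t1.mul_const (1 + s * dp (b X) e))
  have l2 := ((t2.const_mul s).add (((t0.pow 2).mul_const (dp (b X) e)).mul t1)).const_mul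
    ((1 - s * dp (b F) e) * bf (A F) m m)
  have key := tendsto_nhds_unique_of_eventuallyEq l1 l2 (by
    filter_upwards [tZ.eventually (hW.mem_nhds hX), tZ.eventually_ne hXF, self_mem_nhdsWithin]
      with y a1 a2 a3
    have y0 : (0 : ℝ) < y := a3
    have ZU := h.sub (hWV a1)
    obtain ⟨k1, c1⟩ := hb X hX _ a1 fun h0 => smul_ne_zero y0.ne' hn (by simpa using h0)
    obtain ⟨p1, p2, c, p3⟩ := c1 _ ZU rfl
    have p4 := p3 e
    have p5 := p3 n
    simp only [bf_smul_left, bf_smul_right, dp_smul_right, bf_comm (A X) n e, en] at p1 p2 p4 p5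
    have c0 : c ≠ 0 := by
      rintro rfl
      have : 1 - y * dp (b X) n = 0 := by linear_combination y * p5 - p1
      linarith
    have I1 : bf (A (X + y • n)) n e = y * dp (b X) e * bf (A (X + y • n)) n n := by
      apply mul_left_cancel₀ (mul_ne_zero c0 y0.ne')
      linear_combination dp (b X) e * (y * p5 - p1) - p4
    obtain ⟨k2, c2⟩ := hb F hF _ a1 a2
    have ez : F + (s • e + y • n) = X + y • n := by rw [hXd, add_assoc]
    obtain ⟨q1, q2, c', q3⟩ := c2 (s • e + y • n) (by rwa [ez]) (by rw [ez])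
    rw [ez] at q3
    have q4 := q3 e
    have q5 := q3 n
    have S := star_alg (k := k2) (c := c') (s := s) (y := y) (j := j) (β := dp (b F) e)
      (E := bf (A F) e e) (N := bf (A F) m m) (x1 := bf (A (X + y • n)) (s • e + y • n) e)
      (x2 := bf (A (X + y • n)) (s • e + y • n) n)
      (by
        rw [nm] at q2
        simp only [dp_add_right, dp_smul_right, bm] at q2
        linarith)
      (by
        rw [nm] at q1
        simp only [bf_add_left, bf_add_right, bf_smul_left, bf_smul_right, dp_add_right,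
          dp_smul_right, bm, bf_comm (A F) m e, em] at q1
        linear_combination q1)
      (by
        rw [← q4, nm]
        simp only [bf_add_left, bf_smul_left, dp_add_right, dp_smul_right, bm,
          bf_comm (A F) m e, em]
        ring)
      (by
        rw [← q5, nm]
        simp only [bf_add_left, bf_add_right, bf_smul_left, bf_smul_right, dp_add_right,
          dp_smul_right, bm, bf_comm (A F) m e, em]
        ring)
    simp only [bf_add_left, bf_smul_left, bf_comm (A (X + y • n)) e n, I1] at S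
    simp only [Function.comp]
    apply mul_left_cancel₀ y0.ne'
    linear_combination S)
  apply mul_left_cancel₀ hs
  linear_combination key

lemma affine_of_rel {R γ : ℝ → ℝ} {I : Set ℝ} (h0 : (0 : ℝ) ∈ I) {t1 : ℝ} (h1 : t1 ∈ I)
    (hne : t1 ≠ 0) (H : ∀ t ∈ I, ∀ f ∈ I, R t - R f = -(γ t + γ f) * (t - f)) :
    ∃ g : ℝ, ∀ t ∈ I, γ t = γ 0 + g * t := by
  refine ⟨(γ t1 - γ 0) / t1, fun t ht => ?_⟩
  field_simp
  linear_combination H t ht 0 h0 - H t1 h1 0 h0 - H t ht t1 h1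

lemma refl_inv {ψ R : ℝ → ℝ} {f s1 s2 β g K : ℝ} (h1 : s1 < 0) (h2 : 0 < s2)
    (hψ : ∀ s ∈ Icc s1 s2, HasDerivAt ψ (R (f + s))⁻¹ (f + s))
    (hR : ∀ s ∈ Icc s1 s2, R (f + s) = R f * (1 - 2 * β * s) - g * s ^ 2)
    (p1 : 0 < 1 - s1 * β) (p2 : 0 < 1 - s2 * β) (q1 : K * s1 ^ 2 = (1 - s1 * β) ^ 2)
    (q2 : K * s2 ^ 2 = (1 - s2 * β) ^ 2) : ψ (f + s2) - ψ f = ψ f - ψ (f + s1) := by
  have e0 : s2 * (1 - s1 * β) = -s1 * (1 - s2 * β) :=
    (pow_left_inj₀ (mul_pos h2 p1).le (mul_pos (neg_pos.2 h1) p2).le two_ne_zero).1 (by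
      linear_combination s1 ^ 2 * q2 - s2 ^ 2 * q1)
  obtain ⟨σ, σ0, σ2⟩ : ∃ σ : ℝ, 0 < σ ∧ σ * (1 - s2 * β) = s2 :=
    ⟨s2 / (1 - s2 * β), div_pos h2 p2, div_mul_cancel₀ _ p2.ne'⟩
  have σ1 : -σ * (1 - s1 * β) = s1 := by
    apply mul_right_cancel₀ p2.ne'
    linear_combination -(1 - s1 * β) * σ2 - e0
  have d2 : (1 + β * σ) * (1 - s2 * β) = 1 := by linear_combination β * σ2
  have d1 : (1 + β * -σ) * (1 - s1 * β) = 1 := by linear_combination β * σ1
  have u2 : 0 < 1 + β * σ := (pos_iff_pos_of_mul_pos (one_pos.trans_eq d2.symm)).2 p2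
  have u1 : 0 < 1 + β * -σ := (pos_iff_pos_of_mul_pos (one_pos.trans_eq d1.symm)).2 p1
  have v2 : σ / (1 + β * σ) = s2 := by
    rw [div_eq_iff u2.ne']
    linear_combination σ2
  have v1 : -σ / (1 + β * -σ) = s1 := by
    rw [div_eq_iff u1.ne']
    linear_combination σ1
  have der : ∀ x ∈ Icc (-σ) σ, HasDerivAt (fun x => ψ (f + x / (1 + β * x)))
      (R f * (1 - β ^ 2 * x ^ 2) - g * x ^ 2)⁻¹ x := fun x hx => by
    have u : 0 < 1 + β * x := by
      rcases le_total 0 β with hβ | hβ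
      · nlinarith [mul_le_mul_of_nonneg_left hx.1 hβ]
      · nlinarith [mul_le_mul_of_nonpos_left hx.2 hβ]
    have mem : x / (1 + β * x) ∈ Icc s1 s2 := by
      constructor
      · rw [← v1, div_le_div_iff₀ u1 u]; nlinarith [hx.1]
      · rw [← v2, div_le_div_iff₀ u u2]; nlinarith [hx.2]
    have a1 : HasDerivAt (fun x => f + x / (1 + β * x)) ((1 + β * x) ^ 2)⁻¹ x := by
      have := (((hasDerivAt_id x).div (((hasDerivAt_id x).const_mul β).const_add 1)
        u.ne')).const_add f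
      refine this.congr_deriv ?_
      simp only [id]; field_simp; ring
    have a2 := (hψ _ mem).comp x a1
    refine a2.congr_deriv ?_
    rw [hR _ mem, ← mul_inv]
    congr 1
    field_simp; ring
  have der2 : ∀ x ∈ Icc 0 σ, HasDerivAt (fun x => ψ (f + x / (1 + β * x)) +
      ψ (f + -x / (1 + β * -x))) 0 x := fun x hx => by
    have a1 := der x ⟨by linarith [hx.1], hx.2⟩
    have a2 := (der (-x) ⟨by linarith [hx.2], by linarith [hx.1]⟩).comp x (hasDerivAt_neg x)
    refine (a1.add a2).congr_deriv ?_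
    simp
  have := constant_of_has_deriv_right_zero
    (fun x hx => (der2 x hx).continuousAt.continuousWithinAt)
    (fun x hx => (der2 x (Ico_subset_Icc_self hx)).hasDerivWithinAt) σ ⟨σ0.le, le_rfl⟩
  simp only [v1, v2, neg_zero, zero_div, add_zero] at this
  linarith

lemma Good.line_speed (h : Good U d ε V ρ) {A : ℝ × ℝ → ℝ × ℝ × ℝ}
    (hA : ∀ P ∈ V, Conf U d V P (A P)) {P e : ℝ × ℝ} (hP : P ∈ V) (he : e ≠ 0) :
    ∃ C : ℝ, 0 < C ∧ ∀ᶠ t : ℝ in 𝓝 0, Tendsto (fun y : ℝ => d (P + t • e) (P + t • e + y • e) / y)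
      (𝓝[>] 0) (𝓝 (C * (bf (A (P + t • e)) e e ^ 2 / dt (A (P + t • e))))) := by
  obtain ⟨W, b, hPW, hW, hWV, hb⟩ := h.exists_polar hA hP
  have hc : Continuous fun t : ℝ => P + t • e := by fun_prop
  have e1 : ∀ᶠ t : ℝ in 𝓝 0, P + t • e ∈ W :=
    hc.continuousAt.eventually_mem (by simpa using hW.mem_nhds hPW)
  obtain ⟨a, a0, ha⟩ := Metric.nhds_basis_closedBall.mem_iff.1 e1
  rw [Real.closedBall_eq_Icc, zero_sub, zero_add] at ha
  have inW : ∀ t ∈ Icc (-a) a, P + t • e ∈ W := fun t ht => ha ht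
  have inV : ∀ t ∈ Icc (-a) a, P + t • e ∈ V := fun t ht => hWV (inW t ht)
  have inU : ∀ t ∈ Icc (-a) a, P + t • e ∈ U := fun t ht => h.sub (inV t ht)
  have pd : ∀ t ∈ Icc (-a) a, PD (A (P + t • e)) := fun t ht => (hA _ (inV t ht)).1
  have ee := sq_pos_of_ne he
  set R : ℝ → ℝ := fun t => dt (A (P + t • e)) * (e.1 ^ 2 + e.2 ^ 2) ^ 2 /
    bf (A (P + t • e)) e e ^ 2 with hR
  have Rpos : ∀ t ∈ Icc (-a) a, 0 < R t := fun t ht =>
    div_pos (mul_pos (pd t ht).dt_pos (by positivity)) (pow_pos (pd t ht e he) 2)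
  have sh : ∀ f t : ℝ, P + f • e + (t - f) • e = P + t • e := fun f t => by module
  have rel : ∀ t ∈ Icc (-a) a, ∀ f ∈ Icc (-a) a, R t - R f =
      -(dp (b (P + t • e)) e * R t + dp (b (P + f • e)) e * R f) * (t - f) := fun t ht f hf => by
    by_cases htf : t = f
    · simp [htf]
    have Et := pd t ht e he
    have Ef := pd f hf e he
    have := h.star hA hW hWV hb (w := (-e.2, e.1)) he (sub_ne_zero.2 htf) (inW f hf)
      (by rw [sh]; exact inW t ht) (by
        rw [sh]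
        refine ne_of_bf (A := A (P + t • e)) ?_
        rw [bf_perp Et.ne']
        exact div_pos (mul_pos (pd t ht).dt_pos (by positivity)) Et)
    rw [sh, bf_perp Et.ne', bf_perp Ef.ne'] at this
    simp only [hR]
    field_simp at this ⊢
    linear_combination this
  have m0 : (0 : ℝ) ∈ Icc (-a) a := ⟨by linarith, a0.le⟩
  have ma : a ∈ Icc (-a) a := ⟨by linarith, le_rfl⟩
  have mna : -a ∈ Icc (-a) a := ⟨le_rfl, by linarith⟩
  obtain ⟨g, hg⟩ := affine_of_rel (γ := fun t => dp (b (P + t • e)) e * R t) m0 ma a0.ne' rel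
  have quad : ∀ f ∈ Icc (-a) a, ∀ s, f + s ∈ Icc (-a) a →
      R (f + s) = R f * (1 - 2 * dp (b (P + f • e)) e * s) - g * s ^ 2 := fun f hf s hs => by
    linear_combination rel _ hs f hf - s * hg _ hs + s * hg f hf
  have Rc : ContinuousOn R (Icc (-a) a) := by
    refine ContinuousOn.congr (f := fun s => R 0 * (1 - 2 * dp (b (P + (0 : ℝ) • e)) e * s) -
      g * s ^ 2) (by fun_prop) fun s hs => ?_
    simpa using quad 0 m0 s (by simpa using hs)
  set G : ℝ → ℝ := fun t => (R (projIcc (-a) a (by linarith) t))⁻¹ with hG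
  have Gc : Continuous G :=
    (Rc.domRestrict.comp continuous_projIcc).inv₀ fun t => (Rpos _ (projIcc _ _ _ t).2).ne'
  set ψ : ℝ → ℝ := fun t => ∫ x in (0 : ℝ)..t, G x with hψ
  have dG : ∀ t, HasDerivAt ψ (G t) t := fun t => (Gc.integral_hasStrictDerivAt 0 t).hasDerivAt
  have dψ : ∀ t ∈ Icc (-a) a, HasDerivAt ψ (R t)⁻¹ t := fun t ht => by
    have := dG t
    simp only [hG, projIcc_of_mem _ ht] at this
    exact this
  set τ : ℝ → ℝ := fun t => d (P + (-a) • e) (P + t • e) with hτ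
  have inc : ∀ s ∈ Icc (-a) a, ∀ t ∈ Icc (-a) a, s ≤ t →
      τ t - τ s = d (P + s • e) (P + t • e) := fun s hs t ht hst => by
    have := h.addl hs.1 hst (inU _ mna) (inU t ht)
    simp only [hτ]; linarith
  have nept : ∀ s t : ℝ, s ≠ t → P + s • e ≠ P + t • e := fun s t hst h0 =>
    hst (smul_left_injective ℝ he (add_left_cancel h0))
  have τm : StrictMonoOn τ (Icc (-a) a) := fun s hs t ht hst => by
    linarith [inc s hs t ht hst.le, h.pos _ (inU s hs) _ (inU t ht) (nept s t hst.ne)]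
  obtain ⟨m, hm⟩ := max_principle (κ := ψ) (ψ := τ) (show -a < a by linarith)
    (fun t _ => (dG t).continuousAt.continuousWithinAt)
    (h.contOn_ray (inU _ mna) (inU _ mna) (inU _ ma)) τm fun f hf => by
      obtain ⟨t1, h1, t2, h2, hend, r0, hr⟩ := h.exists_sym he (inU _ mna) (inU _ ma) hf
      have mf : f ∈ Icc (-a) a := Ioo_subset_Icc_self hf
      have m1 : t1 ∈ Icc (-a) a := ⟨h1.1, h1.2.le.trans mf.2⟩
      have m2 : t2 ∈ Icc (-a) a := ⟨mf.1.trans h2.1.le, h2.2⟩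
      obtain ⟨k, hk⟩ := hb _ (inW f mf) _ (inW t1 m1) (nept _ _ h1.2.ne)
      obtain ⟨b1, b2, -⟩ := hk ((t1 - f) • e) (by rw [sh]; exact inU t1 m1) (by rw [sh])
      obtain ⟨b3, b4, -⟩ := hk ((t2 - f) • e) (by rw [sh]; exact inU t2 m2) (by rw [sh, hr])
      simp only [bf_smul_left, bf_smul_right, dp_smul_right] at b1 b2 b3 b4
      have mem : ∀ s ∈ Icc (t1 - f) (t2 - f), f + s ∈ Icc (-a) a := fun s hs =>
        ⟨by linarith [hs.1, m1.1], by linarith [hs.2, m2.2]⟩
      have ri := refl_inv (ψ := ψ) (R := R) (f := f) (g := g) (K := k * bf (A (P + f • e)) e e)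
        (sub_neg.2 h1.2) (sub_pos.2 h2.1) (fun s hs => dψ _ (mem s hs))
        (fun s hs => quad f mf s (mem s hs)) b2 b4 (by linear_combination b1)
        (by linear_combination b3)
      rw [add_sub_cancel, add_sub_cancel] at ri
      have i1 := inc t1 m1 f mf h1.2.le
      have i2 := inc f mf t2 m2 h2.1.le
      rw [h.symm _ (inU t1 m1) _ (inU f mf)] at i1
      rw [hr] at i2
      refine ⟨t1, h1, t2, h2, hend, (ψ t2 - ψ f) / d (P + f • e) (P + t1 • e), ?_, ?_⟩
      · rw [show τ t1 - τ f = -d (P + f • e) (P + t1 • e) by linarith]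
        field_simp; linarith
      · rw [i2]; field_simp
  have ψm : StrictMono ψ := strictMono_of_hasDerivAt_pos dG fun t =>
    inv_pos.2 (Rpos _ (projIcc _ _ _ t).2)
  have mpos : 0 < m := by
    have b1 := hm a ma
    have b2 := sub_pos.2 (ψm (show -a < a by linarith))
    have b3 := sub_pos.2 (τm mna ma (by linarith))
    rw [b1] at b2
    exact (pos_iff_pos_of_mul_pos b2).2 b3
  refine ⟨(m * (e.1 ^ 2 + e.2 ^ 2) ^ 2)⁻¹, by positivity, ?_⟩
  filter_upwards [Ioo_mem_nhds (neg_lt_zero.2 a0) a0] with t ht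
  have mt := Ioo_subset_Icc_self ht
  have lim := ((dψ t mt).tendsto_slope_zero_right).const_mul m⁻¹
  have Et := pd t mt e he
  have Dt := (pd t mt).dt_pos
  convert lim.congr' ?_ using 2
  · simp only [hR]; field_simp
  · filter_upwards [self_mem_nhdsWithin, nhdsWithin_le_nhds (gt_mem_nhds (sub_pos.2 ht.2))]
      with y a1 a2
    have y0 : (0 : ℝ) < y := a1
    have my : t + y ∈ Icc (-a) a := ⟨by linarith [mt.1], by linarith⟩
    rw [add_assoc, ← add_smul, ← inc t mt _ my (by linarith), smul_eq_mul,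
      show ψ (t + y) - ψ t = m * (τ (t + y) - τ t) by linear_combination hm _ my - hm t mt]
    field_simp

end Pool.Agent.Lib.PC37
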