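import Pool.Agent.Lib.PC37.Ratio

set_option autoImplicit false

open Set Filter Topology

namespace Pool.Agent.Lib.PC37

variable {U V : Set (ℝ × ℝ)} {d : ℝ × ℝ → ℝ × ℝ → ℝ} {ε ρ : ℝ}

/-- a level curve which is an ellipse -/
structure Lev (U : Set (ℝ × ℝ)) (f : ℝ × ℝ → ℝ) (F : ℝ × ℝ) (c : ℝ)
    (S : ℝ × ℝ × ℝ) (b : ℝ × ℝ) : Prop where
  pd : PD S
  eq : ∀ v, (F + v ∈ U ∧ f (F + v) = c) ↔ bf S v v + 2 * dp b v = 1
  lt : ∀ v, (F + v ∈ U ∧ f (F + v) < c) ↔ bf S v v + 2 * dp b v < 1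

lemma exists_lev (hU : Convex ℝ U) {f : ℝ × ℝ → ℝ} (hf : ContinuousOn f U) {F : ℝ × ℝ}
    (hF : F ∈ U) {c : ℝ} (hc : f F < c)
    (hr : ∀ u : ℝ × ℝ, u ≠ 0 → ∃ T : ℝ, 0 < T ∧ F + T • u ∈ U ∧
      ∀ t, T ≤ t → F + t • u ∈ U → c < f (F + t • u))
    {k : Fin 6 → ℝ} (hk : k ≠ 0) (hq : ∀ X ∈ U, f X = c → qe k X = 0) :
    ∃ S b, Lev U f F c S b := by
  have ivt : ∀ (u : ℝ × ℝ) (r s : ℝ), r ≤ s → F + r • u ∈ U → F + s • u ∈ U → f (F + r • u) < c →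
      c ≤ f (F + s • u) → ∃ t, r < t ∧ t ≤ s ∧ F + t • u ∈ {X | X ∈ U ∧ f X = c} := by
    intro u r s hrs h1 h2 h3 h4
    have hc : ContinuousOn (fun t : ℝ => f (F + t • u)) (Icc r s) :=
      hf.comp (by fun_prop) fun t ht => convex_line hU ht.1 ht.2 h1 h2
    obtain ⟨t, ht, e⟩ := intermediate_value_Icc hrs hc ⟨h3.le, h4⟩
    refine ⟨t, lt_of_le_of_ne ht.1 fun h5 => ?_, ht.2, convex_line hU ht.1 ht.2 h1 h2, e⟩
    rw [← h5] at e
    exact h3.ne e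
  have h0 : ∀ u : ℝ × ℝ, F + (0 : ℝ) • u = F := fun u => by simp
  have hray : ∀ u : ℝ × ℝ, u ≠ 0 → ∃ t : ℝ, 0 < t ∧ F + t • u ∈ {X | X ∈ U ∧ f X = c} := by
    intro u hu
    obtain ⟨T, hT, hTU, h3⟩ := hr u hu
    obtain ⟨t, a1, -, a2⟩ := ivt u 0 T hT.le (by rwa [h0]) hTU (by rwa [h0]) (h3 T le_rfl hTU).le
    exact ⟨t, a1, a2⟩
  obtain ⟨S, b, hpd, hiff⟩ := conic_ray hk (fun X hX => hq X hX.1 hX.2) hray
  have hfac : ∀ (v : ℝ × ℝ) (t : ℝ), F + t • v ∈ {X | X ∈ U ∧ f X = c} →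
      t * (bf S v v + 2 * dp b v - 1) = (1 - t) * (bf S v v * t + 1) := fun v t ht => by
    have := (hiff _).1 ht
    rw [bf_smul_left, bf_smul_right, dp_smul_right] at this
    linear_combination this
  refine ⟨S, b, hpd, hiff, fun v => ?_⟩
  by_cases hv : v = 0
  · simp [hv, hF, hc, bf, dp]
  have hα := hpd v hv
  have h1 : F + (1 : ℝ) • v = F + v := by simp
  constructor
  · rintro ⟨a1, a2⟩
    obtain ⟨T, hT, hTU, h3⟩ := hr v hv
    have hT1 : 1 ≤ T := by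
      by_contra hcon
      have := h3 1 (not_le.1 hcon).le (by rwa [h1])
      rw [h1] at this
      linarith
    obtain ⟨t, b1, -, b2⟩ := ivt v 1 T hT1 (by rwa [h1]) hTU (by rwa [h1]) (h3 T le_rfl hTU).le
    have b3 := hfac v t b2
    have b4 : (1 - t) * (bf S v v * t + 1) < 0 :=
      mul_neg_of_neg_of_pos (by linarith) (by have : 0 < t := by linarith
                                              positivity)
    by_contra hcon
    have : 0 ≤ t * (bf S v v + 2 * dp b v - 1) := mul_nonneg (by linarith) (by linarith)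
    linarith
  · intro a1
    have key : ∀ t : ℝ, 0 < t → F + t • v ∈ {X | X ∈ U ∧ f X = c} → 1 < t := fun t ht hm => by
      have b3 := hfac v t hm
      have b4 : t * (bf S v v + 2 * dp b v - 1) < 0 := mul_neg_of_pos_of_neg ht (by linarith)
      by_contra hcon
      have : 0 ≤ (1 - t) * (bf S v v * t + 1) := mul_nonneg (by linarith) (by positivity)
      linarith
    obtain ⟨t, ht, hm⟩ := hray v hv
    have b1 := convex_ray hU zero_le_one (key t ht hm).le hF hm.1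
    refine ⟨by rwa [h1] at b1, ?_⟩
    by_contra hcon
    obtain ⟨t', c1, c2, c3⟩ := ivt v 0 1 zero_le_one (by rwa [h0]) b1 (by rwa [h0])
      (by rw [h1]; exact not_lt.1 hcon)
    linarith [key t' c1 c3]

lemma Good.exists_lev_shift (h : Good U d ε V ρ) {F F' : ℝ × ℝ} (hF : F ∈ V) (hF' : F' ∈ V)
    {r : ℝ} (hr : d F F' < r) (hrρ : r ≤ ρ) : ∃ S b, Lev U (fun X => d F' X) F r S b := by
  have hFU := h.sub hF
  have hFU' := h.sub hF'
  obtain ⟨k, hk, hq⟩ := h.circle_conic hF' ((h.nonneg hFU hFU').trans_lt hr) hrρ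
  refine exists_lev h.convex (fun X hX => ?_) hFU ?_ (fun u hu => ?_) hk hq
  · exact (h.tendsto hFU' hX tendsto_const_nhds tendsto_id).mono_left nhdsWithin_le_nhds
  · rwa [h.symm F' hFU' F hFU]
  · obtain ⟨T, hT, hTU, h3⟩ := h.reach F hF u hu
    refine ⟨T, hT, hTU, fun t ht htU => ?_⟩
    have a1 := h.ray_le hT.le ht hFU htU
    have a2 := h.tri _ hFU _ hFU' _ htU
    linarith [h.rpos]

lemma Good.exists_step (h : Good U d ε V ρ) {X u : ℝ × ℝ} (hX : X ∈ V) (hu : u ≠ 0) {g : ℝ → ℝ}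
    (tg : Tendsto g (𝓝[>] 0) (𝓝[>] 0)) : ∃ y : ℝ → ℝ, Tendsto y (𝓝[>] 0) (𝓝[>] 0) ∧
      ∀ᶠ x : ℝ in 𝓝[>] 0, d X (X + y x • u) = g x := by
  have hXU := h.sub hX
  have hex : ∀ x : ℝ, ∃ y : ℝ, 0 < g x → g x < ρ → 0 < y ∧ X + y • u ∈ U ∧ d X (X + y • u) = g x := by
    intro x
    by_cases hx : 0 < g x ∧ g x < ρ
    · obtain ⟨S, b, hc⟩ := h.exists_circ hX hx.1 hx.2.le
      obtain ⟨t, t0, ht⟩ := hc.root u hu
      refine ⟨t, fun _ _ => ⟨t0, (hc.eq _).2 ?_⟩⟩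
      rw [bf_smul_left, bf_smul_right, dp_smul_right]; linear_combination ht
    · exact ⟨0, fun h1 h2 => absurd ⟨h1, h2⟩ hx⟩
  choose y hy using hex
  have g0 := tg.mono_right nhdsWithin_le_nhds
  have ev : ∀ᶠ x : ℝ in 𝓝[>] 0, 0 < y x ∧ X + y x • u ∈ U ∧ d X (X + y x • u) = g x := by
    filter_upwards [tg.eventually self_mem_nhdsWithin, g0.eventually (gt_mem_nhds h.rpos)]
      with x a1 a2
    exact hy x a1 a2
  refine ⟨y, tendsto_nhdsWithin_iff.2 ⟨tendsto_order.2 ⟨fun a ha => ?_, fun a ha => ?_⟩,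
    ev.mono fun x hx => hx.1⟩, ev.mono fun x hx => hx.2.2⟩
  · exact ev.mono fun x hx => ha.trans hx.1
  · obtain ⟨δ, ⟨δ1, δ2⟩, δ0⟩ := (((h.ev_pos hX hu).and
      (nhdsWithin_le_nhds (gt_mem_nhds ha))).and self_mem_nhdsWithin).exists
    filter_upwards [ev, g0.eventually (gt_mem_nhds δ1.2)] with x a1 a2
    by_contra hcon
    have := h.ray_le (le_of_lt δ0) (δ2.le.trans (not_lt.1 hcon)) hXU a1.2.1
    linarith [a1.2.2]

/-- value of a quadratic function on a ray -/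
def qv (k : (ℝ × ℝ × ℝ) × (ℝ × ℝ)) (u : ℝ × ℝ) (t : ℝ) : ℝ := t ^ 2 * bf k.1 u u + 2 * t * dp k.2 u

lemma qv_eq (S : ℝ × ℝ × ℝ) (b u : ℝ × ℝ) (t : ℝ) :
    bf S (t • u) (t • u) + 2 * dp b (t • u) = qv (S, b) u t := by
  rw [bf_smul_left, bf_smul_right, dp_smul_right, qv]; ring

lemma qv_lin (k k' : (ℝ × ℝ × ℝ) × (ℝ × ℝ)) (c : ℝ) (u : ℝ × ℝ) (t : ℝ) :
    qv (c • (k' - k)) u t = c * (qv k' u t - qv k u t) := by
  simp only [qv, bf, dp, Prod.smul_fst, Prod.smul_snd, Prod.fst_sub, Prod.snd_sub, smul_eq_mul]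
  ring

lemma tendsto_qv {ι : Type*} {l : Filter ι} {k : ι → (ℝ × ℝ × ℝ) × (ℝ × ℝ)}
    {k0 : (ℝ × ℝ × ℝ) × (ℝ × ℝ)} {s : ι → ℝ} {t : ℝ} (hk : Tendsto k l (𝓝 k0))
    (hs : Tendsto s l (𝓝 t)) (u : ℝ × ℝ) :
    Tendsto (fun i => qv (k i) u (s i)) l (𝓝 (qv k0 u t)) := by
  have : Continuous fun p : ((ℝ × ℝ × ℝ) × (ℝ × ℝ)) × ℝ => qv p.1 u p.2 := by
    unfold qv bf dp; fun_prop
  exact (this.tendsto (k0, t)).comp (hk.prodMk_nhds hs)

/-- the tangents from the centre to a circle are the isotropic lines of the centre -/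
lemma Good.tang (h : Good U d ε V ρ) {A : ℝ × ℝ → ℝ × ℝ × ℝ}
    (hA : ∀ P ∈ V, Conf U d V P (A P)) {F : ℝ × ℝ} (hF : F ∈ V) {r : ℝ} (r0 : 0 < r) (hr : r < ρ)
    {S : ℝ × ℝ × ℝ} {b : ℝ × ℝ} (hc : Circ U d F r S b)
    (hin : ∀ X ∈ U, d F X = r → X ∈ V) : ∃ k : ℝ, 0 < k ∧ S + sp b b = k • A F := by
  have hFU := h.sub hF
  set w : ℝ × ℝ := (1, 0) with hwd
  have hw : w ≠ 0 := by simp [hwd]
  set g : ℝ → ℝ := fun x => d F (F + x • w) with hg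
  have g0 : Tendsto g (𝓝[>] 0) (𝓝 0) := by
    have := h.tendsto hFU hFU tendsto_const_nhds (tendsto_ray F w)
    rwa [h.self hFU] at this
  have tg : Tendsto g (𝓝[>] 0) (𝓝[>] 0) :=
    tendsto_nhdsWithin_iff.2 ⟨g0, (h.ev_pos hF hw).mono fun x hx => hx.2⟩
  have hex : ∀ x : ℝ, ∃ k k' : (ℝ × ℝ × ℝ) × (ℝ × ℝ), F + x • w ∈ V → g x < r → r + g x < ρ →
      Circ U d F (r + g x) k.1 k.2 ∧ Lev U (fun X => d (F + x • w) X) F r k'.1 k'.2 := fun x => by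
    by_cases hx : F + x • w ∈ V ∧ g x < r ∧ r + g x < ρ
    · obtain ⟨S1, b1, h1⟩ := h.exists_circ hF (r := r + g x)
        (by linarith [h.nonneg hFU (h.sub hx.1)]) hx.2.2.le
      obtain ⟨S2, b2, h2⟩ := h.exists_lev_shift hF hx.1 hx.2.1 hr.le
      exact ⟨(S1, b1), (S2, b2), fun _ _ _ => ⟨h1, h2⟩⟩
    · exact ⟨0, 0, fun h1 h2 h3 => absurd ⟨h1, h2, h3⟩ hx⟩
  choose k k' hk using hex
  have ev : ∀ᶠ x : ℝ in 𝓝[>] 0, Circ U d F (r + g x) (k x).1 (k x).2 ∧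
      Lev U (fun X => d (F + x • w) X) F r (k' x).1 (k' x).2 := by
    filter_upwards [h.ev_pos hF hw, g0.eventually (gt_mem_nhds r0),
      g0.eventually (gt_mem_nhds (sub_pos.2 hr))] with x a1 a2 a3
    exact hk x a1.1 a2 (by linarith)
  set Δ := fun x => (k x - (S, b), k' x - (S, b)) with hΔ
  have mpos : ∀ᶠ x : ℝ in 𝓝[>] 0, 0 < ‖Δ x‖ := by
    filter_upwards [ev, h.ev_pos hF hw] with x a1 a2
    rw [norm_pos_iff]
    intro h0
    have e : k x = (S, b) := sub_eq_zero.1 (congrArg Prod.fst h0)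
    obtain ⟨t, t0, ht⟩ := hc.root w hw
    have b1 := (hc.eq (t • w)).2 (by rw [qv_eq]; exact ht)
    have b2 := (a1.1.eq (t • w)).2 (by rw [e, qv_eq]; exact ht)
    have := a2.2
    simp only [hg] at b2
    linarith [b1.2, b2.2]
  set 𝒰 := Ultrafilter.of (𝓝[>] (0 : ℝ)) with h𝒰
  have hle : (𝒰 : Filter ℝ) ≤ 𝓝[>] 0 := Ultrafilter.of_le _
  obtain ⟨K, hK, hlim⟩ := (isCompact_sphere (0 : ((ℝ × ℝ × ℝ) × (ℝ × ℝ)) × ((ℝ × ℝ × ℝ) × (ℝ × ℝ)))
    1).ultrafilter_le_nhds' (𝒰.map fun x => ‖Δ x‖⁻¹ • Δ x) (by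
      rw [Ultrafilter.mem_map]
      refine hle (mpos.mono fun x hx => ?_)
      simp only [mem_sphere_iff_norm, sub_zero, norm_smul, norm_inv, norm_norm]
      exact inv_mul_cancel₀ hx.ne')
  have tK : Tendsto (fun x => ‖Δ x‖⁻¹ • Δ x) 𝒰 (𝓝 K) := hlim
  have tK1 : Tendsto (fun x => ‖Δ x‖⁻¹ • (k x - (S, b))) 𝒰 (𝓝 K.1) :=
    (continuous_fst.tendsto K).comp tK
  have tK2 : Tendsto (fun x => ‖Δ x‖⁻¹ • (k' x - (S, b))) 𝒰 (𝓝 K.2) :=
    (continuous_snd.tendsto K).comp tK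
  refine prop_of_rel (s := K.1.1) (p := K.1.2) (s' := K.2.1) (p' := K.2.2) (hA F hF).1 hc.pd hw
    hc.root (fun u hu t t0 ht => ?_) (fun ⟨h1, h2, h3, h4⟩ => ?_)
  swap
  · have : K = 0 := Prod.ext (Prod.ext h3 h1) (Prod.ext h4 h2)
    simp [this] at hK
  change qv K.2 u t = _ * qv K.1 u t
  have hXr := (hc.eq (t • u)).2 (by rw [qv_eq]; exact ht)
  have hX := hin _ hXr.1 hXr.2
  obtain ⟨y, ty, hy⟩ := h.exists_step hX hu tg
  have y0 : Tendsto y 𝒰 (𝓝 0) := (ty.mono_right nhdsWithin_le_nhds).mono_left hle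
  have su := hc.pd u hu
  set α := bf S u u with hα
  set c := 2 * (t * α + dp b u) with hcd
  have c0 : 0 < c := by
    have : 0 < t * c := by rw [hcd]; nlinarith [mul_pos (mul_pos t0 t0) su]
    exact (pos_iff_pos_of_mul_pos this).1 t0
  have expand : ∀ s : ℝ, qv (S, b) u (t + s) = 1 + s * (c + s * α) := fun s => by
    simp only [qv, hcd, ← hα]; linear_combination ht
  have ts : ∀ θ : ℝ, Tendsto (fun x => t + y x * θ) 𝒰 (𝓝 t) := fun θ => by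
    simpa using (y0.mul_const θ).const_add t
  have inU : ∀ θ : ℝ, ∀ᶠ x in (𝒰 : Filter ℝ), F + (t + y x * θ) • u ∈ U := fun θ =>
    (((ts θ).smul_const u).const_add F).eventually (h.isOpen.mem_nhds hXr.1)
  have tc : ∀ θ : ℝ, Tendsto (fun x => c + y x * θ * α) 𝒰 (𝓝 c) := fun θ => by
    simpa using ((y0.mul_const θ).mul_const α).const_add c
  have l1 : Tendsto (fun x => -(‖Δ x‖⁻¹ * y x) * (c + y x * 1 * α)) 𝒰 (𝓝 (qv K.1 u t)) := by
    refine (tendsto_qv tK1 (ts 1) u).congr' ?_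
    filter_upwards [hle ev, hle hy, inU 1, hle (ty.eventually self_mem_nhdsWithin)]
      with x a1 a2 a3 a4
    have y1 : 0 < y x := a4
    have b1 := h.addr (x := F) (u := u) (s := t) (t := t + y x * 1) t0.le (by linarith) hFU a3
    rw [show F + (t + y x * 1) • u = F + t • u + y x • u by module, a2, hXr.2] at b1
    have b2 := (a1.1.eq ((t + y x * 1) • u)).1 ⟨a3, by
      rw [show F + (t + y x * 1) • u = F + t • u + y x • u by module]; exact b1.symm⟩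
    rw [qv_eq] at b2
    rw [qv_lin, b2, expand]; ring
  have l2 : Tendsto (fun x => -(‖Δ x‖⁻¹ * y x)) 𝒰 (𝓝 (qv K.1 u t / c)) := by
    refine (l1.div (tc 1) c0.ne').congr' ?_
    filter_upwards [(tc 1).eventually_ne c0.ne'] with x hx
    simp only [Pi.div_apply]
    rw [mul_div_cancel_right₀ _ hx]
  have l3 : ∀ θ : ℝ, Tendsto (fun x => -(‖Δ x‖⁻¹ * y x) * θ * (c + y x * θ * α)) 𝒰
      (𝓝 (θ * qv K.1 u t)) := fun θ => by
    have := (l2.mul_const θ).mul (tc θ)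
    rwa [show qv K.1 u t / c * θ * c = θ * qv K.1 u t by field_simp] at this
  set γ := bf (A F) u w / √(bf (A F) u u * bf (A F) w w) with hγ
  have lo : ∀ θ < γ, qv K.2 u t ≤ θ * qv K.1 u t := fun θ hθ => by
    refine le_of_tendsto_of_tendsto (tendsto_qv tK2 (ts θ) u) (l3 θ) ?_
    filter_upwards [hle ev, hle ((h.shift hF (hA F hF) hu hw t0 hX (hA _ hX) ty hy θ).1 hθ),
      inU θ, hle mpos] with x a1 a2 a3 a4
    have b2 := (a1.2.lt ((t + y x * θ) • u)).1 ⟨a3, by rw [← hXr.2]; exact a2⟩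
    rw [qv_eq] at b2
    rw [qv_lin, expand]
    nlinarith [mul_pos (inv_pos.2 a4) (sub_pos.2 b2)]
  have hi : ∀ θ, γ < θ → θ * qv K.1 u t ≤ qv K.2 u t := fun θ hθ => by
    refine le_of_tendsto_of_tendsto (l3 θ) (tendsto_qv tK2 (ts θ) u) ?_
    filter_upwards [hle ev, hle ((h.shift hF (hA F hF) hu hw t0 hX (hA _ hX) ty hy θ).2 hθ),
      inU θ, hle mpos] with x a1 a2 a3 a4
    have b2 : 1 ≤ qv (k' x) u (t + y x * θ) := by
      by_contra hcon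
      have b3 := ((a1.2.lt ((t + y x * θ) • u)).2 (by rw [qv_eq]; exact not_le.1 hcon)).2
      rw [hXr.2] at a2
      exact lt_asymm a2 b3
    rw [qv_lin, expand]
    nlinarith [mul_nonneg (inv_pos.2 a4).le (sub_nonneg.2 b2)]
  have cc : Continuous fun θ : ℝ => θ * qv K.1 u t := by fun_prop
  refine le_antisymm ?_ ?_
  · exact ge_of_tendsto ((cc.tendsto γ).mono_left (nhdsWithin_le_nhds (s := Iio γ)))
      (eventually_mem_nhdsWithin.mono fun θ hθ => lo θ hθ)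
  · exact le_of_tendsto ((cc.tendsto γ).mono_left (nhdsWithin_le_nhds (s := Ioi γ)))
      (eventually_mem_nhdsWithin.mono fun θ hθ => hi θ hθ)

end Pool.Agent.Lib.PC37
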